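import Mathlib

/-!
# Irreducible Lie algebras with a grading by a pair of lines are orthogonal or symplectic
-/

set_option autoImplicit false
set_option linter.unusedSectionVars false
set_option linter.unusedVariables false

namespace Pool.Agent.Helper43y

open Module

noncomputable section

variable {U : Type} [AddCommGroup U] [Module ℂ U]

/-- The operator `v ↦ T(x, v) y - ε T(y, v) x`. -/
def SS (T : U →ₗ[ℂ] U →ₗ[ℂ] ℂ) (ε : ℂ) (x y : U) : End ℂ U :=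
  (T x).smulRight y - ε • (T y).smulRight x

theorem SS_apply (T : U →ₗ[ℂ] U →ₗ[ℂ] ℂ) (ε : ℂ) (x y v : U) :
    SS T ε x y v = T x v • y - ε • T y v • x := rfl

/-- An `ε`-symmetric form with a hyperbolic pair. -/
structure Hyp (T : U →ₗ[ℂ] U →ₗ[ℂ] ℂ) (ε : ℂ) (e0 e1 : U) : Prop where
  ee : ε * ε = 1
  sym : ∀ x y, T x y = ε * T y x
  nd : ∀ x, (∀ y, T x y = 0) → x = 0
  t00 : T e0 e0 = 0
  t11 : T e1 e1 = 0
  t01 : T e0 e1 = 1

variable {T : U →ₗ[ℂ] U →ₗ[ℂ] ℂ} {ε : ℂ} {e0 e1 : U}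

/-- Skew operators. -/
def Skw (T : U →ₗ[ℂ] U →ₗ[ℂ] ℂ) (X : End ℂ U) : Prop := ∀ u v, T (X u) v + T u (X v) = 0

/-- The middle part. -/
def Mdl (T : U →ₗ[ℂ] U →ₗ[ℂ] ℂ) (e0 e1 v : U) : Prop := T e0 v = 0 ∧ T e1 v = 0

/-- The projection to the middle part. -/
def pr (T : U →ₗ[ℂ] U →ₗ[ℂ] ℂ) (ε : ℂ) (e0 e1 : U) (v : U) : U :=
  v - T e0 v • e1 - ε • T e1 v • e0

theorem SS_add (T : U →ₗ[ℂ] U →ₗ[ℂ] ℂ) (ε : ℂ) (x y z : U) :
    SS T ε x (y + z) = SS T ε x y + SS T ε x z := by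
  refine LinearMap.ext fun v => ?_
  rw [LinearMap.add_apply, SS_apply, SS_apply, SS_apply, map_add, LinearMap.add_apply]
  module

theorem SS_smul (T : U →ₗ[ℂ] U →ₗ[ℂ] ℂ) (ε c : ℂ) (x y : U) :
    SS T ε x (c • y) = c • SS T ε x y := by
  refine LinearMap.ext fun v => ?_
  rw [LinearMap.smul_apply, SS_apply, SS_apply, map_smul, LinearMap.smul_apply, smul_eq_mul]
  module

theorem SS_add' (T : U →ₗ[ℂ] U →ₗ[ℂ] ℂ) (ε : ℂ) (x y z : U) :
    SS T ε (x + y) z = SS T ε x z + SS T ε y z := by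
  refine LinearMap.ext fun v => ?_
  rw [LinearMap.add_apply, SS_apply, SS_apply, SS_apply, map_add, LinearMap.add_apply]
  module

theorem SS_smul' (T : U →ₗ[ℂ] U →ₗ[ℂ] ℂ) (ε c : ℂ) (x y : U) :
    SS T ε (c • x) y = c • SS T ε x y := by
  refine LinearMap.ext fun v => ?_
  rw [LinearMap.smul_apply, SS_apply, SS_apply, map_smul, LinearMap.smul_apply, smul_eq_mul]
  module

theorem SS_zero (T : U →ₗ[ℂ] U →ₗ[ℂ] ℂ) (ε : ℂ) (x : U) : SS T ε x 0 = 0 := by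
  have := SS_smul T ε 0 x 0
  rwa [zero_smul, zero_smul] at this

theorem Hyp.eps (h : Hyp T ε e0 e1) : ε ≠ 0 := fun h0 => by
  have := h.ee
  rw [h0, zero_mul] at this
  exact zero_ne_one this

theorem SS_swap (h : Hyp T ε e0 e1) (x y : U) : SS T ε y x = -(ε • SS T ε x y) := by
  refine LinearMap.ext fun v => ?_
  rw [LinearMap.neg_apply, LinearMap.smul_apply, SS_apply, SS_apply, smul_sub, smul_smul ε ε, h.ee,
    one_smul]
  module

theorem Hyp.t10 (h : Hyp T ε e0 e1) : T e1 e0 = ε := by rw [h.sym, h.t01, mul_one]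

theorem Mdl.left (h : Hyp T ε e0 e1) {v : U} (hv : Mdl T e0 e1 v) : T v e0 = 0 ∧ T v e1 = 0 := by
  rw [h.sym v e0, h.sym v e1, hv.1, hv.2, mul_zero]
  exact ⟨rfl, rfl⟩

theorem mdl_pr (h : Hyp T ε e0 e1) (v : U) : Mdl T e0 e1 (pr T ε e0 e1 v) := by
  unfold Mdl pr
  simp only [map_sub, map_smul, smul_eq_mul, h.t01, h.t00, h.t11, h.t10]
  constructor
  · ring
  · linear_combination (-T e1 v) * h.ee

theorem pr_mdl {v : U} (hv : Mdl T e0 e1 v) : pr T ε e0 e1 v = v := by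
  unfold pr
  rw [hv.1, hv.2]
  module

theorem pr_dec (v : U) : v = T e0 v • e1 + (ε * T e1 v) • e0 + pr T ε e0 e1 v := by
  unfold pr
  module

/-- The bracket with a skew operator. -/
theorem br_SS {X : End ℂ U} (hX : Skw T X) (x y : U) :
    X * SS T ε x y - SS T ε x y * X = SS T ε x (X y) + SS T ε (X x) y := by
  refine LinearMap.ext fun v => ?_
  have h1 : T x (X v) = -T (X x) v := by linear_combination hX x v
  have h2 : T y (X v) = -T (X y) v := by linear_combination hX y v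
  rw [LinearMap.sub_apply, Module.End.mul_apply, Module.End.mul_apply, LinearMap.add_apply,
    SS_apply, SS_apply, SS_apply, SS_apply, h1, h2, map_sub, map_smul, map_smul, map_smul]
  module

theorem skw_SS (h : Hyp T ε e0 e1) (x y : U) : Skw T (SS T ε x y) := by
  intro u v
  rw [SS_apply, SS_apply]
  simp only [map_sub, map_smul, LinearMap.sub_apply, LinearMap.smul_apply, smul_eq_mul]
  rw [h.sym u y, h.sym u x]
  linear_combination (-(T y v * T x u)) * h.ee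

/-- The hypotheses on the two Lie algebras. -/
structure Alg (T : U →ₗ[ℂ] U →ₗ[ℂ] ℂ) (ε : ℂ) (e0 e1 : U) (𝔏 𝔊 : Submodule ℂ (End ℂ U)) :
    Prop where
  hyp : Hyp T ε e0 e1
  le : 𝔊 ≤ 𝔏
  skw : ∀ X ∈ 𝔏, Skw T X
  br : ∀ X ∈ 𝔏, ∀ Y ∈ 𝔊, X * Y - Y * X ∈ 𝔊
  irr : ∀ W : Submodule ℂ U, (∀ X ∈ 𝔏, ∀ u ∈ W, X u ∈ W) → W = ⊥ ∨ W = ⊤
  m1 : ∀ X ∈ 𝔏, SS T ε e1 (pr T ε e0 e1 (X e0)) ∈ 𝔊
  p1 : ∀ X ∈ 𝔏, SS T ε e0 (pr T ε e0 e1 (X e1)) ∈ 𝔊
  m2 : ∀ X ∈ 𝔏, T e0 (X e0) • SS T ε e1 e1 ∈ 𝔊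
  p2 : ∀ X ∈ 𝔏, T e1 (X e1) • SS T ε e0 e0 ∈ 𝔊

variable {𝔏 𝔊 : Submodule ℂ (End ℂ U)}

/-- The symmetry which exchanges the two lines. -/
theorem Alg.swap (h : Alg T ε e0 e1 𝔏 𝔊) : Alg T ε e1 (ε • e0) 𝔏 𝔊 := by
  have hh := h.hyp
  have hpr : ∀ v, pr T ε e1 (ε • e0) v = pr T ε e0 e1 v := by
    intro v
    unfold pr
    rw [map_smul, LinearMap.smul_apply, smul_eq_mul, smul_smul ε (ε * T e0 v), ← mul_assoc, hh.ee,
      one_mul, smul_smul, smul_smul]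
    rw [mul_comm (T e1 v) ε]
    module
  refine ⟨⟨hh.ee, hh.sym, hh.nd, hh.t11, ?_, ?_⟩, h.le, h.skw, h.br, h.irr, fun X hX => ?_,
    fun X hX => ?_, fun X hX => ?_, fun X hX => ?_⟩
  · rw [map_smul, map_smul, LinearMap.smul_apply, hh.t00, smul_zero, smul_zero]
  · rw [map_smul, hh.t10, smul_eq_mul, hh.ee]
  · rw [SS_smul', hpr]
    exact 𝔊.smul_mem _ (h.p1 X hX)
  · rw [hpr, map_smul]
    have h1 := h.m1 X hX
    have h2 : pr T ε e0 e1 (ε • X e0) = ε • pr T ε e0 e1 (X e0) := by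
      unfold pr
      simp only [map_smul, smul_eq_mul]
      module
    rw [h2, SS_smul]
    exact 𝔊.smul_mem _ h1
  · have h1 : SS T ε (ε • e0) (ε • e0) = SS T ε e0 e0 := by
      rw [SS_smul, SS_smul', smul_smul, hh.ee, one_smul]
    rw [h1]
    exact h.p2 X hX
  · have h1 : T (ε • e0) (X (ε • e0)) = T e0 (X e0) := by
      rw [map_smul, map_smul, LinearMap.smul_apply, map_smul, smul_eq_mul, smul_eq_mul, ← mul_assoc,
        hh.ee, one_mul]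
    rw [h1]
    exact h.m2 X hX

/-- The vectors `a` of the middle part for which the operator attached to `e1` and `a` belongs to
the ideal. -/
def AA (T : U →ₗ[ℂ] U →ₗ[ℂ] ℂ) (ε : ℂ) (e0 e1 : U) (𝔊 : Submodule ℂ (End ℂ U)) :
    Submodule ℂ U where
  carrier := {a | Mdl T e0 e1 a ∧ SS T ε e1 a ∈ 𝔊}
  add_mem' := by
    rintro a b ⟨⟨ha1, ha2⟩, ha⟩ ⟨⟨hb1, hb2⟩, hb⟩
    refine ⟨⟨by rw [map_add, ha1, hb1, add_zero], by rw [map_add, ha2, hb2, add_zero]⟩, ?_⟩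
    rw [SS_add]
    exact 𝔊.add_mem ha hb
  zero_mem' := ⟨⟨map_zero _, map_zero _⟩, by rw [SS_zero]; exact 𝔊.zero_mem⟩
  smul_mem' := by
    rintro c a ⟨⟨ha1, ha2⟩, ha⟩
    refine ⟨⟨by rw [map_smul, ha1, smul_zero], by rw [map_smul, ha2, smul_zero]⟩, ?_⟩
    rw [SS_smul]
    exact 𝔊.smul_mem c ha

/-- The same for `e0`. -/
def BB (T : U →ₗ[ℂ] U →ₗ[ℂ] ℂ) (ε : ℂ) (e0 e1 : U) (𝔊 : Submodule ℂ (End ℂ U)) :
    Submodule ℂ U where
  carrier := {a | Mdl T e0 e1 a ∧ SS T ε e0 a ∈ 𝔊}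
  add_mem' := by
    rintro a b ⟨⟨ha1, ha2⟩, ha⟩ ⟨⟨hb1, hb2⟩, hb⟩
    refine ⟨⟨by rw [map_add, ha1, hb1, add_zero], by rw [map_add, ha2, hb2, add_zero]⟩, ?_⟩
    rw [SS_add]
    exact 𝔊.add_mem ha hb
  zero_mem' := ⟨⟨map_zero _, map_zero _⟩, by rw [SS_zero]; exact 𝔊.zero_mem⟩
  smul_mem' := by
    rintro c a ⟨⟨ha1, ha2⟩, ha⟩
    refine ⟨⟨by rw [map_smul, ha1, smul_zero], by rw [map_smul, ha2, smul_zero]⟩, ?_⟩
    rw [SS_smul]
    exact 𝔊.smul_mem c ha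

theorem AA_swap (h : Hyp T ε e0 e1) : AA T ε e1 (ε • e0) 𝔊 = BB T ε e0 e1 𝔊 := by
  ext a
  constructor
  · rintro ⟨⟨h1, h2⟩, h3⟩
    rw [map_smul, LinearMap.smul_apply, smul_eq_mul] at h2
    rw [SS_smul'] at h3
    refine ⟨⟨(mul_eq_zero.1 h2).resolve_left h.eps, h1⟩, ?_⟩
    have h4 := 𝔊.smul_mem ε h3
    rwa [smul_smul, h.ee, one_smul] at h4
  · rintro ⟨⟨h1, h2⟩, h3⟩
    refine ⟨⟨h2, by rw [map_smul, LinearMap.smul_apply, h1, smul_zero]⟩, ?_⟩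
    rw [SS_smul']
    exact 𝔊.smul_mem _ h3

theorem BB_swap (h : Hyp T ε e0 e1) : BB T ε e1 (ε • e0) 𝔊 = AA T ε e0 e1 𝔊 := by
  ext a
  constructor
  · rintro ⟨⟨h1, h2⟩, h3⟩
    rw [map_smul, LinearMap.smul_apply, smul_eq_mul] at h2
    exact ⟨⟨(mul_eq_zero.1 h2).resolve_left h.eps, h1⟩, h3⟩
  · rintro ⟨⟨h1, h2⟩, h3⟩
    exact ⟨⟨h2, by rw [map_smul, LinearMap.smul_apply, h1, smul_zero]⟩, h3⟩

namespace Alg

variable (h : Alg T ε e0 e1 𝔏 𝔊)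
include h

theorem p_eps {X : End ℂ U} (hX : X ∈ 𝔏) : (1 + ε) * T e0 (X e0) = 0 := by
  have q00 := h.skw X hX e0 e0
  rw [h.hyp.sym (X e0) e0] at q00
  linear_combination q00

theorem q_eps {X : End ℂ U} (hX : X ∈ 𝔏) : (1 + ε) * T e1 (X e1) = 0 := by
  have q00 := h.skw X hX e1 e1
  rw [h.hyp.sym (X e1) e1] at q00
  linear_combination q00

/-- The part of degree zero of an element. -/
theorem zero_part {X : End ℂ U} (hX : X ∈ 𝔏) : ∃ X0 ∈ 𝔏,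
    (∃ μ : ℂ, X0 e0 = μ • e0 ∧ X0 e1 = -μ • e1) ∧
      ∀ v, Mdl T e0 e1 v → X v = X0 v - T (pr T ε e0 e1 (X e0)) v • e1 -
        (ε * T (pr T ε e0 e1 (X e1)) v) • e0 := by
  have hh := h.hyp
  have hee := hh.ee
  have hp := h.p_eps hX
  have hq := h.q_eps hX
  have q01 := h.skw X hX e0 e1
  rw [hh.sym (X e0) e1] at q01
  have ma := mdl_pr hh (X e0)
  have mb := mdl_pr hh (X e1)
  obtain ⟨la0, la1⟩ := ma.left hh
  obtain ⟨lb0, lb1⟩ := mb.left hh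
  have da := pr_dec (T := T) (ε := ε) (e0 := e0) (e1 := e1) (X e0)
  have db := pr_dec (T := T) (ε := ε) (e0 := e0) (e1 := e1) (X e1)
  set a := pr T ε e0 e1 (X e0) with ha
  set b := pr T ε e0 e1 (X e1) with hb
  let X1 : End ℂ U := ε • SS T ε e1 a + SS T ε e0 b -
    (2 : ℂ)⁻¹ • (T e0 (X e0) • SS T ε e1 e1) - (2 : ℂ)⁻¹ • (T e1 (X e1) • SS T ε e0 e0)
  have hX1 : X1 ∈ 𝔊 := 𝔊.sub_mem (𝔊.sub_mem (𝔊.add_mem (𝔊.smul_mem _ (h.m1 X hX)) (h.p1 X hX))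
    (𝔊.smul_mem _ (h.m2 X hX))) (𝔊.smul_mem _ (h.p2 X hX))
  have hX1v : ∀ v, X1 v = ε • (T e1 v • a - ε • T a v • e1) + (T e0 v • b - ε • T b v • e0) -
      (2 : ℂ)⁻¹ • (T e0 (X e0) • (T e1 v • e1 - ε • T e1 v • e1)) -
      (2 : ℂ)⁻¹ • (T e1 (X e1) • (T e0 v • e0 - ε • T e0 v • e0)) := fun v => rfl
  refine ⟨X - X1, 𝔏.sub_mem hX (h.le hX1), ⟨ε * T e1 (X e0), ?_, ?_⟩, fun v hv => ?_⟩
  · rw [LinearMap.sub_apply, hX1v, la0, hh.t10, hh.t00]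
    nth_rewrite 1 [da]
    have e1' : T e0 (X e0) • e1 + (ε * T e1 (X e0)) • e0 + a -
        (ε • (ε • a - ε • (0 : ℂ) • e1) + ((0 : ℂ) • b - ε • T b e0 • e0) -
          (2 : ℂ)⁻¹ • T e0 (X e0) • (ε • e1 - ε • ε • e1) -
          (2 : ℂ)⁻¹ • T e1 (X e1) • ((0 : ℂ) • e0 - ε • (0 : ℂ) • e0)) =
        (ε * T e1 (X e0)) • e0 + (1 - ε * ε) • a + (ε * T b e0) • e0 +
          (T e0 (X e0) + (2 : ℂ)⁻¹ * T e0 (X e0) * (ε - ε * ε)) • e1 := by module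
    rw [e1', lb0, hee]
    have e2 : T e0 (X e0) + (2 : ℂ)⁻¹ * T e0 (X e0) * (ε - 1) = 0 := by
      linear_combination (1 / 2 : ℂ) * hp
    rw [e2]
    module
  · rw [LinearMap.sub_apply, hX1v, la1, lb1, hh.t11, hh.t01]
    nth_rewrite 1 [db]
    have q02 : T e0 (X e1) = -(ε * T e1 (X e0)) := by linear_combination q01
    rw [q02]
    have e1' : (-(ε * T e1 (X e0))) • e1 + (ε * T e1 (X e1)) • e0 + b -
        (ε • ((0 : ℂ) • a - ε • (0 : ℂ) • e1) + ((1 : ℂ) • b - ε • (0 : ℂ) • e0) -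
          (2 : ℂ)⁻¹ • T e0 (X e0) • ((0 : ℂ) • e1 - ε • (0 : ℂ) • e1) -
          (2 : ℂ)⁻¹ • T e1 (X e1) • ((1 : ℂ) • e0 - ε • (1 : ℂ) • e0)) =
        (-(ε * T e1 (X e0))) • e1 +
          (ε * T e1 (X e1) + (2 : ℂ)⁻¹ * T e1 (X e1) * (1 - ε)) • e0 := by module
    rw [e1']
    have e2 : ε * T e1 (X e1) + (2 : ℂ)⁻¹ * T e1 (X e1) * (1 - ε) = 0 := by
      linear_combination (1 / 2 : ℂ) * hq
    rw [e2]
    module
  · rw [LinearMap.sub_apply, hX1v, hv.1, hv.2]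
    have e3 : ε • ((0 : ℂ) • a - ε • T a v • e1) + ((0 : ℂ) • b - ε • T b v • e0) -
        (2 : ℂ)⁻¹ • T e0 (X e0) • ((0 : ℂ) • e1 - ε • (0 : ℂ) • e1) -
        (2 : ℂ)⁻¹ • T e1 (X e1) • ((0 : ℂ) • e0 - ε • (0 : ℂ) • e0) =
        -((ε * ε) * T a v) • e1 - (ε * T b v) • e0 := by module
    rw [e3, hee]
    module

theorem mdl_zero {X0 : End ℂ U} (hX0 : X0 ∈ 𝔏) {μ : ℂ} (h0 : X0 e0 = μ • e0)
    (h1 : X0 e1 = -μ • e1) {v : U} (hv : Mdl T e0 e1 v) : Mdl T e0 e1 (X0 v) := by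
  have s0 := h.skw X0 hX0 e0 v
  have s1 := h.skw X0 hX0 e1 v
  rw [h0, map_smul, LinearMap.smul_apply, hv.1, smul_zero, zero_add] at s0
  rw [h1, map_smul, LinearMap.smul_apply, hv.2, smul_zero, zero_add] at s1
  exact ⟨s0, s1⟩

theorem zero_AA {X0 : End ℂ U} (hX0 : X0 ∈ 𝔏) {μ : ℂ} (h0 : X0 e0 = μ • e0)
    (h1 : X0 e1 = -μ • e1) {v : U} (hv : v ∈ AA T ε e0 e1 𝔊) : X0 v ∈ AA T ε e0 e1 𝔊 := by
  refine ⟨h.mdl_zero hX0 h0 h1 hv.1, ?_⟩
  have h2 := h.br X0 hX0 _ hv.2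
  rw [br_SS (h.skw X0 hX0), h1, SS_smul'] at h2
  have h3 := 𝔊.sub_mem h2 (𝔊.smul_mem (-μ) hv.2)
  rwa [add_sub_cancel_right] at h3

/-- The comparison of the two subspaces. -/
theorem BB_le : BB T ε e0 e1 𝔊 ≤ AA T ε e0 e1 𝔊 := by
  intro b hb
  have hh := h.hyp
  have hee := hh.ee
  obtain ⟨lb0, lb1⟩ := hb.1.left hh
  by_cases hiso : ∃ a ∈ AA T ε e0 e1 𝔊, ∃ v ∈ AA T ε e0 e1 𝔊, T a v ≠ 0
  · obtain ⟨a, ha, v, hv, hav⟩ := hiso
    obtain ⟨la0, la1⟩ := ha.1.left hh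
    have hS := h.skw _ (h.le hb.2)
    have h2 := h.br _ (h.le hb.2) _ ha.2
    rw [br_SS hS] at h2
    have e1' : SS T ε e0 b a = -(ε * T b a) • e0 := by
      rw [SS_apply, ha.1.1]
      module
    have e2 : SS T ε e0 b e1 = b := by
      rw [SS_apply, hh.t01, lb1]
      module
    rw [e1', e2, SS_smul] at h2
    have hZ := h.le h2
    have z0 : (-(ε * T b a) • SS T ε e1 e0 + SS T ε b a) e0 = (-(T b a)) • e0 := by
      rw [LinearMap.add_apply, LinearMap.smul_apply, SS_apply, SS_apply, hh.t10, hh.t00, lb0, la0]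
      have e3 : -(ε * T b a) • (ε • e0 - ε • (0 : ℂ) • e1) + ((0 : ℂ) • a - ε • (0 : ℂ) • b) =
          -((ε * ε) * T b a) • e0 := by module
      rw [e3, hee, one_mul]
    have z1 : (-(ε * T b a) • SS T ε e1 e0 + SS T ε b a) e1 = -(-(T b a)) • e1 := by
      rw [LinearMap.add_apply, LinearMap.smul_apply, SS_apply, SS_apply, hh.t11, hh.t01, lb1, la1]
      have e3 : -(ε * T b a) • ((0 : ℂ) • e0 - ε • (1 : ℂ) • e1) +
          ((0 : ℂ) • a - ε • (0 : ℂ) • b) = ((ε * ε) * T b a) • e1 := by module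
      rw [e3, hee, one_mul, neg_neg]
    have h3 := h.zero_AA hZ z0 z1 hv
    have e4 : (-(ε * T b a) • SS T ε e1 e0 + SS T ε b a) v = T b v • a - (ε * T a v) • b := by
      rw [LinearMap.add_apply, LinearMap.smul_apply, SS_apply, SS_apply, hv.1.1, hv.1.2]
      module
    rw [e4] at h3
    have h4 := (AA T ε e0 e1 𝔊).sub_mem ((AA T ε e0 e1 𝔊).smul_mem (T b v) ha) h3
    rw [sub_sub_cancel] at h4
    have h5 := (AA T ε e0 e1 𝔊).smul_mem (ε * T a v)⁻¹ h4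
    rwa [smul_smul, inv_mul_cancel₀ (mul_ne_zero hh.eps hav), one_smul] at h5
  push Not at hiso
  by_cases hp : ∃ X ∈ 𝔏, T e0 (X e0) ≠ 0
  · obtain ⟨X, hX, hX0⟩ := hp
    have h1 := h.p_eps hX
    have hε : ε = -1 := by
      have h2 := (mul_eq_zero.1 h1).resolve_right hX0
      linear_combination h2
    have h2 := 𝔊.smul_mem (T e0 (X e0))⁻¹ (h.m2 X hX)
    rw [smul_smul, inv_mul_cancel₀ hX0, one_smul] at h2
    have h3 := h.br _ (h.le h2) _ hb.2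
    rw [br_SS (h.skw _ (h.le h2))] at h3
    have e1' : SS T ε e1 e1 b = 0 := by
      rw [SS_apply, hb.1.2]
      module
    have e2 : SS T ε e1 e1 e0 = (-2 : ℂ) • e1 := by
      rw [SS_apply, hh.t10, hε]
      module
    rw [e1', e2, SS_zero, zero_add, SS_smul'] at h3
    have h4 := 𝔊.smul_mem (-2 : ℂ)⁻¹ h3
    rw [smul_smul, inv_mul_cancel₀ (by norm_num), one_smul] at h4
    exact ⟨hb.1, h4⟩
  · exfalso
    push Not at hp
    let W : Submodule ℂ U := Submodule.span ℂ {e0} ⊔ AA T ε e0 e1 𝔊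
    have h0W : e0 ∈ W := Submodule.mem_sup_left (Submodule.mem_span_singleton_self _)
    have hst : ∀ X ∈ 𝔏, ∀ u ∈ W, X u ∈ W := by
      intro X hX u hu
      obtain ⟨x, hx, a, ha, rfl⟩ := Submodule.mem_sup.1 hu
      obtain ⟨c, rfl⟩ := Submodule.mem_span_singleton.1 hx
      have hA : pr T ε e0 e1 (X e0) ∈ AA T ε e0 e1 𝔊 := ⟨mdl_pr hh _, h.m1 X hX⟩
      obtain ⟨X0, hX0, ⟨μ, m0, m1⟩, hv⟩ := h.zero_part hX
      have k1 : X e0 ∈ W := by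
        rw [pr_dec (T := T) (ε := ε) (e0 := e0) (e1 := e1) (X e0), hp X hX, zero_smul, zero_add]
        exact W.add_mem (W.smul_mem _ h0W) (Submodule.mem_sup_right hA)
      have k2 : X a ∈ W := by
        rw [hv a ha.1, hiso _ hA a ha, zero_smul, sub_zero]
        exact W.sub_mem (Submodule.mem_sup_right (h.zero_AA hX0 m0 m1 ha)) (W.smul_mem _ h0W)
      rw [map_add, map_smul]
      exact W.add_mem (W.smul_mem _ k1) k2
    rcases h.irr W hst with h1 | h1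
    · rw [h1, Submodule.mem_bot] at h0W
      have h2 := hh.t01
      rw [h0W, map_zero, LinearMap.zero_apply] at h2
      exact zero_ne_one h2
    · have h2 : e1 ∈ W := by
        rw [h1]
        trivial
      obtain ⟨x, hx, a, ha, h3⟩ := Submodule.mem_sup.1 h2
      obtain ⟨c, rfl⟩ := Submodule.mem_span_singleton.1 hx
      have h4 := hh.t01
      rw [← h3, map_add, map_smul, hh.t00, ha.1.1, smul_zero, add_zero] at h4
      exact zero_ne_one h4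

theorem AA_le : AA T ε e0 e1 𝔊 ≤ BB T ε e0 e1 𝔊 := by
  have h1 := h.swap.BB_le
  rwa [AA_swap h.hyp, BB_swap h.hyp] at h1

/-- All operators attached to `e1` and the middle part belong to the ideal. -/
theorem mem_AA {v : U} (hv : Mdl T e0 e1 v) : v ∈ AA T ε e0 e1 𝔊 := by
  have hh := h.hyp
  let W : Submodule ℂ U := Submodule.span ℂ {e0, e1} ⊔ AA T ε e0 e1 𝔊
  have h0W : e0 ∈ W := Submodule.mem_sup_left (Submodule.subset_span (Set.mem_insert _ _))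
  have h1W : e1 ∈ W := Submodule.mem_sup_left (Submodule.subset_span
    (Set.mem_insert_of_mem _ rfl))
  have hst : ∀ X ∈ 𝔏, ∀ u ∈ W, X u ∈ W := by
    intro X hX u hu
    have hA : pr T ε e0 e1 (X e0) ∈ AA T ε e0 e1 𝔊 := ⟨mdl_pr hh _, h.m1 X hX⟩
    have hB : pr T ε e0 e1 (X e1) ∈ AA T ε e0 e1 𝔊 := h.BB_le ⟨mdl_pr hh _, h.p1 X hX⟩
    obtain ⟨X0, hX0, ⟨μ, m0, m1⟩, hv⟩ := h.zero_part hX
    have k0 : X e0 ∈ W := by
      rw [pr_dec (T := T) (ε := ε) (e0 := e0) (e1 := e1) (X e0)]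
      exact W.add_mem (W.add_mem (W.smul_mem _ h1W) (W.smul_mem _ h0W))
        (Submodule.mem_sup_right hA)
    have k1 : X e1 ∈ W := by
      rw [pr_dec (T := T) (ε := ε) (e0 := e0) (e1 := e1) (X e1)]
      exact W.add_mem (W.add_mem (W.smul_mem _ h1W) (W.smul_mem _ h0W))
        (Submodule.mem_sup_right hB)
    obtain ⟨x, hx, a, ha, rfl⟩ := Submodule.mem_sup.1 hu
    obtain ⟨c, d, rfl⟩ := Submodule.mem_span_pair.1 hx
    have k2 : X a ∈ W := by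
      rw [hv a ha.1]
      exact W.sub_mem (W.sub_mem (Submodule.mem_sup_right (h.zero_AA hX0 m0 m1 ha))
        (W.smul_mem _ h1W)) (W.smul_mem _ h0W)
    rw [map_add, map_add, map_smul, map_smul]
    exact W.add_mem (W.add_mem (W.smul_mem _ k0) (W.smul_mem _ k1)) k2
  rcases h.irr W hst with h1 | h1
  · rw [h1, Submodule.mem_bot] at h0W
    have h2 := hh.t01
    rw [h0W, map_zero, LinearMap.zero_apply] at h2
    exact absurd h2 zero_ne_one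
  · have h2 : v ∈ W := by
      rw [h1]
      trivial
    obtain ⟨x, hx, a, ha, h3⟩ := Submodule.mem_sup.1 h2
    obtain ⟨c, d, rfl⟩ := Submodule.mem_span_pair.1 hx
    have h4 := hv.1
    have h5 := hv.2
    rw [← h3, map_add, map_add, map_smul, map_smul, hh.t00, hh.t01, ha.1.1, smul_zero, zero_add,
      add_zero, smul_eq_mul, mul_one] at h4
    rw [← h3, map_add, map_add, map_smul, map_smul, hh.t10, hh.t11, ha.1.2, smul_zero, add_zero,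
      add_zero, smul_eq_mul] at h5
    have h6 : c = 0 := (mul_eq_zero.1 h5).resolve_right hh.eps
    rw [← h3, h4, h6, zero_smul, zero_smul, zero_add, zero_add]
    exact ha

end Alg

end

end Pool.Agent.Helper43y
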