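import Mathlib
import Pool.Agent.Helper43y.Full

/-!
# Irreducible Lie algebras with a grading by a pair of lines are orthogonal or symplectic: theorem
-/

set_option autoImplicit false
set_option linter.unusedSectionVars false
set_option linter.unusedVariables false

namespace Pool.Agent.Helper43y

open Module

noncomputable section

variable {U : Type} [AddCommGroup U] [Module ℂ U] {T : U →ₗ[ℂ] U →ₗ[ℂ] ℂ} {ε : ℂ} {e0 e1 : U}
  {𝔏 𝔊 : Submodule ℂ (End ℂ U)}

namespace Alg

variable (h : Alg T ε e0 e1 𝔏 𝔊)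
include h

theorem mem_BB {v : U} (hv : Mdl T e0 e1 v) : v ∈ BB T ε e0 e1 𝔊 := h.AA_le (h.mem_AA hv)

/-- Brackets of the operators of degree `1` and `-1`. -/
theorem mem_mid {a b : U} (ha : Mdl T e0 e1 a) (hb : Mdl T e0 e1 b) :
    SS T ε b a ∈ 𝔊 ∧ T b a • SS T ε e1 e0 ∈ 𝔊 := by
  have hh := h.hyp
  have hee := hh.ee
  have key : ∀ a b : U, Mdl T e0 e1 a → Mdl T e0 e1 b →
      -(ε * T b a) • SS T ε e1 e0 + SS T ε b a ∈ 𝔊 := by
    intro a b ha hb
    obtain ⟨lb0, lb1⟩ := hb.left hh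
    have h2 := h.br _ (h.le (h.mem_BB hb).2) _ (h.mem_AA ha).2
    rw [br_SS (h.skw _ (h.le (h.mem_BB hb).2))] at h2
    have e1' : SS T ε e0 b a = -(ε * T b a) • e0 := by
      rw [SS_apply, ha.1]
      module
    have e2 : SS T ε e0 b e1 = b := by
      rw [SS_apply, hh.t01, lb1]
      module
    rw [e1', e2, SS_smul] at h2
    exact h2
  have h1 := key a b ha hb
  have h2 := key b a hb ha
  rw [SS_swap hh b a, hh.sym a b, ← mul_assoc, hee, one_mul] at h2
  have h3 := 𝔊.smul_mem ε h2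
  have e1' : ε • (-T b a • SS T ε e1 e0 + -(ε • SS T ε b a)) =
      -(ε * T b a) • SS T ε e1 e0 - (ε * ε) • SS T ε b a := by module
  rw [e1', hee, one_smul] at h3
  constructor
  · have h4 := 𝔊.smul_mem (2 : ℂ)⁻¹ (𝔊.sub_mem h1 h3)
    have e2 : (2 : ℂ)⁻¹ • (-(ε * T b a) • SS T ε e1 e0 + SS T ε b a -
        (-(ε * T b a) • SS T ε e1 e0 - SS T ε b a)) = SS T ε b a := by module
    rwa [e2] at h4
  · have h4 := 𝔊.smul_mem (-(ε / 2)) (𝔊.add_mem h1 h3)
    have e2 : (-(ε / 2)) • (-(ε * T b a) • SS T ε e1 e0 + SS T ε b a +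
        (-(ε * T b a) • SS T ε e1 e0 - SS T ε b a)) =
        ((ε * ε) * T b a) • SS T ε e1 e0 := by module
    rwa [e2, hee, one_mul] at h4

/-- The operators attached to the two lines. -/
theorem mem_ends : SS T ε e1 e0 ∈ 𝔊 ∧ SS T ε e0 e0 ∈ 𝔊 ∧ SS T ε e1 e1 ∈ 𝔊 := by
  have hh := h.hyp
  have hee := hh.ee
  by_cases hM : ∃ v, Mdl T e0 e1 v ∧ v ≠ 0
  · obtain ⟨b, hb, hb0⟩ := hM
    obtain ⟨lb0, lb1⟩ := hb.left hh
    -- a middle vector which is not orthogonal to `b`
    obtain ⟨y, hy⟩ : ∃ y, T b y ≠ 0 := by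
      by_contra hcon
      push Not at hcon
      exact hb0 (hh.nd b hcon)
    have ha := mdl_pr hh y
    have hba : T b (pr T ε e0 e1 y) ≠ 0 := by
      have e1' : T b (pr T ε e0 e1 y) = T b y := by
        unfold pr
        rw [map_sub, map_sub, map_smul, map_smul, map_smul, lb0, lb1, smul_zero, smul_zero,
          smul_zero, sub_zero, sub_zero]
      rw [e1']
      exact hy
    set a := pr T ε e0 e1 y with hadef
    obtain ⟨la0, la1⟩ := ha.left hh
    have hcan : ∀ {Y : End ℂ U}, T b a • Y ∈ 𝔊 → Y ∈ 𝔊 := by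
      intro Y hY
      have h4 := 𝔊.smul_mem (T b a)⁻¹ hY
      rwa [smul_smul, inv_mul_cancel₀ hba, one_smul] at h4
    refine ⟨hcan (h.mem_mid ha hb).2, ?_, ?_⟩
    · have h2 := h.br _ (h.le (h.mem_BB hb).2) _ (h.mem_BB ha).2
      rw [br_SS (h.skw _ (h.le (h.mem_BB hb).2))] at h2
      have e1' : SS T ε e0 b a = -(ε * T b a) • e0 := by
        rw [SS_apply, ha.1]
        module
      have e2 : SS T ε e0 b e0 = 0 := by
        rw [SS_apply, hh.t00, lb0]
        module
      have e3 : SS T ε (0 : U) a = 0 := by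
        have := SS_smul' T ε 0 e0 a
        rwa [zero_smul, zero_smul] at this
      rw [e1', e2, e3, add_zero, SS_smul, ← neg_smul_neg, neg_neg] at h2
      have h3 := 𝔊.smul_mem (-ε) h2
      have e4 : (-ε) • ((ε * T b a) • -SS T ε e0 e0) = (ε * ε) • (T b a • SS T ε e0 e0) := by module
      rw [e4, hee, one_smul] at h3
      exact hcan h3
    · have h2 := h.br _ (h.le (h.mem_AA hb).2) _ (h.mem_AA ha).2
      rw [br_SS (h.skw _ (h.le (h.mem_AA hb).2))] at h2
      have e1' : SS T ε e1 b a = -(ε * T b a) • e1 := by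
        rw [SS_apply, ha.2]
        module
      have e2 : SS T ε e1 b e1 = 0 := by
        rw [SS_apply, hh.t11, lb1]
        module
      have e3 : SS T ε (0 : U) a = 0 := by
        have := SS_smul' T ε 0 e0 a
        rwa [zero_smul, zero_smul] at this
      rw [e1', e2, e3, add_zero, SS_smul, ← neg_smul_neg, neg_neg] at h2
      have h3 := 𝔊.smul_mem (-ε) h2
      have e4 : (-ε) • ((ε * T b a) • -SS T ε e1 e1) = (ε * ε) • (T b a • SS T ε e1 e1) := by module
      rw [e4, hee, one_smul] at h3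
      exact hcan h3
  · push Not at hM
    have hpr : ∀ v, pr T ε e0 e1 v = 0 := fun v => hM _ (mdl_pr hh v)
    -- one of the two lines is not stable
    have hne0 : e0 ≠ 0 := fun h0 => by
      have h1 := hh.t01
      rw [h0, map_zero, LinearMap.zero_apply] at h1
      exact zero_ne_one h1
    have hne1 : e1 ≠ 0 := fun h0 => by
      have h1 := hh.t01
      rw [h0, map_zero] at h1
      exact zero_ne_one h1
    obtain ⟨X, hX, hX0⟩ : ∃ X ∈ 𝔏, T e0 (X e0) ≠ 0 := by
      by_contra hcon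
      push Not at hcon
      rcases h.irr (Submodule.span ℂ {e0}) (fun X hX u hu => by
        obtain ⟨c, rfl⟩ := Submodule.mem_span_singleton.1 hu
        rw [map_smul, pr_dec (T := T) (ε := ε) (e0 := e0) (e1 := e1) (X e0), hcon X hX, hpr,
          zero_smul, zero_add, add_zero]
        exact Submodule.smul_mem _ _ (Submodule.smul_mem _ _
          (Submodule.mem_span_singleton_self _))) with h1 | h1
      · rw [Submodule.span_singleton_eq_bot] at h1
        exact hne0 h1
      · have h2 : e1 ∈ Submodule.span ℂ {e0} := by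
          rw [h1]
          trivial
        obtain ⟨c, hc⟩ := Submodule.mem_span_singleton.1 h2
        have h3 := hh.t01
        rw [← hc, map_smul, hh.t00, smul_zero] at h3
        exact zero_ne_one h3
    obtain ⟨X', hX', hX0'⟩ : ∃ X ∈ 𝔏, T e1 (X e1) ≠ 0 := by
      by_contra hcon
      push Not at hcon
      rcases h.irr (Submodule.span ℂ {e1}) (fun X hX u hu => by
        obtain ⟨c, rfl⟩ := Submodule.mem_span_singleton.1 hu
        rw [map_smul, pr_dec (T := T) (ε := ε) (e0 := e0) (e1 := e1) (X e1), hcon X hX, hpr,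
          mul_zero, zero_smul, add_zero, add_zero]
        exact Submodule.smul_mem _ _ (Submodule.smul_mem _ _
          (Submodule.mem_span_singleton_self _))) with h1 | h1
      · rw [Submodule.span_singleton_eq_bot] at h1
        exact hne1 h1
      · have h2 : e0 ∈ Submodule.span ℂ {e1} := by
          rw [h1]
          trivial
        obtain ⟨c, hc⟩ := Submodule.mem_span_singleton.1 h2
        have h3 := hh.t01
        rw [← hc, map_smul, LinearMap.smul_apply, hh.t11, smul_zero] at h3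
        exact zero_ne_one h3
    have hε : ε = -1 := by
      have h2 := (mul_eq_zero.1 (h.p_eps hX)).resolve_right hX0
      linear_combination h2
    have g1 : SS T ε e1 e1 ∈ 𝔊 := by
      have h2 := 𝔊.smul_mem (T e0 (X e0))⁻¹ (h.m2 X hX)
      rwa [smul_smul, inv_mul_cancel₀ hX0, one_smul] at h2
    have g0 : SS T ε e0 e0 ∈ 𝔊 := by
      have h2 := 𝔊.smul_mem (T e1 (X' e1))⁻¹ (h.p2 X' hX')
      rwa [smul_smul, inv_mul_cancel₀ hX0', one_smul] at h2
    refine ⟨?_, g0, g1⟩
    have h2 := h.br _ (h.le g0) _ g1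
    rw [br_SS (h.skw _ (h.le g0))] at h2
    have e1' : SS T ε e0 e0 e1 = (2 : ℂ) • e0 := by
      rw [SS_apply, hh.t01, hε]
      module
    rw [e1', SS_smul, SS_smul', SS_swap hh e1 e0, hε] at h2
    have h3 := 𝔊.smul_mem (4 : ℂ)⁻¹ h2
    have e4 : (4 : ℂ)⁻¹ • ((2 : ℂ) • SS T (-1) e1 e0 + (2 : ℂ) • -((-1 : ℂ) • SS T (-1) e1 e0)) =
        SS T (-1) e1 e0 := by module
    rw [e4] at h3
    rw [hε]
    exact h3

/-- All operators `SS` belong to the ideal. -/
theorem mem_SS (x y : U) : SS T ε x y ∈ 𝔊 := by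
  have hh := h.hyp
  obtain ⟨g10, g00, g11⟩ := h.mem_ends
  have g01 : SS T ε e0 e1 ∈ 𝔊 := by
    rw [SS_swap hh e1 e0]
    exact 𝔊.neg_mem (𝔊.smul_mem _ g10)
  have hsw : ∀ x y, SS T ε x y ∈ 𝔊 → SS T ε y x ∈ 𝔊 := fun x y hxy => by
    rw [SS_swap hh x y]
    exact 𝔊.neg_mem (𝔊.smul_mem _ hxy)
  rw [pr_dec (T := T) (ε := ε) (e0 := e0) (e1 := e1) x,
    pr_dec (T := T) (ε := ε) (e0 := e0) (e1 := e1) y]
  have mx := mdl_pr hh x
  have my := mdl_pr hh y
  simp only [SS_add, SS_add', SS_smul, SS_smul']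
  refine 𝔊.add_mem (𝔊.add_mem ?_ ?_) ?_
  · refine 𝔊.smul_mem _ (𝔊.add_mem (𝔊.add_mem (𝔊.smul_mem _ g11) (𝔊.smul_mem _ g01)) ?_)
    exact hsw _ _ (h.mem_AA mx).2
  · refine 𝔊.smul_mem _ (𝔊.add_mem (𝔊.add_mem (𝔊.smul_mem _ g10) (𝔊.smul_mem _ g00)) ?_)
    exact hsw _ _ (h.mem_BB mx).2
  · refine 𝔊.add_mem (𝔊.add_mem (𝔊.smul_mem _ (h.mem_AA my).2) (𝔊.smul_mem _ (h.mem_BB my).2)) ?_
    exact (h.mem_mid my mx).1

/-- **All skew operators belong to the ideal.** -/
theorem all [FiniteDimensional ℂ U] {Y : End ℂ U} (hY : Skw T Y) : Y ∈ 𝔊 := by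
  classical
  have hh := h.hyp
  have hinj : Function.Injective T := by
    rw [← LinearMap.ker_eq_bot, eq_bot_iff]
    intro x hx
    rw [LinearMap.mem_ker] at hx
    rw [Submodule.mem_bot]
    exact hh.nd x fun y => by rw [hx, LinearMap.zero_apply]
  let e : U ≃ₗ[ℂ] Dual ℂ U := LinearEquiv.ofInjectiveOfFinrankEq T hinj
    Subspace.dual_finrank_eq.symm
  have he : ∀ v, e v = T v := fun v => rfl
  let w := Module.finBasis ℂ U
  let d : Fin (finrank ℂ U) → U := fun j => e.symm (w.coord j)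
  have hd : ∀ j v, T (d j) v = w.repr v j := by
    intro j v
    rw [← he, e.apply_symm_apply]
    rfl
  have h1 : Y = (2 : ℂ)⁻¹ • ∑ j, SS T ε (d j) (Y (w j)) := by
    refine LinearMap.ext fun v => ?_
    rw [LinearMap.smul_apply, LinearMap.sum_apply]
    have h2 : ∀ j, SS T ε (d j) (Y (w j)) v =
        w.repr v j • Y (w j) + (ε * T (w j) (Y v)) • d j := by
      intro j
      have h3 : T (Y (w j)) v = -T (w j) (Y v) := by linear_combination hY (w j) v
      rw [SS_apply, hd, h3]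
      module
    rw [Finset.sum_congr rfl fun j _ => h2 j, Finset.sum_add_distrib]
    have h4 : ∑ j, w.repr v j • Y (w j) = Y v := by
      conv_rhs => rw [← w.sum_repr v]
      rw [map_sum]
      exact Finset.sum_congr rfl fun j _ => by rw [map_smul]
    have h5 : ∑ j, (ε * T (w j) (Y v)) • d j = Y v := by
      apply hinj
      refine LinearMap.ext fun z => ?_
      rw [map_sum, LinearMap.sum_apply]
      have h6 : ∀ j, T ((ε * T (w j) (Y v)) • d j) z = w.repr z j * (ε * T (w j) (Y v)) := by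
        intro j
        rw [map_smul, LinearMap.smul_apply, hd, smul_eq_mul, mul_comm]
      rw [Finset.sum_congr rfl fun j _ => h6 j]
      have h7 : T (Y v) z = ε * T z (Y v) := hh.sym _ _
      rw [h7]
      conv_rhs => rw [← w.sum_repr z]
      rw [map_sum, LinearMap.sum_apply, Finset.mul_sum]
      refine Finset.sum_congr rfl fun j _ => ?_
      rw [map_smul, LinearMap.smul_apply, smul_eq_mul]
      ring
    rw [h4, h5]
    module
  rw [h1]
  exact 𝔊.smul_mem _ (𝔊.sum_mem fun j _ => h.mem_SS _ _)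

end Alg

end

end Pool.Agent.Helper43y
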