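import Mathlib

/-!
# Irreducible symplectic Lie algebras with a grading by a pair of lines

Let `𝔤` be an irreducible Lie algebra of endomorphisms of a vector space with an invariant
alternating form which is stable under the grading given by two elements of a basis, of degrees `1`
and `-1`; the other elements of the basis have degree `0`. Then `𝔤` contains an element of rank one.
-/

set_option autoImplicit false

namespace Pool.Agent.Helper43y

open Module

noncomputable section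

variable {V : Type} [AddCommGroup V] [Module ℂ V] {n : ℕ}

/-- Components of an endomorphism with respect to a grading `h` of a basis `w`. -/
def cmp (w : Basis (Fin n) ℂ V) (h : Fin n → ℤ) (F : ℤ → ℂ) (X : End ℂ V) : End ℂ V :=
  w.constr ℂ fun j => ∑ i, (F (h i - h j) * w.repr (X (w j)) i) • w i

theorem cmp_repr (w : Basis (Fin n) ℂ V) (h : Fin n → ℤ) (F : ℤ → ℂ) (X : End ℂ V)
    (i j : Fin n) : w.repr (cmp w h F X (w j)) i = F (h i - h j) * w.repr (X (w j)) i := by
  unfold cmp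
  rw [Basis.constr_basis, map_sum, Finsupp.finsetSum_apply]
  rw [Finset.sum_eq_single i]
  · rw [map_smul, Finsupp.smul_apply, w.repr_self, Finsupp.single_eq_same, smul_eq_mul, mul_one]
  · intro k _ hk
    rw [map_smul, Finsupp.smul_apply, w.repr_self, Finsupp.single_eq_of_ne hk.symm, smul_zero]
  · intro hi
    exact absurd (Finset.mem_univ i) hi

/-- Endomorphisms with the same matrix are equal. -/
theorem ext_repr (w : Basis (Fin n) ℂ V) {X Y : End ℂ V}
    (hXY : ∀ i j, w.repr (X (w j)) i = w.repr (Y (w j)) i) : X = Y := by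
  refine w.ext fun j => w.repr.injective ?_
  ext i
  exact hXY i j

/-- The coordinates of the image of a vector. -/
theorem repr_apply (w : Basis (Fin n) ℂ V) (X : End ℂ V) (v : V) (i : Fin n) :
    w.repr (X v) i = ∑ j, w.repr v j * w.repr (X (w j)) i := by
  conv_lhs => rw [← w.sum_repr v]
  rw [map_sum, map_sum, Finsupp.finsetSum_apply]
  refine Finset.sum_congr rfl fun j _ => ?_
  rw [map_smul, map_smul, Finsupp.smul_apply, smul_eq_mul]

/-- A vector with just one coordinate. -/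
theorem eq_smul_of_repr (w : Basis (Fin n) ℂ V) {v : V} {i : Fin n}
    (hv : ∀ j, j ≠ i → w.repr v j = 0) : v = w.repr v i • w i := by
  conv_lhs => rw [← w.sum_repr v]
  rw [Finset.sum_eq_single i]
  · intro j _ hj
    rw [hv j hj, zero_smul]
  · intro hi
    exact absurd (Finset.mem_univ i) hi

/-- Homogeneous endomorphisms. -/
def Dg (w : Basis (Fin n) ℂ V) (h : Fin n → ℤ) (d : ℤ) (X : End ℂ V) : Prop :=
  ∀ i j, h i - h j ≠ d → w.repr (X (w j)) i = 0

theorem Dg.mul {w : Basis (Fin n) ℂ V} {h : Fin n → ℤ} {d e : ℤ} {X Y : End ℂ V}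
    (hX : Dg w h d X) (hY : Dg w h e Y) : Dg w h (d + e) (X * Y) := by
  intro i j hij
  rw [Module.End.mul_apply, repr_apply]
  refine Finset.sum_eq_zero fun k _ => ?_
  by_cases h1 : h k - h j = e
  · rw [hX i k (fun h2 => hij (by rw [← h1, ← h2]; ring)), mul_zero]
  · rw [hY k j h1, zero_mul]

theorem Dg.sub {w : Basis (Fin n) ℂ V} {h : Fin n → ℤ} {d : ℤ} {X Y : End ℂ V}
    (hX : Dg w h d X) (hY : Dg w h d Y) : Dg w h d (X - Y) := by
  intro i j hij
  rw [LinearMap.sub_apply, map_sub, Finsupp.sub_apply, hX i j hij, hY i j hij, sub_zero]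

theorem Dg.add {w : Basis (Fin n) ℂ V} {h : Fin n → ℤ} {d : ℤ} {X Y : End ℂ V}
    (hX : Dg w h d X) (hY : Dg w h d Y) : Dg w h d (X + Y) := by
  intro i j hij
  rw [LinearMap.add_apply, map_add, Finsupp.add_apply, hX i j hij, hY i j hij, add_zero]

theorem Dg.smul {w : Basis (Fin n) ℂ V} {h : Fin n → ℤ} {d : ℤ} {X : End ℂ V} (c : ℂ)
    (hX : Dg w h d X) : Dg w h d (c • X) := by
  intro i j hij
  rw [LinearMap.smul_apply, map_smul, Finsupp.smul_apply, hX i j hij, smul_zero]

theorem Dg.zero {w : Basis (Fin n) ℂ V} {h : Fin n → ℤ} {d : ℤ} : Dg w h d 0 := by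
  intro i j _
  rw [LinearMap.zero_apply, map_zero, Finsupp.zero_apply]

theorem dg_cmp (w : Basis (Fin n) ℂ V) (h : Fin n → ℤ) (d : ℤ) (X : End ℂ V) :
    Dg w h d (cmp w h (fun k => if k = d then 1 else 0) X) := by
  intro i j hij
  rw [cmp_repr, if_neg hij, zero_mul]

/-- The grading given by a pair. -/
def hp (i0 i1 : Fin n) (i : Fin n) : ℤ := if i = i0 then 1 else if i = i1 then -1 else 0

theorem hp0 (i0 i1 : Fin n) : hp i0 i1 i0 = 1 := if_pos rfl

theorem hp1 {i0 i1 : Fin n} (hne : i0 ≠ i1) : hp i0 i1 i1 = -1 := by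
  unfold hp
  rw [if_neg hne.symm, if_pos rfl]

theorem hp_else {i0 i1 i : Fin n} (h0 : i ≠ i0) (h1 : i ≠ i1) : hp i0 i1 i = 0 := by
  unfold hp
  rw [if_neg h0, if_neg h1]

theorem hp_cases (i0 i1 i : Fin n) : (i = i0 ∧ hp i0 i1 i = 1) ∨ (i = i1 ∧ hp i0 i1 i = -1) ∨
    (i ≠ i0 ∧ i ≠ i1 ∧ hp i0 i1 i = 0) := by
  by_cases h0 : i = i0
  · left
    exact ⟨h0, by rw [h0, hp0]⟩
  by_cases h1 : i = i1
  · right
    left
    refine ⟨h1, ?_⟩
    unfold hp
    rw [if_neg h0, if_pos h1]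
  · right
    right
    exact ⟨h0, h1, hp_else h0 h1⟩

variable [FiniteDimensional ℂ V]

/-- The rank of an endomorphism with just one nonzero entry. -/
theorem rank_entry (w : Basis (Fin n) ℂ V) {X : End ℂ V} {p q : Fin n}
    (h0 : ∀ i j, ¬(i = p ∧ j = q) → w.repr (X (w j)) i = 0) (h1 : w.repr (X (w q)) p ≠ 0) :
    finrank ℂ (LinearMap.range X) = 1 := by
  have h2 : LinearMap.range X = Submodule.span ℂ {w p} := by
    apply le_antisymm
    · rintro _ ⟨v, rfl⟩
      have h3 := eq_smul_of_repr w (v := X v) (i := p) (fun j hj => by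
        rw [repr_apply]
        refine Finset.sum_eq_zero fun k _ => ?_
        rw [h0 j k (fun h => hj h.1), mul_zero])
      rw [h3]
      exact Submodule.smul_mem _ _ (Submodule.mem_span_singleton_self _)
    · rw [Submodule.span_singleton_le_iff_mem]
      have h3 := eq_smul_of_repr w (v := X (w q)) (i := p) (fun j hj => h0 j q (fun h => hj h.1))
      refine ⟨(w.repr (X (w q)) p)⁻¹ • w q, ?_⟩
      rw [map_smul]
      nth_rewrite 2 [h3]
      rw [smul_smul, inv_mul_cancel₀ h1, one_smul]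
  rw [h2]
  exact finrank_span_singleton (w.ne_zero p)

section form

variable {𝔤 : Submodule ℂ (End ℂ V)}

/-- Nondegeneracy of an invariant form. -/
theorem form_nd (hirr : ∀ W : Submodule ℂ V, (∀ X ∈ 𝔤, ∀ u ∈ W, X u ∈ W) → W = ⊥ ∨ W = ⊤)
    {T : V →ₗ[ℂ] V →ₗ[ℂ] ℂ} (hT0 : T ≠ 0) (hsk : ∀ X ∈ 𝔤, ∀ x y, T (X x) y + T x (X y) = 0) :
    Function.Injective T := by
  rw [← LinearMap.ker_eq_bot]
  rcases hirr (LinearMap.ker T) (fun X hX u hu => by
    rw [LinearMap.mem_ker] at hu ⊢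
    refine LinearMap.ext fun y => ?_
    have h1 := hsk X hX u y
    rw [hu, LinearMap.zero_apply, add_zero] at h1
    rw [h1, LinearMap.zero_apply]) with h1 | h1
  · exact h1
  · exact absurd (LinearMap.ker_eq_top.1 h1) hT0

/-- Invariant forms are proportional. -/
theorem form_unique [Nontrivial V]
    (hirr : ∀ W : Submodule ℂ V, (∀ X ∈ 𝔤, ∀ u ∈ W, X u ∈ W) → W = ⊥ ∨ W = ⊤)
    {T T' : V →ₗ[ℂ] V →ₗ[ℂ] ℂ} (hT0 : T ≠ 0) (hsk : ∀ X ∈ 𝔤, ∀ x y, T (X x) y + T x (X y) = 0)
    (hsk' : ∀ X ∈ 𝔤, ∀ x y, T' (X x) y + T' x (X y) = 0) : ∃ c : ℂ, T' = c • T := by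
  have hinj := form_nd hirr hT0 hsk
  have hfr : finrank ℂ V = finrank ℂ (Dual ℂ V) := Subspace.dual_finrank_eq.symm
  let e : V ≃ₗ[ℂ] Dual ℂ V := LinearEquiv.ofInjectiveOfFinrankEq T hinj hfr
  have he : ∀ v, e v = T v := fun v => rfl
  let φ : End ℂ V := e.symm.toLinearMap ∘ₗ T'
  have hφ : ∀ v, T (φ v) = T' v := fun v => by
    rw [← he]
    exact e.apply_symm_apply _
  have hcomm : ∀ X ∈ 𝔤, ∀ v, φ (X v) = X (φ v) := by
    intro X hX v
    apply hinj
    refine LinearMap.ext fun y => ?_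
    rw [hφ]
    have h1 := hsk' X hX v y
    have h2 := hsk X hX (φ v) y
    rw [hφ] at h2
    linear_combination h1 - h2
  obtain ⟨z, hz⟩ := Module.End.exists_eigenvalue φ
  refine ⟨z, ?_⟩
  rcases hirr (φ.eigenspace z) (fun X hX u hu => by
    rw [Module.End.mem_eigenspace_iff] at hu ⊢
    rw [hcomm X hX, hu, map_smul]) with h1 | h1
  · exact absurd h1 hz
  · refine LinearMap.ext fun v => ?_
    have h2 : v ∈ φ.eigenspace z := by
      rw [h1]
      trivial
    rw [Module.End.mem_eigenspace_iff] at h2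
    rw [← hφ, h2, map_smul, LinearMap.smul_apply]

/-- The two lines of the pair are not orthogonal. -/
theorem pair_ne (hirr : ∀ W : Submodule ℂ V, (∀ X ∈ 𝔤, ∀ u ∈ W, X u ∈ W) → W = ⊥ ∨ W = ⊤)
    {T : V →ₗ[ℂ] V →ₗ[ℂ] ℂ} (hT0 : T ≠ 0) (hsk : ∀ X ∈ 𝔤, ∀ x y, T (X x) y + T x (X y) = 0)
    (w : Basis (Fin n) ℂ V) {i0 i1 : Fin n} (hne : i0 ≠ i1)
    (hgr : ∀ F : ℤ → ℂ, ∀ X ∈ 𝔤, cmp w (hp i0 i1) F X ∈ 𝔤) : T (w i0) (w i1) ≠ 0 := by
  have hnt : Nontrivial V := ⟨⟨w i0, 0, w.ne_zero i0⟩⟩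
  set h := hp i0 i1 with hh
  -- the grading operator
  let H : End ℂ V := w.constr ℂ fun i => (h i : ℂ) • w i
  have hH : ∀ i, H (w i) = (h i : ℂ) • w i := fun i => w.constr_basis ℂ _ i
  have hHr : ∀ v i, w.repr (H v) i = (h i : ℂ) * w.repr v i := by
    intro v i
    rw [repr_apply, Finset.sum_eq_single i]
    · rw [hH, map_smul, Finsupp.smul_apply, w.repr_self, Finsupp.single_eq_same, smul_eq_mul,
        mul_one, mul_comm]
    · intro j _ hj
      rw [hH, map_smul, Finsupp.smul_apply, w.repr_self, Finsupp.single_eq_of_ne hj.symm,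
        smul_zero, mul_zero]
    · intro hi
      exact absurd (Finset.mem_univ i) hi
  have hbr : ∀ X ∈ 𝔤, H * X - X * H ∈ 𝔤 := by
    intro X hX
    have h1 : H * X - X * H = cmp w h (fun k => (k : ℂ)) X := by
      refine ext_repr w fun i j => ?_
      rw [cmp_repr, LinearMap.sub_apply, map_sub, Finsupp.sub_apply, Module.End.mul_apply,
        Module.End.mul_apply, hHr, hH, map_smul, map_smul, Finsupp.smul_apply, smul_eq_mul]
      push_cast
      ring
    rw [h1]
    exact hgr _ X hX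
  obtain ⟨c, hc⟩ := form_unique (T' := T.compl₁₂ H LinearMap.id + T.compl₁₂ LinearMap.id H)
    hirr hT0 hsk (fun X hX x y => by
      simp only [LinearMap.add_apply, LinearMap.compl₁₂_apply, LinearMap.id_coe, id_eq]
      have h1 := hsk X hX (H x) y
      have h2 := hsk X hX x (H y)
      have h3 := hsk _ (hbr X hX) x y
      rw [LinearMap.sub_apply, LinearMap.sub_apply, Module.End.mul_apply, Module.End.mul_apply,
        Module.End.mul_apply, Module.End.mul_apply, map_sub, map_sub, LinearMap.sub_apply] at h3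
      linear_combination h1 + h2 + h3)
  have key : ∀ i j, T (w i) (w j) ≠ 0 → c = (h i : ℂ) + h j := by
    intro i j hij
    have h1 := LinearMap.congr_fun (LinearMap.congr_fun hc (w i)) (w j)
    simp only [LinearMap.add_apply, LinearMap.compl₁₂_apply, LinearMap.id_coe, id_eq,
      LinearMap.smul_apply, hH, map_smul, smul_eq_mul] at h1
    have h2 : (c - ((h i : ℂ) + h j)) * T (w i) (w j) = 0 := by linear_combination -h1
    exact sub_eq_zero.1 ((mul_eq_zero.1 h2).resolve_right hij)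
  have hinj := form_nd hirr hT0 hsk
  have hex : ∀ i, ∃ j, T (w i) (w j) ≠ 0 := by
    intro i
    by_contra hcon
    push Not at hcon
    apply w.ne_zero i
    apply hinj
    rw [map_zero]
    exact w.ext fun j => by rw [hcon j, LinearMap.zero_apply]
  obtain ⟨j, hj⟩ := hex i0
  obtain ⟨k, hk⟩ := hex i1
  have h1 := key i0 j hj
  have h2 := key i1 k hk
  rw [h1] at h2
  have h3 : (h i0 : ℤ) + h j = h i1 + h k := by exact_mod_cast h2
  rw [hh, hp0, hp1 hne] at h3
  rcases hp_cases i0 i1 j with ⟨e1, e2⟩ | ⟨e1, e2⟩ | ⟨e1, e1', e2⟩ <;>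
    rcases hp_cases i0 i1 k with ⟨f1, f2⟩ | ⟨f1, f2⟩ | ⟨f1, f1', f2⟩ <;>
      rw [e2, f2] at h3 <;> norm_num at h3
  rw [e1] at hj
  exact hj

end form

end

end Pool.Agent.Helper43y
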