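import Mathlib
import Pool.Agent.Helper43y.Full2
import Pool.Agent.Helper43y.Pair

/-!
# Blocks with an isolated pair of eigenvalues
-/

set_option autoImplicit false
set_option linter.unusedSectionVars false
set_option linter.unusedVariables false

namespace Pool.Agent.Helper43y

open Module

noncomputable section

variable {H : Type} [AddCommGroup H] [Module ℂ H]

/-- A block: a projector and a form which lives on its image. -/
structure Blk (P : End ℂ H) (B : H →ₗ[ℂ] H →ₗ[ℂ] ℂ) (ε : ℂ) : Prop where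
  idem : ∀ x, P (P x) = P x
  left : ∀ x y, B (P x) y = B x y
  sym : ∀ x y, B x y = ε * B y x
  nd : ∀ x, (∀ y, B x y = 0) → P x = 0
  ee : ε * ε = 1

variable {P : End ℂ H} {B : H →ₗ[ℂ] H →ₗ[ℂ] ℂ} {ε : ℂ}

theorem Blk.right (h : Blk P B ε) (x y : H) : B x (P y) = B x y := by
  rw [h.sym x (P y), h.left, ← h.sym]

/-- Homogeneity of the form. -/
theorem Blk.hom (h : Blk P B ε) {n : ℕ} (w : Basis (Fin n) ℂ H) {γ : End ℂ H}
    (α : Fin n → ℂˣ) (hw : ∀ i, γ (w i) = (α i : ℂ) • w i) {c : ℂˣ}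
    (hγ : ∀ x y, B (γ x) (γ y) = (c : ℂ) * B x y) {i0 i1 : Fin n} (hne : i0 ≠ i1)
    (h0 : P (w i0) = w i0) (h1 : P (w i1) = w i1)
    (hC : ∀ i j k l, α i * α j = α k * α l → hp i0 i1 i + hp i0 i1 j = hp i0 i1 k + hp i0 i1 l)
    (j k : Fin n) (hjk : B (w j) (w k) ≠ 0) : hp i0 i1 j + hp i0 i1 k = 0 := by
  have key : ∀ j k, B (w j) (w k) ≠ 0 → α j * α k = c := by
    intro j k hjk
    have h2 := hγ (w j) (w k)
    rw [hw, hw, map_smul, map_smul, LinearMap.smul_apply, smul_eq_mul, smul_eq_mul,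
      ← mul_assoc] at h2
    have h3 := mul_right_cancel₀ hjk h2
    apply Units.ext
    rw [Units.val_mul, mul_comm]
    exact h3
  have hex : ∀ i, P (w i) = w i → ∃ j, B (w i) (w j) ≠ 0 := by
    intro i hi
    by_contra hcon
    push Not at hcon
    have h2 := h.nd (w i) fun y => by
      have h3 : B (w i) = 0 := w.ext fun j => by rw [hcon j, LinearMap.zero_apply]
      rw [h3, LinearMap.zero_apply]
    rw [hi] at h2
    exact w.ne_zero i h2
  obtain ⟨a, ha⟩ := hex i0 h0
  obtain ⟨b, hb⟩ := hex i1 h1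
  have e1 := hC j k i0 a (by rw [key j k hjk, key i0 a ha])
  have e2 := hC i0 a i1 b (by rw [key i0 a ha, key i1 b hb])
  rw [hp0, hp1 hne] at e2
  rw [hp0] at e1
  rcases hp_cases i0 i1 a with ⟨-, f2⟩ | ⟨-, f2⟩ | ⟨-, -, f2⟩ <;>
    rcases hp_cases i0 i1 b with ⟨-, g2⟩ | ⟨-, g2⟩ | ⟨-, -, g2⟩ <;>
      rw [f2] at e1 e2 <;> rw [g2] at e2 <;> norm_num at e2
  rw [e1]
  norm_num

variable {n : ℕ} {w : Basis (Fin n) ℂ H} {i0 i1 : Fin n}

/-- The components of degree `-1` and `-2`. -/
theorem Blk.comps (h : Blk P B ε) (hne : i0 ≠ i1) (h0 : P (w i0) = w i0) (h1 : P (w i1) = w i1)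
    (hbl : ∀ j, P (w j) = w j ∨ P (w j) = 0)
    (hhom : ∀ j k, B (w j) (w k) ≠ 0 → hp i0 i1 j + hp i0 i1 k = 0) {e1 : H} {t : ℂ}
    (he1 : e1 = t • w i1) (h01 : B (w i0) e1 = 1) {X : End ℂ H} (hX : Skw B X)
    (hXP : ∀ x, X (P x) = P (X x)) (hm : Skw B (cmp w (hp i0 i1) (fun k => if k = -1 then 1 else 0) X)) :
    SS B ε e1 (X (w i0) - B (w i0) (X (w i0)) • e1 - ε • B e1 (X (w i0)) • w i0) =
        ε • cmp w (hp i0 i1) (fun k => if k = -1 then 1 else 0) X ∧
      B (w i0) (X (w i0)) • SS B ε e1 e1 =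
        (-2 : ℂ) • cmp w (hp i0 i1) (fun k => if k = -2 then 1 else 0) X := by
  have hee := h.ee
  -- the form on the basis
  have b0 : ∀ j, j ≠ i1 → B (w i0) (w j) = 0 := by
    intro j hj
    by_contra hcon
    have h2 := hhom i0 j hcon
    rw [hp0] at h2
    rcases hp_cases i0 i1 j with ⟨f1, f2⟩ | ⟨f1, f2⟩ | ⟨f1, f1', f2⟩
    · rw [f2] at h2
      norm_num at h2
    · exact hj f1
    · rw [f2] at h2
      norm_num at h2
  have b1 : ∀ j, j ≠ i0 → B (w i1) (w j) = 0 := by
    intro j hj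
    by_contra hcon
    have h2 := hhom i1 j hcon
    rw [hp1 hne] at h2
    rcases hp_cases i0 i1 j with ⟨f1, f2⟩ | ⟨f1, f2⟩ | ⟨f1, f1', f2⟩
    · exact hj f1
    · rw [f2] at h2
      norm_num at h2
    · rw [f2] at h2
      norm_num at h2
  have b1' : ∀ j, j ≠ i0 → B e1 (w j) = 0 := by
    intro j hj
    rw [he1, map_smul, LinearMap.smul_apply, b1 j hj, smul_zero]
  have b10 : B e1 (w i0) = ε := by rw [h.sym, h01, mul_one]
  have ht : t ≠ 0 := fun h2 => by
    rw [he1, h2, zero_smul, map_zero] at h01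
    exact zero_ne_one h01
  have bt : B (w i0) (w i1) = t⁻¹ := by
    rw [he1, map_smul, smul_eq_mul] at h01
    exact eq_inv_of_mul_eq_one_right h01
  have bt' : B (w i1) (w i0) = ε * t⁻¹ := by rw [h.sym, bt]
  have expand : ∀ (f : H →ₗ[ℂ] ℂ) (v : H), f v = ∑ j, w.repr v j * f (w j) := by
    intro f v
    conv_lhs => rw [← w.sum_repr v]
    rw [map_sum]
    exact Finset.sum_congr rfl fun j _ => by rw [map_smul, smul_eq_mul]
  have c0 : ∀ v, B (w i0) v = w.repr v i1 * t⁻¹ := by
    intro v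
    rw [expand (B (w i0)) v, Finset.sum_eq_single i1]
    · rw [bt]
    · intro j _ hj
      rw [b0 j hj, mul_zero]
    · intro hi
      exact absurd (Finset.mem_univ _) hi
  have c1 : ∀ v, B e1 v = ε * w.repr v i0 := by
    intro v
    rw [expand (B e1) v, Finset.sum_eq_single i0]
    · rw [b10, mul_comm]
    · intro j _ hj
      rw [b1' j hj, mul_zero]
    · intro hi
      exact absurd (Finset.mem_univ _) hi
  set a := X (w i0) - B (w i0) (X (w i0)) • e1 - ε • B e1 (X (w i0)) • w i0 with ha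
  have ea : a = X (w i0) - w.repr (X (w i0)) i1 • w i1 - w.repr (X (w i0)) i0 • w i0 := by
    rw [ha, c0, c1, he1, smul_smul, mul_assoc, inv_mul_cancel₀ ht, mul_one, smul_smul, ← mul_assoc,
      hee, one_mul]
  have era : ∀ j, w.repr a j = if j = i0 ∨ j = i1 then 0 else w.repr (X (w i0)) j := by
    intro j
    rw [ea]
    simp only [map_sub, map_smul, Finsupp.sub_apply, Finsupp.smul_apply, w.repr_self, smul_eq_mul]
    by_cases j0 : j = i0
    · rw [if_pos (Or.inl j0), j0, Finsupp.single_eq_same, Finsupp.single_eq_of_ne hne]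
      ring
    by_cases j1 : j = i1
    · rw [if_pos (Or.inr j1), j1, Finsupp.single_eq_same, Finsupp.single_eq_of_ne hne.symm]
      ring
    · rw [if_neg (by tauto), Finsupp.single_eq_of_ne j0, Finsupp.single_eq_of_ne j1]
      ring
  -- entries outside of the block
  have hout : ∀ j i, P (w j) = 0 → P (w i) = w i → w.repr (X (w j)) i = 0 := by
    intro j i hj hi
    have h2 : P (X (w j)) = 0 := by rw [← hXP, hj, map_zero]
    -- `P` is diagonal
    have h3 : ∀ v, w.repr (P v) i = w.repr v i := by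
      intro v
      have h4 : (w.coord i).comp P = w.coord i := by
        refine w.ext fun k => ?_
        rw [LinearMap.comp_apply]
        rcases hbl k with h5 | h5
        · rw [h5]
        · rw [h5, map_zero, Basis.coord_apply, w.repr_self, Finsupp.single_eq_of_ne]
          rintro rfl
          rw [h5] at hi
          exact w.ne_zero _ hi.symm
      exact LinearMap.congr_fun h4 v
    rw [← h3, h2, map_zero, Finsupp.zero_apply]
  have hBout : ∀ j, P (w j) = 0 → ∀ y, B y (w j) = 0 := by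
    intro j hj y
    rw [← h.right, hj, map_zero]
  constructor
  · set X1 := cmp w (hp i0 i1) (fun k => if k = -1 then 1 else 0) X with hX1
    have r1 : ∀ i j, w.repr (X1 (w j)) i =
        (if hp i0 i1 i - hp i0 i1 j = -1 then 1 else 0) * w.repr (X (w j)) i := fun i j =>
      cmp_repr w _ _ X i j
    have k0 : X1 (w i0) = a := by
      apply w.repr.injective
      ext i
      rw [r1, era, hp0]
      rcases hp_cases i0 i1 i with ⟨f1, f2⟩ | ⟨f1, f2⟩ | ⟨f1, f1', f2⟩
      · rw [f2, if_pos (Or.inl f1)]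
        norm_num
      · rw [f2, if_pos (Or.inr f1)]
        norm_num
      · rw [f2, if_neg (show ¬(i = i0 ∨ i = i1) from fun h => h.elim f1 f1')]
        norm_num
    have k1 : ∀ j, j ≠ i0 → X1 (w j) = w.repr (X1 (w j)) i1 • w i1 := by
      intro j hj
      refine eq_smul_of_repr w fun i hi => ?_
      rw [r1]
      rcases hp_cases i0 i1 i with ⟨f1, f2⟩ | ⟨f1, f2⟩ | ⟨f1, f1', f2⟩
      · rcases hp_cases i0 i1 j with ⟨g1, g2⟩ | ⟨g1, g2⟩ | ⟨g1, g1', g2⟩ <;>
          rw [f2, g2] <;> norm_num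
      · exact absurd f1 hi
      · rcases hp_cases i0 i1 j with ⟨g1, g2⟩ | ⟨g1, g2⟩ | ⟨g1, g1', g2⟩
        · exact absurd g1 hj
        · rw [f2, g2]
          norm_num
        · rw [f2, g2]
          norm_num
    refine w.ext fun j => ?_
    by_cases hj : j = i0
    · rw [hj, SS_apply, b10, LinearMap.smul_apply, k0]
      have e2 : B a (w i0) = 0 := by
        rw [h.sym, c0, era, if_pos (Or.inr rfl), zero_mul, mul_zero]
      rw [e2]
      module
    · rw [SS_apply, b1' j hj, LinearMap.smul_apply, k1 j hj]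
      have h2 := hm (w j) (w i0)
      rw [k0, k1 j hj, map_smul, LinearMap.smul_apply, bt', smul_eq_mul] at h2
      have h3 : B (w j) a = ε * B a (w j) := h.sym _ _
      rw [h3] at h2
      have h4 : w.repr (X1 (w j)) i1 = -(B a (w j) * t) := by
        have h5 : ε * (w.repr (X1 (w j)) i1 * t⁻¹ + B a (w j)) = 0 := by linear_combination h2
        have hε : ε ≠ 0 := fun h0 => by
          rw [h0, zero_mul] at hee
          exact zero_ne_one hee
        have h6 := (mul_eq_zero.1 h5).resolve_left hε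
        field_simp at h6
        linear_combination h6
      rw [h4, he1]
      module
  · set X2 := cmp w (hp i0 i1) (fun k => if k = -2 then 1 else 0) X with hX2
    have r2 : ∀ i j, w.repr (X2 (w j)) i =
        (if hp i0 i1 i - hp i0 i1 j = -2 then 1 else 0) * w.repr (X (w j)) i := fun i j =>
      cmp_repr w _ _ X i j
    have hp2 : (1 + ε) * B (w i0) (X (w i0)) = 0 := by
      have h2 := hX (w i0) (w i0)
      rw [h.sym (X (w i0)) (w i0)] at h2
      linear_combination h2
    refine w.ext fun j => ?_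
    by_cases hj : j = i0
    · have k0 : X2 (w i0) = (B (w i0) (X (w i0)) * t) • w i1 := by
        apply w.repr.injective
        ext i
        rw [r2, hp0, map_smul, Finsupp.smul_apply, w.repr_self, c0, smul_eq_mul]
        rcases hp_cases i0 i1 i with ⟨f1, f2⟩ | ⟨f1, f2⟩ | ⟨f1, f1', f2⟩
        · rw [f2, f1, Finsupp.single_eq_of_ne hne]
          norm_num
        · rw [f2, f1, Finsupp.single_eq_same, mul_assoc (w.repr _ _), inv_mul_cancel₀ ht]
          norm_num
        · rw [f2, Finsupp.single_eq_of_ne f1']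
          norm_num
      rw [hj, LinearMap.smul_apply, LinearMap.smul_apply, SS_apply, b10, k0, he1]
      have e3 : B (w i0) (X (w i0)) • (ε • t • w i1 - ε • ε • t • w i1) -
          (-2 : ℂ) • (B (w i0) (X (w i0)) * t) • w i1 =
          ((B (w i0) (X (w i0)) * (ε + 2 - ε * ε)) * t) • w i1 := by module
      have e4 : B (w i0) (X (w i0)) * (ε + 2 - ε * ε) = 0 := by
        rw [hee]
        linear_combination hp2
      rw [e4, zero_mul, zero_smul] at e3
      exact sub_eq_zero.1 e3
    · have k1 : X2 (w j) = 0 := by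
        apply w.repr.injective
        ext i
        rw [r2, map_zero, Finsupp.zero_apply]
        rcases hp_cases i0 i1 i with ⟨f1, f2⟩ | ⟨f1, f2⟩ | ⟨f1, f1', f2⟩ <;>
          rcases hp_cases i0 i1 j with ⟨g1, g2⟩ | ⟨g1, g2⟩ | ⟨g1, g1', g2⟩ <;>
            rw [f2, g2] <;> norm_num
        exact absurd g1 hj
      rw [LinearMap.smul_apply, LinearMap.smul_apply, SS_apply, b1' j hj, k1]
      module

end

end Pool.Agent.Helper43y
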