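import Mathlib
import Pool.Agent.Helper43y.Blk

/-!
# Blocks with an isolated pair of eigenvalues: all skew operators of the block
-/

set_option autoImplicit false
set_option linter.unusedSectionVars false
set_option linter.unusedVariables false

namespace Pool.Agent.Helper43y

open Module

noncomputable section

variable {H : Type} [AddCommGroup H] [Module ℂ H]

theorem hp_swap {n : ℕ} {i0 i1 : Fin n} (hne : i0 ≠ i1) (j : Fin n) :
    hp i1 i0 j = -hp i0 i1 j := by
  rcases hp_cases i0 i1 j with ⟨f1, f2⟩ | ⟨f1, f2⟩ | ⟨f1, f1', f2⟩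
  · rw [f2, f1, hp1 hne.symm]
  · rw [f2, f1, hp0, neg_neg]
  · rw [f2, hp_else f1' f1, neg_zero]

theorem cmp_swap {n : ℕ} (w : Basis (Fin n) ℂ H) {i0 i1 : Fin n} (hne : i0 ≠ i1) (F : ℤ → ℂ)
    (X : End ℂ H) : cmp w (hp i1 i0) F X = cmp w (hp i0 i1) (fun k => F (-k)) X := by
  refine ext_repr w fun i j => ?_
  rw [cmp_repr, cmp_repr, hp_swap hne, hp_swap hne]
  congr 2
  ring

/-- The operators of the block which extend by zero to elements of `𝔏`. -/
def gS (P : End ℂ H) (𝔏 : Submodule ℂ (End ℂ H)) : Submodule ℂ (End ℂ (LinearMap.range P)) where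
  carrier := {Z | (LinearMap.range P).subtype ∘ₗ Z ∘ₗ P.rangeRestrict ∈ 𝔏}
  zero_mem' := by
    have h1 : (LinearMap.range P).subtype ∘ₗ (0 : End ℂ (LinearMap.range P)) ∘ₗ
        P.rangeRestrict = 0 := by
      rw [LinearMap.zero_comp, LinearMap.comp_zero]
    change _ ∈ 𝔏
    rw [h1]
    exact 𝔏.zero_mem
  add_mem' := fun {a b} ha hb => by
    have h1 : (LinearMap.range P).subtype ∘ₗ (a + b) ∘ₗ P.rangeRestrict =
        (LinearMap.range P).subtype ∘ₗ a ∘ₗ P.rangeRestrict +
          (LinearMap.range P).subtype ∘ₗ b ∘ₗ P.rangeRestrict := by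
      rw [LinearMap.add_comp, LinearMap.comp_add]
    change _ ∈ 𝔏
    rw [h1]
    exact 𝔏.add_mem ha hb
  smul_mem' := fun c a ha => by
    have h1 : (LinearMap.range P).subtype ∘ₗ (c • a) ∘ₗ P.rangeRestrict =
        c • ((LinearMap.range P).subtype ∘ₗ a ∘ₗ P.rangeRestrict) := by
      rw [LinearMap.smul_comp, LinearMap.comp_smul]
    change _ ∈ 𝔏
    rw [h1]
    exact 𝔏.smul_mem c ha

theorem mem_gS {P : End ℂ H} {𝔏 : Submodule ℂ (End ℂ H)} {Z : End ℂ (LinearMap.range P)} :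
    Z ∈ gS P 𝔏 ↔ (LinearMap.range P).subtype ∘ₗ Z ∘ₗ P.rangeRestrict ∈ 𝔏 := Iff.rfl

/-- The restrictions of the elements of `𝔏` to the block. -/
def lS (P : End ℂ H) (𝔏 : Submodule ℂ (End ℂ H)) : Submodule ℂ (End ℂ (LinearMap.range P)) where
  carrier := {Z | ∃ X ∈ 𝔏, ∀ u : LinearMap.range P, (Z u : H) = X u}
  zero_mem' := ⟨0, 𝔏.zero_mem, fun u => by rw [LinearMap.zero_apply, LinearMap.zero_apply]; rfl⟩
  add_mem' := fun {a b} ⟨X, hX, ha⟩ ⟨Y, hY, hb⟩ => ⟨X + Y, 𝔏.add_mem hX hY, fun u => by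
    rw [LinearMap.add_apply, LinearMap.add_apply, Submodule.coe_add, ha, hb]⟩
  smul_mem' := fun c a ⟨X, hX, ha⟩ => ⟨c • X, 𝔏.smul_mem c hX, fun u => by
    rw [LinearMap.smul_apply, LinearMap.smul_apply, Submodule.coe_smul, ha]⟩

theorem mem_lS {P : End ℂ H} {𝔏 : Submodule ℂ (End ℂ H)} {Z : End ℂ (LinearMap.range P)} :
    Z ∈ lS P 𝔏 ↔ ∃ X ∈ 𝔏, ∀ u : LinearMap.range P, (Z u : H) = X u := Iff.rfl

variable {P : End ℂ H} {B : H →ₗ[ℂ] H →ₗ[ℂ] ℂ} {ε : ℂ}

theorem Blk.fix (h : Blk P B ε) (u : LinearMap.range P) : P u = u := by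
  obtain ⟨_, v, rfl⟩ := u
  exact h.idem v

theorem rr_coe (v : H) : ((P.rangeRestrict v : LinearMap.range P) : H) = P v := rfl

theorem Blk.rr (h : Blk P B ε) (u : LinearMap.range P) : P.rangeRestrict u = u :=
  Subtype.ext (h.fix u)

/-- The form on the block. -/
def blT (P : End ℂ H) (B : H →ₗ[ℂ] H →ₗ[ℂ] ℂ) :
    LinearMap.range P →ₗ[ℂ] LinearMap.range P →ₗ[ℂ] ℂ :=
  B.compl₁₂ (LinearMap.range P).subtype (LinearMap.range P).subtype

theorem blT_apply (x y : LinearMap.range P) : blT P B x y = B x y := rfl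

theorem Blk.SS_ext (h : Blk P B ε) (x y : LinearMap.range P) :
    (LinearMap.range P).subtype ∘ₗ SS (blT P B) ε x y ∘ₗ P.rangeRestrict = SS B ε x y := by
  refine LinearMap.ext fun v => ?_
  rw [LinearMap.comp_apply, LinearMap.comp_apply, SS_apply, SS_apply, map_sub, map_smul, map_smul,
    map_smul, blT_apply, blT_apply, rr_coe, h.right, h.right]
  rfl

variable [FiniteDimensional ℂ H]

/-- **All skew operators of a block with an isolated pair.** -/
theorem Blk.all (h : Blk P B ε) {𝔏 : Submodule ℂ (End ℂ H)}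
    (hbr : ∀ X ∈ 𝔏, ∀ Y ∈ 𝔏, X * Y - Y * X ∈ 𝔏) (hsk : ∀ X ∈ 𝔏, Skw B X)
    (hP : ∀ X ∈ 𝔏, ∀ x, X (P x) = P (X x))
    (hirr : ∀ W : Submodule ℂ H, W ≤ LinearMap.range P → (∀ X ∈ 𝔏, ∀ u ∈ W, X u ∈ W) →
      W = ⊥ ∨ W = LinearMap.range P)
    {n : ℕ} (w : Basis (Fin n) ℂ H) {i0 i1 : Fin n} (hne : i0 ≠ i1)
    (h0 : P (w i0) = w i0) (h1 : P (w i1) = w i1) (hbl : ∀ j, P (w j) = w j ∨ P (w j) = 0)
    (hhom : ∀ j k, B (w j) (w k) ≠ 0 → hp i0 i1 j + hp i0 i1 k = 0)
    (hgr : ∀ F : ℤ → ℂ, ∀ X ∈ 𝔏, cmp w (hp i0 i1) F X ∈ 𝔏)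
    {Y : End ℂ H} (hY : Skw B Y) (hY1 : ∀ x, P (Y x) = Y x) (hY2 : ∀ x, Y (P x) = Y x) :
    Y ∈ 𝔏 := by
  have hee := h.ee
  have hε : ε ≠ 0 := fun h0 => by
    rw [h0, zero_mul] at hee
    exact zero_ne_one hee
  -- the pair is not orthogonal
  have hex : B (w i0) (w i1) ≠ 0 := by
    intro h2
    apply w.ne_zero i0
    rw [← h0]
    apply h.nd
    intro y
    have h3 : B (w i0) = 0 := by
      refine w.ext fun j => ?_
      rw [LinearMap.zero_apply]
      by_contra hcon
      have h4 := hhom i0 j hcon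
      rw [hp0] at h4
      rcases hp_cases i0 i1 j with ⟨f1, f2⟩ | ⟨f1, f2⟩ | ⟨f1, f1', f2⟩
      · rw [f2] at h4
        norm_num at h4
      · rw [f1] at hcon
        exact hcon h2
      · rw [f2] at h4
        norm_num at h4
    rw [h3, LinearMap.zero_apply]
  set t := (B (w i0) (w i1))⁻¹ with ht
  have ht0 : t ≠ 0 := inv_ne_zero hex
  have h01 : B (w i0) (t • w i1) = 1 := by
    rw [map_smul, smul_eq_mul, ht, inv_mul_cancel₀ hex]
  have h10 : B (w i1) (w i0) = ε * t⁻¹ := by rw [h.sym, ht, inv_inv]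
  have h10' : B (w i1) ((ε * t) • w i0) = 1 := by
    rw [map_smul, smul_eq_mul, h10]
    field_simp
    linear_combination hee
  -- components
  have key : ∀ X ∈ 𝔏,
      SS B ε (t • w i1) (X (w i0) - B (w i0) (X (w i0)) • (t • w i1) -
        ε • B (t • w i1) (X (w i0)) • w i0) ∈ 𝔏 ∧
      B (w i0) (X (w i0)) • SS B ε (t • w i1) (t • w i1) ∈ 𝔏 := by
    intro X hX
    obtain ⟨k1, k2⟩ := h.comps hne h0 h1 hbl hhom rfl h01 (hsk X hX) (hP X hX)
      (hsk _ (hgr _ X hX))
    rw [k1, k2]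
    exact ⟨𝔏.smul_mem _ (hgr _ X hX), 𝔏.smul_mem _ (hgr _ X hX)⟩
  have hhom' : ∀ j k, B (w j) (w k) ≠ 0 → hp i1 i0 j + hp i1 i0 k = 0 := by
    intro j k hjk
    have h2 := hhom j k hjk
    rw [hp_swap hne, hp_swap hne]
    linarith
  have hgr' : ∀ F : ℤ → ℂ, ∀ X ∈ 𝔏, cmp w (hp i1 i0) F X ∈ 𝔏 := by
    intro F X hX
    rw [cmp_swap w hne]
    exact hgr _ X hX
  have key' : ∀ X ∈ 𝔏,
      SS B ε (w i0) (X (t • w i1) - B (w i0) (X (t • w i1)) • (t • w i1) -
        ε • B (t • w i1) (X (t • w i1)) • w i0) ∈ 𝔏 ∧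
      B (t • w i1) (X (t • w i1)) • SS B ε (w i0) (w i0) ∈ 𝔏 := by
    intro X hX
    obtain ⟨k1, k2⟩ := h.comps hne.symm h1 h0 hbl hhom' rfl h10' (hsk X hX) (hP X hX)
      (hsk _ (hgr' _ X hX))
    have m1 := 𝔏.smul_mem ε (hgr' (fun k => if k = -1 then 1 else 0) X hX)
    have m2 := 𝔏.smul_mem (-2 : ℂ) (hgr' (fun k => if k = -2 then 1 else 0) X hX)
    rw [← k1] at m1
    rw [← k2] at m2
    constructor
    · have e1 : SS B ε ((ε * t) • w i0) (X (w i1) - B (w i1) (X (w i1)) • ((ε * t) • w i0) -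
          ε • B ((ε * t) • w i0) (X (w i1)) • w i1) =
          ε • SS B ε (w i0) (X (t • w i1) - B (w i0) (X (t • w i1)) • (t • w i1) -
            ε • B (t • w i1) (X (t • w i1)) • w i0) := by
        have e2 : X (t • w i1) - B (w i0) (X (t • w i1)) • (t • w i1) -
            ε • B (t • w i1) (X (t • w i1)) • w i0 =
            t • (X (w i1) - B (w i1) (X (w i1)) • ((ε * t) • w i0) -
              ε • B ((ε * t) • w i0) (X (w i1)) • w i1) := by
          simp only [map_smul, LinearMap.smul_apply, smul_eq_mul]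
          have e3 : ε • (ε * t * B (w i0) (X (w i1))) • w i1 =
              (ε * ε) • (t * B (w i0) (X (w i1))) • w i1 := by module
          rw [e3, hee, one_smul]
          module
        rw [e2, SS_smul, SS_smul']
        module
      rw [e1] at m1
      have m3 := 𝔏.smul_mem ε m1
      rwa [smul_smul, hee, one_smul] at m3
    · have e1 : B (w i1) (X (w i1)) • SS B ε ((ε * t) • w i0) ((ε * t) • w i0) =
          (ε * ε) • (B (t • w i1) (X (t • w i1)) • SS B ε (w i0) (w i0)) := by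
        rw [SS_smul, SS_smul']
        simp only [map_smul, LinearMap.smul_apply, smul_eq_mul]
        module
      rw [e1, hee, one_smul] at m2
      exact m2
  -- the algebra on the block
  have m0 : w i0 ∈ LinearMap.range P := ⟨w i0, h0⟩
  have m1 : t • w i1 ∈ LinearMap.range P := ⟨t • w i1, by rw [map_smul, h1]⟩
  have halg : Alg (blT P B) ε ⟨w i0, m0⟩ ⟨t • w i1, m1⟩ (lS P 𝔏) (gS P 𝔏) := by
    refine ⟨⟨hee, fun x y => h.sym x y, fun x hx => ?_, ?_, ?_, h01⟩, ?_, ?_, ?_, ?_, ?_, ?_, ?_,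
      ?_⟩
    · have h2 := h.nd x fun y => by
        rw [← h.right]
        exact hx ⟨P y, y, rfl⟩
      rw [h.fix] at h2
      exact Subtype.ext h2
    · rw [blT_apply]
      by_contra hcon
      have h2 := hhom i0 i0 hcon
      rw [hp0] at h2
      norm_num at h2
    · rw [blT_apply]
      change B (t • w i1) (t • w i1) = 0
      rw [map_smul, map_smul, LinearMap.smul_apply]
      have h3 : B (w i1) (w i1) = 0 := by
        by_contra hcon
        have h2 := hhom i1 i1 hcon
        rw [hp1 hne] at h2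
        norm_num at h2
      rw [h3, smul_zero, smul_zero]
    · intro Z hZ
      refine ⟨_, hZ, fun u => ?_⟩
      rw [LinearMap.comp_apply, LinearMap.comp_apply, h.rr]
      rfl
    · rintro Z ⟨X, hX, hZ⟩ u v
      rw [blT_apply, blT_apply, hZ, hZ]
      exact hsk X hX u v
    · rintro Z ⟨X, hX, hZ⟩ Y' hY'
      have h2 := hbr X hX _ hY'
      have h3 : (LinearMap.range P).subtype ∘ₗ (Z * Y' - Y' * Z) ∘ₗ P.rangeRestrict =
          X * ((LinearMap.range P).subtype ∘ₗ Y' ∘ₗ P.rangeRestrict) -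
            ((LinearMap.range P).subtype ∘ₗ Y' ∘ₗ P.rangeRestrict) * X := by
        refine LinearMap.ext fun v => ?_
        have h4 : Z (P.rangeRestrict v) = P.rangeRestrict (X v) := by
          apply Subtype.ext
          rw [hZ, rr_coe, rr_coe, hP X hX]
        rw [LinearMap.sub_apply, Module.End.mul_apply, Module.End.mul_apply]
        simp only [LinearMap.comp_apply, LinearMap.sub_apply, Module.End.mul_apply, map_sub,
          Submodule.subtype_apply, Submodule.coe_sub]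
        rw [hZ, h4]
      rw [mem_gS, h3]
      exact h2
    · intro W hW
      rcases hirr (W.map (LinearMap.range P).subtype) (by
        rintro _ ⟨u, -, rfl⟩
        exact u.2) (by
        rintro X hX _ ⟨u, hu, rfl⟩
        have hXu : X u ∈ LinearMap.range P := ⟨X u, by rw [← hP X hX, h.fix]⟩
        let Z : End ℂ (LinearMap.range P) := P.rangeRestrict ∘ₗ X ∘ₗ (LinearMap.range P).subtype
        have hZ : ∀ u : LinearMap.range P, (Z u : H) = X u := by
          intro u
          change P (X u) = X u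
          rw [← hP X hX, h.fix]
        refine ⟨Z u, hW Z ⟨X, hX, hZ⟩ u hu, ?_⟩
        exact hZ u) with h2 | h2
      · left
        rw [eq_bot_iff]
        intro u hu
        have h3 : (u : H) ∈ W.map (LinearMap.range P).subtype := ⟨u, hu, rfl⟩
        rw [h2, Submodule.mem_bot] at h3
        exact (Submodule.mem_bot _).2 (Subtype.ext h3)
      · right
        rw [eq_top_iff]
        intro u _
        have h3 : (u : H) ∈ W.map (LinearMap.range P).subtype := by
          rw [h2]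
          exact u.2
        obtain ⟨u', hu', h4⟩ := h3
        rwa [← Subtype.ext h4]
    · rintro Z ⟨X, hX, hZ⟩
      rw [mem_gS, h.SS_ext]
      have h2 := (key X hX).1
      unfold pr
      simp only [Submodule.coe_sub, Submodule.coe_smul, blT_apply, hZ]
      exact h2
    · rintro Z ⟨X, hX, hZ⟩
      rw [mem_gS, h.SS_ext]
      have h2 := (key' X hX).1
      unfold pr
      simp only [Submodule.coe_sub, Submodule.coe_smul, blT_apply, hZ]
      exact h2
    · rintro Z ⟨X, hX, hZ⟩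
      rw [← SS_smul, mem_gS, h.SS_ext]
      have h2 := (key X hX).2
      rw [← SS_smul] at h2
      simp only [Submodule.coe_smul, blT_apply, hZ]
      exact h2
    · rintro Z ⟨X, hX, hZ⟩
      rw [← SS_smul, mem_gS, h.SS_ext]
      have h2 := (key' X hX).2
      rw [← SS_smul] at h2
      simp only [Submodule.coe_smul, blT_apply, hZ]
      exact h2
  -- conclusion
  let Z : End ℂ (LinearMap.range P) := P.rangeRestrict ∘ₗ Y ∘ₗ (LinearMap.range P).subtype
  have hZ : ∀ u : LinearMap.range P, (Z u : H) = Y u := by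
    intro u
    change P (Y u) = Y u
    exact hY1 u
  have h2 := halg.all (Y := Z) (fun u v => by
    rw [blT_apply, blT_apply, hZ, hZ]
    exact hY u v)
  rw [mem_gS] at h2
  have h3 : (LinearMap.range P).subtype ∘ₗ Z ∘ₗ P.rangeRestrict = Y := by
    refine LinearMap.ext fun v => ?_
    rw [LinearMap.comp_apply, LinearMap.comp_apply]
    change ((Z (P.rangeRestrict v) : LinearMap.range P) : H) = Y v
    rw [hZ, rr_coe, hY2]
  rwa [h3] at h2

end

end Pool.Agent.Helper43y
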