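import Mathlib
import Pool.Agent.N183.U6.Stm
import Pool.Agent.N183.U5.Stm2

/-!
# Products of two eigenvalues of a Frobenius element
-/

namespace Pool.Agent.Helper43y

open Module Pool.Agent.Y90 Pool.Agent.R915 Polynomial TensorProduct
open Pool.Agent.N183.U5 Pool.Agent.N183.U6

section lin

variable {V : Type} [AddCommGroup V] [Module ℂ V]

/-- The operator `t` is diagonalizable on the subspace `W`, with eigenvalues `α i`, and the integral
function `h` on the set of the indices is additive for the products of two eigenvalues: if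
`α i * α j = α k * α l` then `h i + h j = h k + h l`. -/
def IsGraded (t : Module.End ℂ V) (W : Submodule ℂ V) {n : ℕ} (h : Fin n → ℤ) : Prop :=
  ∃ (w : Basis (Fin n) ℂ W) (α : Fin n → ℂˣ), (∀ i, t (w i) = (α i : ℂ) • (w i : V)) ∧
    ∀ i j k l, α i * α j = α k * α l → h i + h j = h k + h l

/-- The operator `t` has an isolated pair of eigenvalues `α i₀`, `α i₁` on the subspace `W`: the
function with the values `1` at `i₀`, `-1` at `i₁` and `0` at the other indices is additive for the
products of two eigenvalues. -/
def HasIsolatedPair (t : Module.End ℂ V) (W : Submodule ℂ V) : Prop :=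
  ∃ (n : ℕ) (i₀ i₁ : Fin n), i₀ ≠ i₁ ∧
    IsGraded t W fun i => if i = i₀ then 1 else if i = i₁ then -1 else 0

/-- Some set of eigenvalues of `t` on the subspace `W`, of cardinality prime to the dimension, has a
characteristic function `h` which is additive for the products of two eigenvalues. For instance this
holds if `α i₀ * α j = α k * α l` just for `k = i₀` or `l = i₀`, for some index `i₀`. -/
def HasCoprimeSet (t : Module.End ℂ V) (W : Submodule ℂ V) : Prop :=
  ∃ (n : ℕ) (h : Fin n → ℤ), IsGraded t W h ∧ (∀ i, h i = 0 ∨ h i = 1) ∧ (∃ i, h i = 0) ∧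
    (∃ i, h i = 1) ∧ Nat.Coprime (Nat.card {i // h i = 1}) n

/-- `z` is an eigenvalue of the operator `t` on the subspace `W`. -/
def IsEigOn (t : Module.End ℂ V) (W : Submodule ℂ V) (z : ℂ) : Prop :=
  ∃ v ∈ W, v ≠ 0 ∧ t v = z • v

end lin

section gal

variable {K : Type} [Field K] [CharZero K] [Algebra K ℂ] {Γ : Type} [Group Γ]

/-- The class of simple abelian varieties. Let `ℚ[a]` be a maximal subfield of the endomorphism
algebra. For each embedding `s` of `ℚ[a]` some element of the Galois group acts on `V_s` with a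
coprime set of eigenvalues, or with an isolated pair of eigenvalues; in the second case `ℚ[a]` is
totally real, that is, the abelian variety is of Albert type I or II. -/
def FrobTwo (X : AV) (ρ : Representation K Γ (K ⊗[ℚ] X.H)) (Y : AV) : Prop :=
  ∃ a : Module.End ℚ Y.H, MaxField Y a ∧
    ∀ s : ℂ, aeval s (minpoly ℚ a) = 0 → ∃ (γ : Γ) (t : Module.End K (K ⊗[ℚ] Y.H)),
      ActsBy X ρ Y γ t ∧ (HasCoprimeSet (t.baseChange ℂ) (VS K Y a s) ∨
        (RealMax Y a ∧ HasIsolatedPair (t.baseChange ℂ) (VS K Y a s)))

/-- Separated signatures, for a pair of homomorphisms `s`, `s'` of the centre, see `IsSeparated`. -/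
def SepPair (n : ℂ → ℕ) (s s' : ℂ) : Prop :=
  (∃ τ : ℂ ≃+* ℂ, IsMixed n (τ s)) →
    (∃ τ : ℂ ≃+* ℂ, n (τ s) * n (starRingEnd ℂ (τ s')) ≠ n (τ s') * n (starRingEnd ℂ (τ s))) →
      ∃ τ : ℂ ≃+* ℂ,
        n (τ s) * n (starRingEnd ℂ (τ s')) ≠ n (τ s') * n (starRingEnd ℂ (τ s)) ∧
          (IsMixed n (τ s) ∨ IsMixed n (τ s'))

/-- The element `γ` of the Galois group commutes with the endomorphisms of the abelian variety with
the inclusion `per` of the homology into the tangent space. -/
def CommutesWithEnd {H T : Type} [AddCommGroup H] [Module ℚ H] [AddCommGroup T] [Module ℂ T]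
    (per : H →+ T) (ρ : Representation K Γ (K ⊗[ℚ] H)) (γ : Γ) : Prop :=
  ∀ f : Module.End ℚ H, St.IsHom per per f →
    ∀ v, ρ γ (f.baseChange K v) = f.baseChange K (ρ γ v)

/-- The complex number `z` is an eigenvalue of the operator `t` (over the complex numbers) on the
eigenspace for `s` of the operator `Φ`. -/
def IsEigVal {V : Type} [AddCommGroup V] [Module K V] (t Φ : Module.End K V) (s z : ℂ) : Prop :=
  IsEigOn (t.baseChange ℂ) (Module.End.eigenspace (Φ.baseChange ℂ) s) z

/-- Some element `γ` of the Galois group commutes with the endomorphisms of the abelian variety, and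
its eigenvalues on the eigenspaces `V_s` and `V_s'` of the endomorphism `φ` are not proportional (as sets
of complex numbers). -/
def NotProportionalPer {H T : Type} [AddCommGroup H] [Module ℚ H] [AddCommGroup T] [Module ℂ T]
    (per : H →+ T) (ρ : Representation K Γ (K ⊗[ℚ] H)) (φ : Module.End ℚ H) (s s' : ℂ) : Prop :=
  ∃ γ : Γ, CommutesWithEnd per ρ γ ∧
    ¬ ∃ c : ℂ, ∀ z : ℂ, IsEigVal (ρ γ) (φ.baseChange K) s z ↔
      IsEigVal (ρ γ) (φ.baseChange K) s' (c * z)

/-- Some element `γ` of the Galois group commutes with the endomorphisms of `X`, and its eigenvalues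
on the parts `V_s` and `V_s'` of `V(X)` given by two homomorphisms of the centre are not proportional
(as sets of complex numbers). -/
def NotProportional (X : AV) (ρ : Representation K Γ (K ⊗[ℚ] X.H)) (φ : Module.End ℚ X.H)
    (s s' : ℂ) : Prop :=
  NotProportionalPer X.per ρ φ s s'

/-- The endomorphism `φ` acts as `Ψ` on the tangent space, and for two different roots `s`, `s'` of the
minimal polynomial of `φ` the signatures are separated (for the multiplicities of the eigenvalues of
`Ψ`), or the eigenvalues of an element of the Galois group on `V_s` and `V_s'` are not proportional. -/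
def PairsSeparated {H T : Type} [AddCommGroup H] [Module ℚ H] [AddCommGroup T] [Module ℂ T]
    (per : H →+ T) (ρ : Representation K Γ (K ⊗[ℚ] H)) (φ : Module.End ℚ H)
    (Ψ : Module.End ℂ T) : Prop :=
  (∀ v, Ψ (per v) = per (φ v)) ∧
    ∀ s s' : ℂ, aeval s (minpoly ℚ φ) = 0 → aeval s' (minpoly ℚ φ) = 0 → s ≠ s' →
      SepPair (fun s => finrank ℂ (Ψ.eigenspace s)) s s' ∨ NotProportionalPer per ρ φ s s'

end gal

end Pool.Agent.Helper43y
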