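import Mathlib
import Pool.Agent.N615.GSI2
import Pool.Agent.Helper43y.Stm

/-!
# The new class is stable under isogenies
-/

set_option linter.unusedSectionVars false

namespace Pool.Agent.Helper43y

open Module Pool.Agent.Y90 Pool.Agent.R915 TensorProduct Polynomial
open Pool.Agent.N183.U5
open Pool.Agent.N183.U6
open Pool.Agent.N183.U8
open Pool.Agent.N615.GSI1 Pool.Agent.N615.GSI2

section conj

variable {V V' : Type} [AddCommGroup V] [Module ℂ V] [AddCommGroup V'] [Module ℂ V']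

theorem isGraded (f : V ≃ₗ[ℂ] V') {t : Module.End ℂ V'} {W : Submodule ℂ V'} {n : ℕ}
    {g : Fin n → ℤ} (h : IsGraded t W g) : IsGraded (cjg f t) (W.map (f.symm : V' →ₗ[ℂ] V)) g := by
  obtain ⟨w, α, h1, h2⟩ := h
  refine ⟨w.map (f.symm.submoduleMap W), α, fun i => ?_, h2⟩
  have h7 : ((w.map (f.symm.submoduleMap W) i : W.map (f.symm : V' →ₗ[ℂ] V)) : V) =
      f.symm (w i : V') := by
    rw [Basis.map_apply]
    rfl
  rw [h7, cjg_apply, f.apply_symm_apply, h1, map_smul]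

end conj

variable {K : Type} [Field K] [CharZero K] [Algebra K ℂ] {Γ : Type} [Group Γ]

/-- The new class is stable under isogenies. -/
theorem FrobTwo.iso {X : AV} {ρ : Representation K Γ (K ⊗[ℚ] X.H)} {Y Y' : AV}
    (e : Y.H ≃ₗ[ℚ] Y'.H) (he : IsHom Y Y' e.toLinearMap) (hes : IsHom Y' Y e.symm.toLinearMap)
    (h : FrobTwo X ρ Y') : FrobTwo X ρ Y := by
  obtain ⟨a, ha, h1⟩ := h
  refine ⟨cj e a, maxField e he hes ha, fun s hs => ?_⟩
  rw [cj_minpoly] at hs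
  rw [VS_cj]
  obtain ⟨γ, t, h2, h3⟩ := h1 s hs
  refine ⟨γ, cK (eK K e) t, actsBy ρ e hes h2, ?_⟩
  rw [cK_baseChange]
  rcases h3 with ⟨n, g, h3, h4⟩ | ⟨hR, n, i0, i1, h3, h4⟩
  · exact Or.inl ⟨n, g, isGraded _ h3, h4⟩
  · exact Or.inr ⟨realMax e he hes hR, n, i0, i1, h3, isGraded _ h4⟩

end Pool.Agent.Helper43y
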