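import Mathlib
import Pool.Agent.Helper43y.Pair

/-!
# Irreducible symplectic Lie algebras with a grading by a pair of lines: the theorem
-/

set_option autoImplicit false
set_option linter.unusedSectionVars false
set_option linter.unusedVariables false

namespace Pool.Agent.Helper43y

open Module

noncomputable section

variable {V : Type} [AddCommGroup V] [Module ℂ V] {n : ℕ}
variable (w : Basis (Fin n) ℂ V) {i0 i1 : Fin n}

/-- Vectors without components in the pair. -/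
def Mid (i0 i1 : Fin n) (v : V) : Prop := w.repr v i0 = 0 ∧ w.repr v i1 = 0

variable {w}

theorem Dg.m_e0 (hne : i0 ≠ i1) {X : End ℂ V} (hX : Dg w (hp i0 i1) (-1) X) :
    Mid w i0 i1 (X (w i0)) := by
  constructor
  · apply hX
    norm_num
  · apply hX
    rw [hp0, hp1 hne]
    norm_num

/-- The value of an operator of degree `-1` on the middle part. -/
theorem Dg.m_mid (hne : i0 ≠ i1) {X : End ℂ V} (hX : Dg w (hp i0 i1) (-1) X) {v : V}
    (hv : Mid w i0 i1 v) : X v = w.repr (X v) i1 • w i1 := by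
  refine eq_smul_of_repr w fun j hj => ?_
  rw [repr_apply]
  refine Finset.sum_eq_zero fun k _ => ?_
  rcases hp_cases i0 i1 k with ⟨e1, e2⟩ | ⟨e1, e2⟩ | ⟨e1, e1', e2⟩
  · rw [e1, hv.1, zero_mul]
  · rw [e1, hv.2, zero_mul]
  · rw [hX j k, mul_zero]
    rw [e2]
    rcases hp_cases i0 i1 j with ⟨f1, f2⟩ | ⟨f1, f2⟩ | ⟨f1, f1', f2⟩
    · rw [f2]
      norm_num
    · exact absurd f1 hj
    · rw [f2]
      norm_num

/-- The value of an operator of degree `1` on the middle part. -/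
theorem Dg.p_mid (hne : i0 ≠ i1) {X : End ℂ V} (hX : Dg w (hp i0 i1) 1 X) {v : V}
    (hv : Mid w i0 i1 v) : X v = w.repr (X v) i0 • w i0 := by
  refine eq_smul_of_repr w fun j hj => ?_
  rw [repr_apply]
  refine Finset.sum_eq_zero fun k _ => ?_
  rcases hp_cases i0 i1 k with ⟨e1, e2⟩ | ⟨e1, e2⟩ | ⟨e1, e1', e2⟩
  · rw [e1, hv.1, zero_mul]
  · rw [e1, hv.2, zero_mul]
  · rw [hX j k, mul_zero]
    rw [e2]
    rcases hp_cases i0 i1 j with ⟨f1, f2⟩ | ⟨f1, f2⟩ | ⟨f1, f1', f2⟩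
    · exact absurd f1 hj
    · rw [f2]
      norm_num
    · rw [f2]
      norm_num

theorem Dg.p_e0 {X : End ℂ V} (hX : Dg w (hp i0 i1) 1 X) : X (w i0) = 0 := by
  apply w.repr.injective
  ext i
  rw [map_zero, Finsupp.zero_apply]
  apply hX
  rw [hp0]
  rcases hp_cases i0 i1 i with ⟨f1, f2⟩ | ⟨f1, f2⟩ | ⟨f1, f1', f2⟩ <;> rw [f2] <;> norm_num

theorem Dg.z_e0 {X : End ℂ V} (hX : Dg w (hp i0 i1) 0 X) :
    X (w i0) = w.repr (X (w i0)) i0 • w i0 := by
  refine eq_smul_of_repr w fun j hj => ?_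
  apply hX
  rw [hp0]
  rcases hp_cases i0 i1 j with ⟨f1, f2⟩ | ⟨f1, f2⟩ | ⟨f1, f1', f2⟩
  · exact absurd f1 hj
  · rw [f2]
    norm_num
  · rw [f2]
    norm_num

variable [FiniteDimensional ℂ V]

/-- **Irreducible symplectic Lie algebras with a grading by a pair of lines.** -/
theorem rk1_of_pair {𝔤 : Submodule ℂ (End ℂ V)} (hbr : ∀ X ∈ 𝔤, ∀ Y ∈ 𝔤, X * Y - Y * X ∈ 𝔤)
    (hirr : ∀ W : Submodule ℂ V, (∀ X ∈ 𝔤, ∀ u ∈ W, X u ∈ W) → W = ⊥ ∨ W = ⊤)
    {T : V →ₗ[ℂ] V →ₗ[ℂ] ℂ} (hT0 : T ≠ 0) (halt : ∀ x, T x x = 0)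
    (hsk : ∀ X ∈ 𝔤, ∀ x y, T (X x) y + T x (X y) = 0)
    (w : Basis (Fin n) ℂ V) {i0 i1 : Fin n} (hne : i0 ≠ i1)
    (hgr : ∀ F : ℤ → ℂ, ∀ X ∈ 𝔤, cmp w (hp i0 i1) F X ∈ 𝔤) :
    ∃ x ∈ 𝔤, finrank ℂ (LinearMap.range x) = 1 := by
  by_contra hcon
  push Not at hcon
  have hT01 := pair_ne hirr hT0 hsk w hne hgr
  have hasym : ∀ x y, T x y = -T y x := by
    intro x y
    have h1 := halt (x + y)
    simp only [map_add, LinearMap.add_apply, halt] at h1
    linear_combination h1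
  -- entries of degree two vanish
  have z1 : ∀ X ∈ 𝔤, w.repr (X (w i1)) i0 = 0 := by
    intro X hX
    by_contra h1
    refine hcon _ (hgr (fun k => if k = 2 then 1 else 0) X hX)
      (rank_entry w (p := i0) (q := i1) (fun i j hij => ?_) ?_)
    · rw [cmp_repr]
      rcases hp_cases i0 i1 i with ⟨e1, e2⟩ | ⟨e1, e2⟩ | ⟨e1, e1', e2⟩ <;>
        rcases hp_cases i0 i1 j with ⟨f1, f2⟩ | ⟨f1, f2⟩ | ⟨f1, f1', f2⟩ <;>
          rw [e2, f2] <;> norm_num
      exact absurd ⟨e1, f1⟩ hij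
    · rw [cmp_repr, hp0, hp1 hne]
      norm_num
      exact h1
  have z2 : ∀ X ∈ 𝔤, w.repr (X (w i0)) i1 = 0 := by
    intro X hX
    by_contra h1
    refine hcon _ (hgr (fun k => if k = -2 then 1 else 0) X hX)
      (rank_entry w (p := i1) (q := i0) (fun i j hij => ?_) ?_)
    · rw [cmp_repr]
      rcases hp_cases i0 i1 i with ⟨e1, e2⟩ | ⟨e1, e2⟩ | ⟨e1, e1', e2⟩ <;>
        rcases hp_cases i0 i1 j with ⟨f1, f2⟩ | ⟨f1, f2⟩ | ⟨f1, f1', f2⟩ <;>
          rw [e2, f2] <;> norm_num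
      exact absurd ⟨e1, f1⟩ hij
    · rw [cmp_repr, hp0, hp1 hne]
      norm_num
      exact h1
  -- the decomposition
  let P : ℤ → End ℂ V → End ℂ V := fun d X => cmp w (hp i0 i1) (fun k => if k = d then 1 else 0) X
  have hPm : ∀ d, ∀ X ∈ 𝔤, P d X ∈ 𝔤 := fun d X hX => hgr _ X hX
  have hPd : ∀ d X, Dg w (hp i0 i1) d (P d X) := fun d X => dg_cmp w _ d X
  have hdec : ∀ X ∈ 𝔤, X = P 0 X + P 1 X + P (-1) X := by
    intro X hX
    refine ext_repr w fun i j => ?_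
    rw [LinearMap.add_apply, LinearMap.add_apply, map_add, map_add, Finsupp.add_apply,
      Finsupp.add_apply, cmp_repr, cmp_repr, cmp_repr]
    rcases hp_cases i0 i1 i with ⟨e1, e2⟩ | ⟨e1, e2⟩ | ⟨e1, e1', e2⟩ <;>
      rcases hp_cases i0 i1 j with ⟨f1, f2⟩ | ⟨f1, f2⟩ | ⟨f1, f1', f2⟩ <;>
        rw [e2, f2] <;> norm_num
    · rw [e1, f1]
      exact z1 X hX
    · rw [e1, f1]
      exact z2 X hX
  -- products of two operators of degree `-1`
  have hmm : ∀ A ∈ 𝔤, Dg w (hp i0 i1) (-1) A → ∀ B ∈ 𝔤, Dg w (hp i0 i1) (-1) B →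
      A (B (w i0)) = 0 := by
    intro A hA hA' B hB hB'
    have e1 := hA'.m_mid hne (hB'.m_e0 hne)
    have e2 := hB'.m_mid hne (hA'.m_e0 hne)
    have e3 := z2 _ (hbr A hA B hB)
    rw [LinearMap.sub_apply, map_sub, Finsupp.sub_apply, Module.End.mul_apply,
      Module.End.mul_apply, sub_eq_zero] at e3
    rw [← e3] at e2
    have e4 : A (B (w i0)) = B (A (w i0)) := by rw [e1, e2]
    have e5 := hsk A hA (B (w i0)) (w i0)
    have e6 := hsk B hB (A (w i0)) (w i0)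
    have e7 := hasym (B (w i0)) (A (w i0))
    rw [← e4] at e6
    have e8 : T (A (B (w i0))) (w i0) = 0 := by linear_combination (e5 + e6 - e7) / 2
    rw [e1, map_smul, LinearMap.smul_apply, smul_eq_mul, hasym (w i1) (w i0)] at e8
    have e9 : w.repr (A (B (w i0))) i1 = 0 := by
      rcases mul_eq_zero.1 e8 with h1 | h1
      · exact h1
      · exact absurd (neg_eq_zero.1 h1) hT01
    rw [e1, e9, zero_smul]
  -- the stable subspace
  let W : Submodule ℂ V :=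
    { carrier := {u | ∃ (a : ℂ) (Y : End ℂ V), Y ∈ 𝔤 ∧ Dg w (hp i0 i1) (-1) Y ∧
        u = a • w i0 + Y (w i0)}
      add_mem' := by
        rintro _ _ ⟨a, Y, hY, hY', rfl⟩ ⟨b, Z, hZ, hZ', rfl⟩
        refine ⟨a + b, Y + Z, 𝔤.add_mem hY hZ, hY'.add hZ', ?_⟩
        rw [LinearMap.add_apply]
        module
      zero_mem' := ⟨0, 0, 𝔤.zero_mem, Dg.zero, by rw [zero_smul, LinearMap.zero_apply, add_zero]⟩
      smul_mem' := by
        rintro c _ ⟨a, Y, hY, hY', rfl⟩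
        refine ⟨c * a, c • Y, 𝔤.smul_mem c hY, hY'.smul c, ?_⟩
        rw [LinearMap.smul_apply]
        module }
  have hWst : ∀ X ∈ 𝔤, ∀ u ∈ W, X u ∈ W := by
    rintro X hX _ ⟨a, Y, hY, hY', rfl⟩
    have f0 := (hPd 0 X).z_e0
    have hXe : X (w i0) = w.repr (P 0 X (w i0)) i0 • w i0 + P (-1) X (w i0) := by
      conv_lhs => rw [hdec X hX]
      rw [LinearMap.add_apply, LinearMap.add_apply, (hPd 1 X).p_e0, add_zero, ← f0]
    have hXY : X (Y (w i0)) = (P 0 X * Y - Y * P 0 X) (w i0) +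
        w.repr (P 0 X (w i0)) i0 • Y (w i0) + w.repr (P 1 X (Y (w i0))) i0 • w i0 := by
      conv_lhs => rw [hdec X hX]
      rw [LinearMap.add_apply, LinearMap.add_apply, hmm _ (hPm (-1) X hX) (hPd (-1) X) Y hY hY',
        add_zero, LinearMap.sub_apply, Module.End.mul_apply, Module.End.mul_apply,
        ← (hPd 1 X).p_mid hne (hY'.m_e0 hne), ← map_smul, ← f0, sub_add_cancel]
    rw [map_add, map_smul, hXe, hXY]
    refine ⟨a * w.repr (P 0 X (w i0)) i0 + w.repr (P 1 X (Y (w i0))) i0,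
      a • P (-1) X + (P 0 X * Y - Y * P 0 X) + w.repr (P 0 X (w i0)) i0 • Y,
      𝔤.add_mem (𝔤.add_mem (𝔤.smul_mem a (hPm (-1) X hX)) (hbr _ (hPm 0 X hX) _ hY))
        (𝔤.smul_mem _ hY), ?_, ?_⟩
    · have h1 : Dg w (hp i0 i1) (-1) (P 0 X * Y) := by
        have := (hPd 0 X).mul hY'
        rwa [zero_add] at this
      have h2 : Dg w (hp i0 i1) (-1) (Y * P 0 X) := by
        have := hY'.mul (hPd 0 X)
        rwa [add_zero] at this
      exact (((hPd (-1) X).smul a).add (h1.sub h2)).add (hY'.smul _)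
    · simp only [LinearMap.add_apply, LinearMap.smul_apply]
      module
  have hW0 : w i0 ∈ W := ⟨1, 0, 𝔤.zero_mem, Dg.zero, by
    rw [one_smul, LinearMap.zero_apply, add_zero]⟩
  rcases hirr W hWst with h1 | h1
  · rw [h1, Submodule.mem_bot] at hW0
    exact w.ne_zero i0 hW0
  · have h2 : w i1 ∈ W := by
      rw [h1]
      trivial
    obtain ⟨a, Y, hY, hY', h3⟩ := h2
    have h4 := congrArg (fun v => w.repr v i1) h3
    simp only [map_add, map_smul, Finsupp.add_apply, Finsupp.smul_apply, w.repr_self,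
      Finsupp.single_eq_same, (hY'.m_e0 hne).2, smul_eq_mul] at h4
    rw [Finsupp.single_eq_of_ne hne.symm, mul_zero, add_zero] at h4
    exact one_ne_zero h4

end

end Pool.Agent.Helper43y
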