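import Mathlib
import Pool.Agent.N183.U5.Slp
import Pool.Agent.Helper43y.Pair2

/-!
# Gradings given by the products of two eigenvalues of an operator
-/

set_option autoImplicit false
set_option linter.unusedSectionVars false
set_option linter.unusedVariables false

namespace Pool.Agent.Helper43y

open Module Polynomial
open Pool.Agent.N183.U5
open Pool.Agent.W548.Odd (rk)

noncomputable section

variable {V : Type} [AddCommGroup V] [Module ℂ V] [FiniteDimensional ℂ V] {n : ℕ}

/-- A space of endomorphisms which is normalized by a diagonalizable operator is graded. -/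
theorem cmp_mem {𝔤 : Submodule ℂ (End ℂ V)} {γ γ' : End ℂ V} (h2 : γ' * γ = 1)
    (hn : ∀ X ∈ 𝔤, γ * X * γ' ∈ 𝔤) (w : Basis (Fin n) ℂ V) (α : Fin n → ℂˣ)
    (hw : ∀ i, γ (w i) = (α i : ℂ) • w i) {h : Fin n → ℤ}
    (hC : ∀ i j k l, α i * α j = α k * α l → h i + h j = h k + h l) (F : ℤ → ℂ) :
    ∀ X ∈ 𝔤, cmp w h F X ∈ 𝔤 := by
  classical
  have hγ' : ∀ i, γ' (w i) = ((α i)⁻¹ : ℂˣ) • w i := by
    intro i
    have h5 : γ' (γ (w i)) = w i := by
      rw [← Module.End.mul_apply, h2, Module.End.one_apply]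
    rw [hw, map_smul] at h5
    have h6 : ((α i)⁻¹ : ℂˣ) • ((α i : ℂ) • γ' (w i)) = γ' (w i) := by
      rw [Units.smul_def, smul_smul, Units.inv_mul, one_smul]
    rw [h5] at h6
    exact h6.symm
  have hco : ∀ y i, w.repr (γ y) i = (α i : ℂ) * w.repr y i := by
    intro y i
    have h5 : (w.coord i).comp γ = (α i : ℂ) • w.coord i := by
      refine w.ext fun j => ?_
      rw [LinearMap.comp_apply, hw, LinearMap.smul_apply, map_smul, Basis.coord_apply,
        w.repr_self, smul_eq_mul, smul_eq_mul, Finsupp.single_apply]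
      split_ifs with h6
      · rw [h6]
      · rw [mul_zero, mul_zero]
    exact LinearMap.congr_fun h5 y
  have hAd : ∀ (X : End ℂ V) i j, w.repr (Adj γ γ' X (w j)) i =
      ((α i / α j : ℂˣ) : ℂ) * w.repr (X (w j)) i := by
    intro X i j
    rw [Adj_apply, Module.End.mul_apply, Module.End.mul_apply, hγ', Units.smul_def, map_smul,
      hco, map_smul, Finsupp.smul_apply, smul_eq_mul,
      div_eq_mul_inv (α i) (α j), Units.val_mul]
    ring
  have hAdn : ∀ (m : ℕ) (X : End ℂ V) i j, w.repr ((Adj γ γ' ^ m) X (w j)) i =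
      ((α i / α j : ℂˣ) : ℂ) ^ m * w.repr (X (w j)) i := by
    intro m
    induction m with
    | zero =>
      intro X i j
      rw [pow_zero, Module.End.one_apply, pow_zero, one_mul]
    | succ m ih =>
      intro X i j
      rw [pow_succ', Module.End.mul_apply, hAd, ih, pow_succ]
      ring
  have hAdP : ∀ (P : ℂ[X]) (X : End ℂ V) i j, w.repr (aeval (Adj γ γ') P X (w j)) i =
      P.eval ((α i / α j : ℂˣ) : ℂ) * w.repr (X (w j)) i := by
    intro P X i j
    rw [aeval_eq_sum_range, eval_eq_sum_range, LinearMap.sum_apply, LinearMap.sum_apply, map_sum,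
      Finsupp.finsetSum_apply, Finset.sum_mul]
    refine Finset.sum_congr rfl fun m _ => ?_
    rw [LinearMap.smul_apply, LinearMap.smul_apply, map_smul, Finsupp.smul_apply, hAdn,
      smul_eq_mul]
    ring
  let s : Finset ℂ := Finset.univ.image fun p : Fin n × Fin n => ((α p.1 / α p.2 : ℂˣ) : ℂ)
  let f : ℂ → ℂ := fun ρ => if hρ : ∃ p : Fin n × Fin n, ((α p.1 / α p.2 : ℂˣ) : ℂ) = ρ then
    F (h hρ.choose.1 - h hρ.choose.2) else 0
  have hf : ∀ i j, f ((α i / α j : ℂˣ) : ℂ) = F (h i - h j) := by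
    intro i j
    have hρ : ∃ p : Fin n × Fin n, ((α p.1 / α p.2 : ℂˣ) : ℂ) = ((α i / α j : ℂˣ) : ℂ) :=
      ⟨(i, j), rfl⟩
    have h5 : f ((α i / α j : ℂˣ) : ℂ) = F (h hρ.choose.1 - h hρ.choose.2) := dif_pos hρ
    rw [h5]
    congr 1
    have h6 := Units.ext hρ.choose_spec
    rw [div_eq_div_iff_mul_eq_mul] at h6
    have h7 := hC _ _ _ _ h6
    linarith
  let P : ℂ[X] := Lagrange.interpolate s id f
  have hP : ∀ i j, P.eval ((α i / α j : ℂˣ) : ℂ) = F (h i - h j) := by
    intro i j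
    have h5 := Lagrange.eval_interpolate_at_node (s := s) (v := (id : ℂ → ℂ))
      (i := ((α i / α j : ℂˣ) : ℂ)) f Function.injective_id.injOn
      (Finset.mem_image.2 ⟨(i, j), Finset.mem_univ _, rfl⟩)
    change P.eval ((α i / α j : ℂˣ) : ℂ) = f ((α i / α j : ℂˣ) : ℂ) at h5
    rw [h5, hf]
  intro X hX
  have h1 : cmp w h F X = aeval (Adj γ γ') P X := by
    refine ext_repr w fun i j => ?_
    rw [cmp_repr, hAdP, hP]
  rw [h1]
  exact Adj_aeval_mem hn P hX

/-- Irreducible Lie algebras which are normalised by an operator with a coprime set of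
eigenvalues. -/
theorem rk1_of_cop {𝔤 : Submodule ℂ (End ℂ V)} (hbr : ∀ X ∈ 𝔤, ∀ Y ∈ 𝔤, X * Y - Y * X ∈ 𝔤)
    (hirr : ∀ W : Submodule ℂ V, (∀ X ∈ 𝔤, X * X = (1 / 4 : ℂ) • 1 → ∀ u ∈ W, X u ∈ W) →
      W = ⊥ ∨ W = ⊤)
    (hgen : ∀ L : Submodule ℂ (End ℂ V), (∀ X ∈ 𝔤, X * X = 1 → X ∈ L) →
      (∀ X ∈ L, ∀ Y ∈ L, X * Y - Y * X ∈ L) → 𝔤 ≤ L)
    {γ γ' : End ℂ V} (h2 : γ' * γ = 1) (hn : ∀ X ∈ 𝔤, γ * X * γ' ∈ 𝔤)
    (w : Basis (Fin n) ℂ V) (α : Fin n → ℂˣ)
    (hw : ∀ i, γ (w i) = (α i : ℂ) • w i) {h : Fin n → ℤ}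
    (hC : ∀ i j k l, α i * α j = α k * α l → h i + h j = h k + h l)
    (h01 : ∀ i, h i = 0 ∨ h i = 1) (h3 : ∃ i, h i = 0) (h4 : ∃ i, h i = 1)
    (hcop : Nat.Coprime (Nat.card {i // h i = 1}) n) : ∃ x ∈ 𝔤, rk x = 1 := by
  classical
  let ε : Fin n → ℂ := fun i => if h i = 1 then 1 else -1
  have hε2 : ∀ i, ε i * ε i = 1 := by
    intro i
    simp only [ε]
    split_ifs <;> norm_num
  have hεh : ∀ i, ε i = 2 * (h i : ℂ) - 1 := by
    intro i
    simp only [ε]
    rcases h01 i with h5 | h5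
    · rw [h5, if_neg (by norm_num)]
      norm_num
    · rw [h5, if_pos rfl]
      norm_num
  let D : End ℂ V := w.constr ℂ fun i => ε i • w i
  have hDw : ∀ i, D (w i) = ε i • w i := fun i => w.constr_basis ℂ _ i
  have hD2 : D * D = 1 := by
    refine w.ext fun i => ?_
    rw [Module.End.mul_apply, hDw, map_smul, hDw, smul_smul, hε2, one_smul, Module.End.one_apply]
  have hco : ∀ y i, w.repr (D y) i = ε i * w.repr y i := by
    intro y i
    have h5 : (w.coord i).comp D = ε i • w.coord i := by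
      refine w.ext fun j => ?_
      rw [LinearMap.comp_apply, hDw, LinearMap.smul_apply, map_smul, Basis.coord_apply,
        w.repr_self, smul_eq_mul, smul_eq_mul, Finsupp.single_apply]
      split_ifs with h6
      · rw [h6]
      · rw [mul_zero, mul_zero]
    exact LinearMap.congr_fun h5 y
  have hDX : ∀ X : End ℂ V, D * X - X * D = cmp w h (fun k => 2 * (k : ℂ)) X := by
    intro X
    refine ext_repr w fun i j => ?_
    rw [cmp_repr, LinearMap.sub_apply, Module.End.mul_apply, Module.End.mul_apply, hDw, map_sub,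
      Finsupp.sub_apply, hco, map_smul, map_smul, Finsupp.smul_apply, smul_eq_mul, hεh, hεh]
    push_cast
    ring
  have hcard : Nat.card {i // h i = 1} = (Finset.univ.filter fun i => h i = 1).card := by
    rw [Nat.card_eq_fintype_card, Fintype.card_subtype]
  have hadd : (Finset.univ.filter fun i => h i = 1).card +
      (Finset.univ.filter fun i => ¬h i = 1).card = n := by
    rw [Finset.card_filter_add_card_filter_not, Finset.card_univ, Fintype.card_fin]
  have hfr : finrank ℂ V = n := by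
    rw [finrank_eq_card_basis w, Fintype.card_fin]
  refine rk1_of_invol hbr hirr hgen hD2 (fun X hX => by
    rw [hDX]
    exact cmp_mem h2 hn w α hw hC _ X hX) (a := (Finset.univ.filter fun i => h i = 1).card)
    (b := (Finset.univ.filter fun i => ¬h i = 1).card) ?_ (by rw [hfr, hadd]) ?_ ?_ ?_
  · rw [LinearMap.trace_eq_matrix_trace ℂ w, Matrix.trace]
    have h5 : ∀ i, Matrix.diag (LinearMap.toMatrix w w D) i = ε i := by
      intro i
      rw [Matrix.diag_apply, LinearMap.toMatrix_apply, hDw, map_smul, Finsupp.smul_apply,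
        w.repr_self, Finsupp.single_eq_same, smul_eq_mul, mul_one]
    rw [Finset.sum_congr rfl fun i _ => h5 i]
    simp only [ε]
    rw [Finset.sum_ite]
    simp
    ring
  · obtain ⟨i, hi⟩ := h4
    exact Finset.card_pos.2 ⟨i, Finset.mem_filter.2 ⟨Finset.mem_univ _, hi⟩⟩
  · obtain ⟨i, hi⟩ := h3
    refine Finset.card_pos.2 ⟨i, Finset.mem_filter.2 ⟨Finset.mem_univ _, ?_⟩⟩
    rw [hi]
    norm_num
  · rw [hcard] at hcop
    refine (Nat.coprime_self_add_right).1 ?_
    rw [hadd]
    exact hcop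

end

end Pool.Agent.Helper43y
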