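import Mathlib
import Pool.Agent.N183.U6.Cls
import Pool.Agent.Helper43y.Grd
import Pool.Agent.Helper43y.Stm

/-!
# Elements of rank one from the products of two eigenvalues
-/

set_option linter.unusedSectionVars false
set_option linter.unusedVariables false

namespace Pool.Agent.Helper43y

open Matrix Module Pool.Agent.W437.HC Pool.Agent.W437.HD Pool.Agent.W548.Odd Pool.Agent.W522.U
open Pool.Agent.H204R3.SP Pool.Agent.H204R3.GP Pool.Agent.Y90 Pool.Agent.Y224.TS TensorProduct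
open Pool.Agent.Y224.TS.St (IsHodgeTate IsTateModule)
open Pool.Agent.W437.HP (cK cK_mul cK_one)
open Pool.Agent.R915 (VE mem_VE VE_cj VE_main VE_stab commL_of pd_sig eig_conj root_conj hom_iff
  hom_iff' CentM aeval_eig RealMax)
open Pool.Agent.N183.TS Pool.Agent.N183.U5 Pool.Agent.N183.U6
open Polynomial

noncomputable section

section loc

variable {G : ℕ} {Z : Matrix (Fin G) (Fin G) ℂ}
  {S : Set (Matrix (Fin G ⊕ Fin G) (Fin G ⊕ Fin G) ℂ)}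

/-- Elements of rank one in the presence of an operator with a coprime set of eigenvalues. -/
theorem rk1T_cop (h : TD Z S) (hZ : PM Z) {U : Submodule ℂ (Fin G ⊕ Fin G → ℂ)}
    (hU : IrS (LZ Z) U) (hn : 2 ≤ finrank ℂ U)
    {t t' : Matrix (Fin G ⊕ Fin G) (Fin G ⊕ Fin G) ℂ} (h2 : t' * t = 1)
    (hN : ∀ X ∈ Y224.TS.LT S, t * X * t' ∈ Y224.TS.LT S)
    (htU : ∀ u ∈ U, t *ᵥ u ∈ U) (htU' : ∀ u ∈ U, t' *ᵥ u ∈ U)
    {n : ℕ} (w : Basis (Fin n) ℂ U) (α : Fin n → ℂˣ)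
    (hw : ∀ i, t *ᵥ (w i : Fin G ⊕ Fin G → ℂ) = (α i : ℂ) • (w i : Fin G ⊕ Fin G → ℂ))
    {f : Fin n → ℤ} (hC : ∀ i j k l, α i * α j = α k * α l → f i + f j = f k + f l)
    (h01 : ∀ i, f i = 0 ∨ f i = 1) (h3 : ∃ i, f i = 0) (h4 : ∃ i, f i = 1)
    (hcop : Nat.Coprime (Nat.card {i // f i = 1}) n) : Rk1T S U := by
  have hU' : IrS (Y224.TS.LT S) U := (h.irS hZ).2 hU
  suffices key : ∃ x ∈ resL (Y224.TS.LT S) U, rk x = 1 by
    obtain ⟨x, hx, hx1⟩ := key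
    exact rk1T_of_rk h hZ hU hn hx hx1
  refine rk1_of_cop (𝔤 := resL (Y224.TS.LT S) U)
    (resL_br (fun X hX Y hY => LT_br hX hY) U) (res_irr h.sq hU')
    (fun L hL1 hL2 => res_ind hU'.2.1 L (fun D hD => hL1 _ ⟨D, LT_gen hD, fun u => rfl⟩
      (res_sq (h.sq D hD) _)) hL2)
    (γ := resM t U htU) (γ' := resM t' U htU') (by
      refine LinearMap.ext fun u => Subtype.ext ?_
      rw [Module.End.mul_apply, resM_coe, resM_coe, mulVec_mulVec, h2, one_mulVec]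
      rfl) ?_ w α (fun i => Subtype.ext ?_) hC h01 h3 h4 hcop
  · rintro Y ⟨X, hX, hXY⟩
    refine ⟨_, hN X hX, fun u => ?_⟩
    rw [Module.End.mul_apply, Module.End.mul_apply, resM_coe, hXY, resM_coe, mulVec_mulVec,
      mulVec_mulVec]
  · exact hw i

/-- Elements of rank one in the presence of an operator with an isolated pair of eigenvalues. -/
theorem rk1T_pair (h : TD Z S) (hZ : PM Z) {U : Submodule ℂ (Fin G ⊕ Fin G → ℂ)}
    (hU : IrS (LZ Z) U) (hn : 2 ≤ finrank ℂ U)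
    {b : (Fin G ⊕ Fin G → ℂ) →ₗ[ℂ] (Fin G ⊕ Fin G → ℂ) →ₗ[ℂ] ℂ} (halt : ∀ u ∈ U, b u u = 0)
    (hb : ∀ X ∈ Y224.TS.LT S, ∀ u ∈ U, ∀ v ∈ U, b (X *ᵥ u) v + b u (X *ᵥ v) = 0)
    (hb0 : ∃ u ∈ U, ∃ v ∈ U, b u v ≠ 0)
    {t t' : Matrix (Fin G ⊕ Fin G) (Fin G ⊕ Fin G) ℂ} (h2 : t' * t = 1)
    (hN : ∀ X ∈ Y224.TS.LT S, t * X * t' ∈ Y224.TS.LT S)
    (htU : ∀ u ∈ U, t *ᵥ u ∈ U) (htU' : ∀ u ∈ U, t' *ᵥ u ∈ U)
    {n : ℕ} (w : Basis (Fin n) ℂ U) (α : Fin n → ℂˣ)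
    (hw : ∀ i, t *ᵥ (w i : Fin G ⊕ Fin G → ℂ) = (α i : ℂ) • (w i : Fin G ⊕ Fin G → ℂ))
    {i0 i1 : Fin n} (hne : i0 ≠ i1)
    (hC : ∀ i j k l, α i * α j = α k * α l →
      hp i0 i1 i + hp i0 i1 j = hp i0 i1 k + hp i0 i1 l) : Rk1T S U := by
  have hU' : IrS (Y224.TS.LT S) U := (h.irS hZ).2 hU
  obtain ⟨x, hx, hx1⟩ := rk1_of_pair (𝔤 := resL (Y224.TS.LT S) U)
    (resL_br (fun X hX Y hY => LT_br hX hY) U)
    (fun W hW => res_irr h.sq hU' W fun X hX _ => hW X hX)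
    (T := b.compl₁₂ U.subtype U.subtype) (by
      intro h0
      obtain ⟨u, hu, v, hv, huv⟩ := hb0
      exact huv (LinearMap.congr_fun (LinearMap.congr_fun h0 ⟨u, hu⟩) ⟨v, hv⟩))
    (fun x => halt x x.2) (by
      rintro Y ⟨X, hX, hXY⟩ x y
      change b ((Y x : U) : Fin G ⊕ Fin G → ℂ) y + b x ((Y y : U) : Fin G ⊕ Fin G → ℂ) = 0
      rw [hXY, hXY]
      exact hb X hX x x.2 y y.2)
    w hne (cmp_mem (γ := resM t U htU) (γ' := resM t' U htU') (by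
      refine LinearMap.ext fun u => Subtype.ext ?_
      rw [Module.End.mul_apply, resM_coe, resM_coe, mulVec_mulVec, h2, one_mulVec]
      rfl) (by
        rintro Y ⟨X, hX, hXY⟩
        refine ⟨_, hN X hX, fun u => ?_⟩
        rw [Module.End.mul_apply, Module.End.mul_apply, resM_coe, hXY, resM_coe, mulVec_mulVec,
          mulVec_mulVec]) w α (fun i => Subtype.ext (hw i)) hC)
  exact rk1T_of_rk h hZ hU hn hx hx1

end loc

section real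

open scoped ComplexOrder

variable {a : ℕ} {Z' : Matrix (Fin a) (Fin a) ℂ}

/-- The Riemann form does not vanish on a real eigenspace. -/
theorem om_real (h' : PM Z') {M : Matrix (Fin a ⊕ Fin a) (Fin a ⊕ Fin a) ℚ} {s : ℂ}
    (hs : cc s = s) (hM : qm M * DZ Z' = DZ Z' * qm M) (hne : VE M s ≠ ⊥) :
    ∃ u ∈ VE M s, ∃ v ∈ VE M s, om a u v ≠ 0 := by
  obtain ⟨u0, hu0, hu00⟩ := Submodule.exists_mem_ne_zero_of_ne_bot hne
  have h1 : cnj u0 ∈ VE M s := by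
    have h2 : cnj u0 ∈ cjS cc (VE M s) := by
      change cnj (cnj u0) ∈ VE M s
      rwa [cnj_cnj]
    rw [VE_cj, hs] at h2
    exact h2
  refine ⟨u0, hu0, DZ Z' *ᵥ cnj u0, VE_stab hM s _ DZ_mem _ h1, fun h0 => ?_⟩
  have h2 : cnj u0 ≠ 0 := by
    intro h3
    apply hu00
    rw [← cnj_cnj u0, h3]
    funext i
    simp [cnj]
  have h3 := h'.herm_pos h2
  rw [cnj_cnj, h0, mul_zero] at h3
  exact lt_irrefl _ h3

end real

section gal

variable {K : Type} [Field K] [CharZero K] [Algebra K ℂ] {Γ : Type} [Group Γ] {X : AV}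
  {ρ : Representation K Γ (K ⊗[ℚ] X.H)} {χ : Γ →* K} {G : ℕ} {Z : Matrix (Fin G) (Fin G) ℂ}
  {b : Basis (Fin G ⊕ Fin G) ℚ X.H} {a : ℕ} {Z' : Matrix (Fin a) (Fin a) ℂ}
  {E : Matrix (Fin G ⊕ Fin G) (Fin a ⊕ Fin a) ℚ} {F : Matrix (Fin a ⊕ Fin a) (Fin G ⊕ Fin G) ℚ}

/-- The new class. -/
theorem FrobTwo.cls (h' : PM Z') (hZ : PM Z)
    (hC : Cht (X.per.comp b.equivFun.symm.toLinearMap.toAddMonoidHom) (JR Z))
    (hT : TD Z (SH X.per ρ χ b)) (hf : Fac Z Z' E F) (hs : IsSimpleAV Z')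
    (ha : 0 < a) (hi : IsHom (AVZ h') X (inc h' b E)) (k : FrobTwo X ρ (AVZ h'))
    {U : Submodule ℂ (Fin a ⊕ Fin a → ℂ)} (hU : IrS (LZ Z') U) (hn : 2 ≤ finrank ℂ U) :
    Rk1T (SF E F (SH X.per ρ χ b)) U := by
  obtain ⟨f, k, hγ⟩ := k
  obtain ⟨s0, T, hs0, hne, hT1, hT2, hTU⟩ := (k.mf h').proj h' hs ha hU
  have hTD := tdF hf hT hZ h'
  refine Rk1T.of_map hTD h' hU hT1 hT2 ?_
  have hn' : 2 ≤ finrank ℂ (VE (LinearMap.toMatrix' f) s0) := by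
    rw [← hTU, finrank_map_of_inj hT2]
    exact hn
  rw [hTU]
  have hIr := (k.mf h').irr h' hs hne
  have hst : ∀ γ' : Γ, (∀ a : X.H →ₗ[ℚ] X.H, Pool.Agent.Y90.St.IsHom X.per X.per a → ∀ v,
      ρ γ' (a.baseChange K v) = a.baseChange K (ρ γ' v)) →
      ∀ u ∈ VE (LinearMap.toMatrix' f) s0, Rf b E F ρ γ' *ᵥ u ∈ VE (LinearMap.toMatrix' f) s0 := by
    intro γ' hγ' u hu
    rw [mem_VE] at hu ⊢
    rw [mulVec_mulVec, Rf_comm hC hf hγ' (k.mf h').comm, ← mulVec_mulVec, hu, mulVec_smul]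
  have hs0' : aeval s0 (minpoly ℚ f) = 0 := by
    rw [← minpoly_mat]
    exact hs0
  obtain ⟨γ, t, hA, h1⟩ := hγ s0 hs0'
  have hg : ∀ a : X.H →ₗ[ℚ] X.H, Pool.Agent.Y90.St.IsHom X.per X.per a → ∀ v,
      ρ γ (a.baseChange K v) = a.baseChange K (ρ γ v) := hA.1
  have hmt := acts_mat h' hf hA hi
  rcases h1 with ⟨n, f1, ⟨w, α, hw, hCd⟩, h01, h3, h4, hcop⟩ |
      ⟨hR, n, i0, i1, hne', w, α, hw, hCd⟩
  · refine rk1T_cop hTD h' hIr hn' (Rf_inv hC hf hg) (fun X hX => Rf_gen (X := X) hC hf hg hT hX)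
      (hst γ hg) (hst γ⁻¹ (comm_inv hg)) (w.map (eVS h' f s0)) α (fun i => ?_) hCd h01 h3 h4 hcop
    rw [Basis.map_apply, eVS_coe, ← hmt, mt_mulVec, hw, map_smul]
  · refine rk1T_pair hTD h' hIr hn' (b := om a) (fun u _ => om_self u)
      (fun X hX u _ v _ => hTD.sp' hX u v)
      (om_real h' ((hR.rf h').real s0 hs0) (k.mf h').comm hne) (Rf_inv hC hf hg)
      (fun X hX => Rf_gen (X := X) hC hf hg hT hX)
      (hst γ hg) (hst γ⁻¹ (comm_inv hg)) (w.map (eVS h' f s0)) α (fun i => ?_) hne' hCd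
    rw [Basis.map_apply, eVS_coe, ← hmt, mt_mulVec, hw, map_smul]

end gal

end

end Pool.Agent.Helper43y
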