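import Mathlib
import Pool.Agent.N183.U8.E6
import Pool.Agent.Helper43y.Loc
import Pool.Agent.Helper43y.Iso

/-!
# Points which are not `ℓ`-Galois special: one factor with an isolated pair of eigenvalues
-/

set_option linter.unusedSectionVars false
set_option linter.unusedVariables false

namespace Pool.Agent.Helper43y

open Matrix Module Pool.Agent.W437.HC Pool.Agent.W437.HD Pool.Agent.W548.Odd
open Pool.Agent.H204R3.SP Pool.Agent.H204R3.GP Pool.Agent.Y90 Pool.Agent.Y224.TS TensorProduct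
open Pool.Agent.Y224.TS.St (IsHodgeTate IsTateModule)
open Pool.Agent.W437.HP (cK cK_mul cK_one)
open Pool.Agent.R915 (VE mem_VE descent_gen commL_of IsFactor RealMax iso_of_simple)
open Pool.Agent.N183.TS Pool.Agent.N183.U5 Pool.Agent.N183.U6 Pool.Agent.N183.U8

noncomputable section

variable {K : Type} [Field K] [CharZero K] [Algebra K ℂ] {Γ : Type} [Group Γ]

/-- The classes of simple abelian varieties without complex multiplication: the classes `GoodNC`,
the types I and II with elements of the Galois group as in `FrobTwo`, and `Wide` (type IV) with such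
elements. -/
def GoodNC2 (X : AV) (ρ : Representation K Γ (K ⊗[ℚ] X.H)) (Y : AV) : Prop :=
  GoodNC X ρ Y ∨ (((∃ a, RealMax Y a) ∨ Wide Y) ∧ FrobTwo X ρ Y)

/-- The class is stable under isogenies. -/
theorem GoodNC2.iso {X : AV} {ρ : Representation K Γ (K ⊗[ℚ] X.H)} {Y Y' : AV}
    (e : Y.H ≃ₗ[ℚ] Y'.H) (he : IsHom Y Y' e.toLinearMap) (hes : IsHom Y' Y e.symm.toLinearMap)
    (h : GoodNC2 X ρ Y') : GoodNC2 X ρ Y := by
  obtain ⟨-, h2, h3, -, -⟩ := Pool.Agent.N615.GSI1.I1 Y Y' e he hes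
  rcases h with h | ⟨h | h, h'⟩
  · exact Or.inl (GoodNC.iso e he hes h)
  · exact Or.inr ⟨Or.inl (h2 h), h'.iso e he hes⟩
  · exact Or.inr ⟨Or.inr (h3 h), h'.iso e he hes⟩

/-- The classes of the factors. -/
def GoodFor2 (X : AV) (ρ : Representation K Γ (K ⊗[ℚ] X.H)) (Y : AV) : Prop :=
  ∀ Y', IsFactor Y' X → (∃ f : Y.H →ₗ[ℚ] Y'.H, IsHom Y Y' f ∧ f ≠ 0) → GoodNC2 X ρ Y'

theorem goodFor2 {X : AV} {ρ : Representation K Γ (K ⊗[ℚ] X.H)} {Y : AV} (hY : IsFactor Y X)
    (h : GoodNC2 X ρ Y) : GoodFor2 X ρ Y := by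
  rintro Y' hY' ⟨f, hf, h0⟩
  obtain ⟨e, he, hes⟩ := iso_of_simple hY.1 hY'.1 hf h0
  exact GoodNC2.iso e.symm hes he h

section lm

variable {X : AV} {ρ : Representation K Γ (K ⊗[ℚ] X.H)} {χ : Γ →* K} {G : ℕ}
  {Z : Matrix (Fin G) (Fin G) ℂ} {b : Basis (Fin G ⊕ Fin G) ℚ X.H} {a : ℕ}
  {Z' : Matrix (Fin a) (Fin a) ℂ} {E : Matrix (Fin G ⊕ Fin G) (Fin a ⊕ Fin a) ℚ}
  {F : Matrix (Fin a ⊕ Fin a) (Fin G ⊕ Fin G) ℚ}

/-- **The local conditions.** -/
theorem GoodNC2.lm (hF4 : S_F4) (h' : PM Z') (hZ : PM Z)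
    (hC : Cht (X.per.comp b.equivFun.symm.toLinearMap.toAddMonoidHom) (JR Z))
    (hT : TD Z (SH X.per ρ χ b)) (hf : Fac Z Z' E F) (hs : R915.IsSimple (AVZ h'))
    (ha : 0 < a) (hi : IsHom (AVZ h') X (inc h' b E)) (k : GoodNC2 X ρ (AVZ h'))
    {U : Submodule ℂ (Fin a ⊕ Fin a → ℂ)} (hU : IrS (LZ Z') U) :
    Lm (SF E F (SH X.per ρ χ b)) U := by
  have hTD := tdF hf hT hZ h'
  have hs' := R915.simple_AVZ h' hs
  rcases k with k | ⟨⟨a0, ha0⟩ | k, k'⟩
  · exact GoodNC.lm hF4 h' hZ hC hT hf hs ha hi k hU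
  · have hsd := fun U (hU : IrS (LZ Z') U) => (ha0.rf h').sdu h' hs' ha hU
    have hns := fun U (hU : IrS (LZ Z') U) => R915.ns_of_sdu h' (hsd U hU)
    refine Lm.of_loc hF4 hTD h' hU (hns U hU)
      (k'.cls h' hZ hC hT hf hs' ha hi hU (two_le_of_ns hU fun c => ?_)) (Or.inl (hsd U hU))
    have h1 := hns U hU (RingEquiv.refl ℂ) c
    rwa [DS_refl'] at h1
  · exact Wide.alt hF4 h' hTD hs ha k
      (fun U hU hns hn => k'.cls h' hZ hC hT hf hs' ha hi hU hn) hU

end lm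

section part1

variable [Algebra.IsAlgebraic K ℂ] {X : AV} {E : X.H → X.H → ℚ}
  {ρ : Representation K Γ (K ⊗[ℚ] X.H)} {χ : Γ →* K}

/-- **The Lie algebra `𝔫` kills the Tate tensors.** -/
theorem kills_tate2 (hE : Pool.Agent.Y90.St.IsPolarization X.per E)
    (hρ : IsTateModule X.per E ρ χ) {Y : AV} (hX : GoodFor2 X ρ Y) {t : Module.End ℚ X.H}
    (ht : InN X E Y t) {m : ℕ} {φ : MultilinearMap K (fun _ : Fin m × Fin 2 => K ⊗[ℚ] X.H) K}
    (hφ : IsTate ρ χ m φ) : Kills (t.baseChange K) φ := by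
  classical
  obtain ⟨G, Z, hZ, b, hC, hb⟩ := exists_ppav' (AV.isAV X) hE
  have hTD : TD Z (SH X.per ρ χ b) := td_of b hb hC hρ
  obtain ⟨B, hB⟩ := exists_BE (K := K) (by
    obtain ⟨ω, hω, -⟩ := hρ.weil
    exact ⟨ω, hω⟩)
  set T := LinearMap.toMatrix b b t with hT
  have hmat : ∀ R : Matrix (Fin G ⊕ Fin G) (Fin G ⊕ Fin G) ℚ,
      LinearMap.toMatrix b b (Matrix.toLin b b R) = R := fun R => LinearMap.toMatrix_toLin _ _ _
  have hhom : ∀ R : Matrix (Fin G ⊕ Fin G) (Fin G ⊕ Fin G) ℚ, qm R * DZ Z = DZ Z * qm R →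
      IsHom X X (Matrix.toLin b b R) := fun R hR => (hom_DZ b hC _).2 (by rw [hmat]; exact hR)
  have hLT : qm T ∈ Y224.TS.LT (SH X.per ρ χ b) := by
    refine part1_m hTD hZ (fun R hR => ?_) (om_of_mat ((skew_iff b hB hb t).1 ht.skew))
      (fun R hR => ?_) ?_
    · have h1 := congrArg (LinearMap.toMatrix b b) (ht.comm _ (hhom R hR))
      rw [LinearMap.toMatrix_mul, LinearMap.toMatrix_mul, hmat, ← hT] at h1
      rw [← qm_mul', h1, qm_mul']
    · have h1 := ht.trace _ (hhom R hR)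
      rw [LinearMap.trace_eq_matrix_trace ℚ b, LinearMap.toMatrix_mul, hmat, ← hT] at h1
      rw [← qm_mul', trace_qm, h1, Rat.cast_zero]
    · intro a Z' E' F' hf h' hs ha hne U hU
      obtain ⟨hi, hfa, p, hp, hpv⟩ := fac_hom b hC h' hf hs ha
      refine GoodNC2.lm leafF4 h' hZ hC hTD hf (R915.simple_of a h' hs ha) ha hi (hX _ hfa ?_) hU
      by_contra hcon
      push Not at hcon
      apply hne
      have hc : qm (E' * F') * DZ Z = DZ Z * qm (E' * F') := by
        have h1 : qm (E' * F') = cK ℂ E' * cK ℂ F' := by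
          rw [← cK_mul]
          rfl
        rw [h1, Matrix.mul_assoc, hf.fd, ← Matrix.mul_assoc, ← hf.de, Matrix.mul_assoc]
      have h1 := ht.supp _ (hhom _ hc) (fun i hi' => by
        have h2 : p ∘ₗ i = 0 := hcon _ (R915.IsHom.comp' hp hi')
        refine LinearMap.ext fun y => ?_
        rw [LinearMap.comp_apply, LinearMap.zero_apply]
        have h3 : F' *ᵥ b.equivFun (i y) = 0 := by
          rw [← hpv]
          exact LinearMap.congr_fun h2 y
        have h4 : b.equivFun (Matrix.toLin b b (E' * F') (i y)) = 0 := by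
          have h5 := LinearMap.toMatrix_mulVec_repr b b (Matrix.toLin b b (E' * F')) (i y)
          rw [hmat] at h5
          change _ = b.equivFun _ at h5
          rw [← h5]
          change (E' * F') *ᵥ b.equivFun (i y) = 0
          rw [← mulVec_mulVec, h3, mulVec_zero]
        exact (LinearEquiv.map_eq_zero_iff _).1 h4)
      have h2 := congrArg (LinearMap.toMatrix b b) h1
      rw [LinearMap.toMatrix_mul, hmat, ← hT, map_zero] at h2
      have h3 : qm T * qm (E' * F') = 0 := by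
        rw [← qm_mul', h2]
        ext i j
        simp [qm]
      have h4 : qm (E' * F') = cK ℂ E' * cK ℂ F' := by
        rw [← cK_mul]
        rfl
      rwa [h4] at h3
  have hk := kills_LT (FC_kills b φ hφ) hLT
  intro v
  have hinj : Function.Injective (algebraMap K ℂ) := (algebraMap K ℂ).injective
  apply hinj
  rw [map_zero, map_sum]
  have h1 := hk fun k => eY K b ((1 : ℂ) ⊗ₜ[K] v k)
  rw [← h1]
  refine Finset.sum_congr rfl fun k _ => ?_
  rw [← bcm_one (Ω := ℂ) (bV K b) φ, ← FC_e b φ]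
  congr 1
  funext l
  by_cases hl : l = k
  · subst hl
    rw [Function.update_self, Function.update_self]
    change _ = qm T *ᵥ _
    rw [hT, ← mt_bc2 (K := K) b t, mt_mulVec, LinearMap.baseChange_tmul]
  · rw [Function.update_of_ne hl, Function.update_of_ne hl]

/-- **The Lie algebra `𝔫` contains an element which does not commute with the complex structure.** -/
theorem exists_def2 (hE : Pool.Agent.Y90.St.IsPolarization X.per E)
    (hρ : IsTateModule X.per E ρ χ) {Y : AV} (hY : IsFactor Y X) (hX : GoodFor2 X ρ Y) :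
    ∃ t, InN X E Y t ∧ ¬ IsHom X X t := by
  classical
  obtain ⟨G, Z, hZ, b, hC, hb⟩ := exists_ppav' (AV.isAV X) hE
  have hTD : TD Z (SH X.per ρ χ b) := td_of b hb hC hρ
  obtain ⟨B, hB⟩ := exists_BE (K := K) (by
    obtain ⟨ω, hω, -⟩ := hρ.weil
    exact ⟨ω, hω⟩)
  have hmat : ∀ R : Matrix (Fin G ⊕ Fin G) (Fin G ⊕ Fin G) ℚ,
      LinearMap.toMatrix b b (Matrix.toLin b b R) = R := fun R => LinearMap.toMatrix_toLin _ _ _
  have hmatv : ∀ (R : Matrix (Fin G ⊕ Fin G) (Fin G ⊕ Fin G) ℚ) (v : X.H),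
      b.equivFun (Matrix.toLin b b R v) = R *ᵥ b.equivFun v := by
    intro R v
    have h5 := LinearMap.toMatrix_mulVec_repr b b (Matrix.toLin b b R) v
    rw [hmat] at h5
    exact h5.symm
  obtain ⟨hYs, i₀, hi₀, hi₀'⟩ := hY
  obtain ⟨y₀, hy₀⟩ := hYs.1
  -- a simple factor
  obtain ⟨a, Z', E', F', hf, h', hs, ha, u, hu, hu0⟩ := exists_fac hZ
    (U := Submodule.span ℂ {w | ∃ y, w = Pool.Agent.Y90.cv (b.equivFun (i₀ y))}) (fun h1 => by
      have h2 : Pool.Agent.Y90.cv (b.equivFun (i₀ y₀)) ∈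
          (⊥ : Submodule ℂ (Fin G ⊕ Fin G → ℂ)) := by
        rw [← h1]
        exact Submodule.subset_span ⟨y₀, rfl⟩
      rw [Submodule.mem_bot] at h2
      apply hy₀
      apply hi₀'
      rw [map_zero]
      apply b.equivFun.injective
      rw [map_zero]
      funext i
      have h3 := congrFun h2 i
      change ((b.equivFun (i₀ y₀) i : ℚ) : ℂ) = 0 at h3
      exact_mod_cast h3)
  obtain ⟨hi, hfa, p, hp, hpv⟩ := fac_hom b hC h' hf hs ha
  obtain ⟨y₁, hy₁⟩ : ∃ y, p (i₀ y) ≠ 0 := by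
    by_contra hcon
    push Not at hcon
    apply hu0
    have h1 : Submodule.span ℂ {w | ∃ y, w = Pool.Agent.Y90.cv (b.equivFun (i₀ y))} ≤
        LinearMap.ker (ml F') := by
      rw [Submodule.span_le]
      rintro _ ⟨y, rfl⟩
      change ml F' (Pool.Agent.Y90.cv (b.equivFun (i₀ y))) = 0
      have h2 := hcon y
      rw [hpv] at h2
      rw [ml_apply]
      have h3 : cK ℂ F' *ᵥ Pool.Agent.Y90.cv (b.equivFun (i₀ y)) =
          Pool.Agent.Y90.cv (F' *ᵥ b.equivFun (i₀ y)) := by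
        funext i
        simp [Pool.Agent.Y90.cv, cK, Matrix.mulVec, dotProduct]
      rw [h3, h2]
      funext i
      change (((0 : Fin a ⊕ Fin a → ℚ) i : ℚ) : ℂ) = 0
      rw [Pi.zero_apply, Rat.cast_zero]
    exact LinearMap.mem_ker.1 (h1 hu)
  have hf₀ : IsHom Y (AVZ h') (p ∘ₗ i₀) := R915.IsHom.comp' hp hi₀
  have hf₀0 : p ∘ₗ i₀ ≠ 0 := fun h1 => hy₁ (LinearMap.congr_fun h1 y₁)
  have hsurj : Function.Surjective (p ∘ₗ i₀) := by
    rw [← LinearMap.range_eq_top]
    rcases hfa.1.2 _ (R915.isSub_range hf₀) with h1 | h1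
    · exact absurd (LinearMap.range_eq_bot.1 h1) hf₀0
    · exact h1
  have hL : ∀ U, IrS (LZ Z') U → Lm (SF E' F' (SH X.per ρ χ b)) U := fun U hU =>
    GoodNC2.lm leafF4 h' hZ hC hTD hf hfa.1 ha hi (hX _ hfa ⟨_, hf₀, hf₀0⟩) hU
  obtain ⟨T, hT1, hT2, hT3, hT4, hT5⟩ := part2_m hTD hZ hf h' ha hL fun U hU c =>
    ns_DZ (tdF hf hTD hZ h') h' hU (hL U hU).ns c
  have hinj := (LinearMap.toMatrix b b).injective
  refine ⟨Matrix.toLin b b T, ⟨fun f hf' => ?_, ?_, fun f hf' => ?_, fun f hf' hfi => ?_⟩,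
    fun h1 => ?_⟩
  · apply hinj
    rw [LinearMap.toMatrix_mul, LinearMap.toMatrix_mul, hmat]
    exact hT1 _ ((hom_DZ b hC f).1 hf')
  · rw [skew_iff b hB hb, hmat]
    exact hT2
  · rw [LinearMap.trace_eq_matrix_trace ℚ b, LinearMap.toMatrix_mul, hmat]
    exact hT3 _ ((hom_DZ b hC f).1 hf')
  · apply hinj
    rw [LinearMap.toMatrix_mul, hmat, map_zero]
    refine hT4 _ ((hom_DZ b hC f).1 hf') fun R' hR' => ?_
    have hR'h : IsHom X X (Matrix.toLin b b R') := (hom_DZ b hC _).2 (by rw [hmat]; exact hR')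
    have h1 := hfi _ (R915.IsHom.comp' hR'h (R915.IsHom.comp' hi hf₀))
    refine Matrix.toLin'.injective (LinearMap.ext fun x => ?_)
    obtain ⟨y, hy⟩ := hsurj x
    have h2 := LinearMap.congr_fun h1 y
    have h3 : f (Matrix.toLin b b R' (inc h' b E' ((p ∘ₗ i₀) y))) = 0 := h2
    rw [hy] at h3
    have h4 := congrArg b.equivFun h3
    have h5 : b.equivFun (f (Matrix.toLin b b R' (inc h' b E' x))) =
        LinearMap.toMatrix b b f *ᵥ (R' *ᵥ (E' *ᵥ x)) := by
      have h6 := LinearMap.toMatrix_mulVec_repr b b f (Matrix.toLin b b R' (inc h' b E' x))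
      change _ = b.equivFun _ at h6
      rw [← h6]
      change LinearMap.toMatrix b b f *ᵥ b.equivFun _ = _
      rw [hmatv]
      congr 2
      exact b.equivFun.apply_symm_apply _
    rw [h5, map_zero, mulVec_mulVec, mulVec_mulVec] at h4
    rw [Matrix.toLin'_apply, map_zero, LinearMap.zero_apply, ← Matrix.mul_assoc]
    exact h4
  · rw [hom_DZ b hC, hmat] at h1
    exact hT5 h1

end part1

end

end Pool.Agent.Helper43y
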