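import Mathlib
import Pool.Agent.Helper43y.Blk2

/-!
# Base change of forms and of direct sums
-/

set_option autoImplicit false
set_option linter.unusedSectionVars false
set_option linter.unusedVariables false

namespace Pool.Agent.Helper43y

open Module TensorProduct

noncomputable section

section bc

variable {K : Type} [Field K] [Algebra K ℂ] {V : Type} [AddCommGroup V] [Module K V]

theorem lin_ext {M : Type} [AddCommGroup M] [Module ℂ M] {S T : (ℂ ⊗[K] V) →ₗ[ℂ] M}
    (h : ∀ v, S (1 ⊗ₜ v) = T (1 ⊗ₜ v)) : S = T := by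
  refine LinearMap.ext fun z => ?_
  induction z using TensorProduct.induction_on with
  | zero => rw [map_zero, map_zero]
  | tmul a v =>
    have h1 : a ⊗ₜ[K] v = a • ((1 : ℂ) ⊗ₜ[K] v) := by rw [smul_tmul', smul_eq_mul, mul_one]
    rw [h1, map_smul, map_smul, h]
  | add x y hx hy => rw [map_add, map_add, hx, hy]

theorem bil_ext {S T : (ℂ ⊗[K] V) →ₗ[ℂ] (ℂ ⊗[K] V) →ₗ[ℂ] ℂ}
    (h : ∀ v v' : V, S (1 ⊗ₜ v) (1 ⊗ₜ v') = T (1 ⊗ₜ v) (1 ⊗ₜ v')) : S = T :=
  lin_ext fun v => lin_ext fun v' => h v v'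

/-- The base change of a form. -/
def bF (b : V →ₗ[K] V →ₗ[K] K) : (ℂ ⊗[K] V) →ₗ[ℂ] (ℂ ⊗[K] V) →ₗ[ℂ] ℂ :=
  LinearMap.BilinForm.baseChange ℂ (b : LinearMap.BilinForm K V)

theorem bF_one (b : V →ₗ[K] V →ₗ[K] K) (v v' : V) :
    bF b ((1 : ℂ) ⊗ₜ[K] v) ((1 : ℂ) ⊗ₜ[K] v') = algebraMap K ℂ (b v v') := by
  unfold bF
  rw [LinearMap.BilinForm.baseChange_tmul, mul_one, Algebra.smul_def, mul_one]

theorem bF_sym {b : V →ₗ[K] V →ₗ[K] K} {e : K} (h : ∀ x y, b x y = e * b y x)
    (x y : ℂ ⊗[K] V) : bF b x y = algebraMap K ℂ e * bF b y x := by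
  have h1 : bF b = algebraMap K ℂ e • (bF b).flip := by
    refine bil_ext fun v v' => ?_
    rw [LinearMap.smul_apply, LinearMap.smul_apply, LinearMap.flip_apply, bF_one, bF_one, h,
      map_mul, smul_eq_mul]
  conv_lhs => rw [h1]
  rw [LinearMap.smul_apply, LinearMap.smul_apply, LinearMap.flip_apply, smul_eq_mul]

theorem bF_left {b b' : V →ₗ[K] V →ₗ[K] K} {P : End K V} (h : ∀ x y, b (P x) y = b' x y)
    (x y : ℂ ⊗[K] V) : bF b (P.baseChange ℂ x) y = bF b' x y := by
  have h1 : (bF b).comp (P.baseChange ℂ) = bF b' := by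
    refine bil_ext fun v v' => ?_
    rw [LinearMap.comp_apply, LinearMap.baseChange_tmul, bF_one, bF_one, h]
  rw [← h1, LinearMap.comp_apply]

theorem bF_both {b : V →ₗ[K] V →ₗ[K] K} {P : End K V} {c : K}
    (h : ∀ x y, b (P x) (P y) = c * b x y) (x y : ℂ ⊗[K] V) :
    bF b (P.baseChange ℂ x) (P.baseChange ℂ y) = algebraMap K ℂ c * bF b x y := by
  have h1 : (bF b).compl₁₂ (P.baseChange ℂ) (P.baseChange ℂ) = algebraMap K ℂ c • bF b := by
    refine bil_ext fun v v' => ?_
    rw [LinearMap.compl₁₂_apply, LinearMap.baseChange_tmul, LinearMap.baseChange_tmul, bF_one,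
      LinearMap.smul_apply, LinearMap.smul_apply, bF_one, h, map_mul, smul_eq_mul]
  have h2 := LinearMap.congr_fun (LinearMap.congr_fun h1 x) y
  rwa [LinearMap.compl₁₂_apply, LinearMap.smul_apply, LinearMap.smul_apply, smul_eq_mul] at h2

theorem bF_der {b : V →ₗ[K] V →ₗ[K] K} {X : End K V} {c : K}
    (h : ∀ x y, b (X x) y + b x (X y) = c * b x y) (x y : ℂ ⊗[K] V) :
    bF b (X.baseChange ℂ x) y + bF b x (X.baseChange ℂ y) = algebraMap K ℂ c * bF b x y := by
  have h1 : (bF b).compl₁₂ (X.baseChange ℂ) LinearMap.id +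
      (bF b).compl₁₂ LinearMap.id (X.baseChange ℂ) = algebraMap K ℂ c • bF b := by
    refine bil_ext fun v v' => ?_
    rw [LinearMap.add_apply, LinearMap.add_apply, LinearMap.compl₁₂_apply, LinearMap.compl₁₂_apply,
      LinearMap.baseChange_tmul, LinearMap.baseChange_tmul, LinearMap.id_apply, LinearMap.id_apply,
      bF_one, bF_one, LinearMap.smul_apply, LinearMap.smul_apply, bF_one, ← map_add, h, map_mul,
      smul_eq_mul]
  have h2 := LinearMap.congr_fun (LinearMap.congr_fun h1 x) y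
  rwa [LinearMap.add_apply, LinearMap.add_apply, LinearMap.compl₁₂_apply, LinearMap.compl₁₂_apply,
    LinearMap.smul_apply, LinearMap.smul_apply, smul_eq_mul] at h2

end bc

section sums

variable {K : Type} [Field K] [Algebra K ℂ] {ι : Type} [Fintype ι] [DecidableEq ι]
  {U : ι → Type} [∀ i, AddCommGroup (U i)] [∀ i, Module K (U i)]

variable (K U) in
/-- The projector to a summand. -/
def PP (i : ι) : End K (∀ i, U i) := LinearMap.single K U i ∘ₗ LinearMap.proj i

theorem PP_apply (i : ι) (x : ∀ i, U i) : PP K U i x = Pi.single i (x i) := rfl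

variable (K U) in
/-- The projector to a summand, over the complex numbers. -/
def PC (i : ι) : End ℂ (ℂ ⊗[K] ∀ i, U i) := (PP K U i).baseChange ℂ

variable (K U) in
/-- The embedding of a summand. -/
def emb (i : ι) : (ℂ ⊗[K] U i) →ₗ[ℂ] ℂ ⊗[K] ∀ i, U i := (LinearMap.single K U i).baseChange ℂ

variable (K U) in
/-- The projection to a summand. -/
def pro (i : ι) : (ℂ ⊗[K] ∀ i, U i) →ₗ[ℂ] ℂ ⊗[K] U i :=
  (LinearMap.proj (R := K) (φ := U) i).baseChange ℂ

theorem PP_idem (i : ι) (x : ∀ i, U i) : PP K U i (PP K U i x) = PP K U i x := by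
  rw [PP_apply, PP_apply, Pi.single_eq_same]

theorem PC_idem (i : ι) (z : ℂ ⊗[K] ∀ i, U i) : PC K U i (PC K U i z) = PC K U i z := by
  have h1 : PC K U i ∘ₗ PC K U i = PC K U i := by
    refine lin_ext fun v => ?_
    unfold PC
    rw [LinearMap.comp_apply, LinearMap.baseChange_tmul, LinearMap.baseChange_tmul, PP_idem]
  exact LinearMap.congr_fun h1 z

theorem emb_pro (i : ι) (z : ℂ ⊗[K] ∀ i, U i) : emb K U i (pro K U i z) = PC K U i z := by
  have h1 : emb K U i ∘ₗ pro K U i = PC K U i := by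
    refine lin_ext fun v => ?_
    unfold emb pro PC
    rw [LinearMap.comp_apply, LinearMap.baseChange_tmul, LinearMap.baseChange_tmul,
      LinearMap.baseChange_tmul]
    rfl
  exact LinearMap.congr_fun h1 z

theorem pro_emb (i : ι) (z : ℂ ⊗[K] U i) : pro K U i (emb K U i z) = z := by
  have h1 : pro K U i ∘ₗ emb K U i = LinearMap.id := by
    refine lin_ext fun v => ?_
    unfold emb pro
    rw [LinearMap.comp_apply, LinearMap.baseChange_tmul, LinearMap.baseChange_tmul,
      LinearMap.id_apply]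
    congr 1
    exact Pi.single_eq_same i v
  exact LinearMap.congr_fun h1 z

theorem PC_emb (i : ι) (z : ℂ ⊗[K] U i) : PC K U i (emb K U i z) = emb K U i z := by
  rw [← emb_pro, pro_emb]

theorem PC_emb_ne {i j : ι} (hij : i ≠ j) (z : ℂ ⊗[K] U j) : PC K U i (emb K U j z) = 0 := by
  have h1 : PC K U i ∘ₗ emb K U j = 0 := by
    refine lin_ext fun v => ?_
    unfold emb PC
    rw [LinearMap.comp_apply, LinearMap.baseChange_tmul, LinearMap.baseChange_tmul,
      LinearMap.zero_apply, PP_apply]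
    have h2 : (LinearMap.single K U j v) i = 0 := Pi.single_eq_of_ne hij v
    rw [h2, Pi.single_zero, tmul_zero]
  exact LinearMap.congr_fun h1 z

theorem sum_PC (z : ℂ ⊗[K] ∀ i, U i) : ∑ i, PC K U i z = z := by
  have h1 : ∑ i, PC K U i = 1 := by
    refine lin_ext fun v => ?_
    rw [LinearMap.sum_apply, Module.End.one_apply]
    have h2 : ∀ i, PC K U i ((1 : ℂ) ⊗ₜ[K] v) = (1 : ℂ) ⊗ₜ[K] (Pi.single i (v i) : ∀ i, U i) :=
      fun i => LinearMap.baseChange_tmul _ _ _
    rw [Finset.sum_congr rfl fun i _ => h2 i, ← tmul_sum, Finset.univ_sum_single]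
  have h3 := LinearMap.congr_fun h1 z
  rwa [LinearMap.sum_apply] at h3

/-- The basis of a direct sum. -/
def bigB {κ : ι → Type} [∀ i, Fintype (κ i)] (s : ∀ i, Basis (κ i) ℂ (ℂ ⊗[K] U i)) :
    Basis (Σ i, κ i) ℂ (ℂ ⊗[K] ∀ i, U i) :=
  (Pi.basis s).map (TensorProduct.piRight K ℂ ℂ U).symm

theorem bigB_apply {κ : ι → Type} [∀ i, Fintype (κ i)] (s : ∀ i, Basis (κ i) ℂ (ℂ ⊗[K] U i))
    (p : Σ i, κ i) : bigB s p = emb K U p.1 (s p.1 p.2) := by
  unfold bigB
  rw [Basis.map_apply, LinearEquiv.symm_apply_eq, Pi.basis_apply]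
  obtain ⟨i, k⟩ := p
  change (Pi.single i (s i k) : ∀ i, ℂ ⊗[K] U i) = _
  have h1 : ∀ z : ℂ ⊗[K] U i, TensorProduct.piRight K ℂ ℂ U (emb K U i z) =
      (Pi.single i z : ∀ i, ℂ ⊗[K] U i) := by
    intro z
    have h2 : (TensorProduct.piRight K ℂ ℂ U).toLinearMap ∘ₗ emb K U i =
        LinearMap.single ℂ (fun i => ℂ ⊗[K] U i) i := by
      refine lin_ext fun v => ?_
      unfold emb
      rw [LinearMap.comp_apply, LinearMap.baseChange_tmul, LinearEquiv.coe_coe,
        TensorProduct.piRight_apply, TensorProduct.piRightHom_tmul]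
      funext j
      change (1 : ℂ) ⊗ₜ[K] (Pi.single i v : ∀ i, U i) j =
        (Pi.single i ((1 : ℂ) ⊗ₜ[K] v) : ∀ i, ℂ ⊗[K] U i) j
      by_cases hj : j = i
      · subst hj
        rw [Pi.single_eq_same, Pi.single_eq_same]
      · rw [Pi.single_eq_of_ne hj, Pi.single_eq_of_ne hj, tmul_zero]
    exact LinearMap.congr_fun h2 z
  rw [h1]

/-- Operators which respect the direct sum. -/
theorem bc_emb {X : End K (∀ i, U i)} {i : ι} {Y : End K (U i)}
    (h : ∀ v, X (Pi.single i v) = Pi.single i (Y v)) (z : ℂ ⊗[K] U i) :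
    X.baseChange ℂ (emb K U i z) = emb K U i (Y.baseChange ℂ z) := by
  have h1 : X.baseChange ℂ ∘ₗ emb K U i = emb K U i ∘ₗ Y.baseChange ℂ := by
    refine lin_ext fun v => ?_
    unfold emb
    rw [LinearMap.comp_apply, LinearMap.comp_apply, LinearMap.baseChange_tmul,
      LinearMap.baseChange_tmul, LinearMap.baseChange_tmul, LinearMap.baseChange_tmul]
    congr 1
    exact h v
  exact LinearMap.congr_fun h1 z

/-- A form on a summand as a form on the direct sum. -/
def bb (i : ι) (b : U i →ₗ[K] U i →ₗ[K] K) : (∀ i, U i) →ₗ[K] (∀ i, U i) →ₗ[K] K :=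
  b.compl₁₂ (LinearMap.proj i) (LinearMap.proj i)

theorem bb_apply (i : ι) (b : U i →ₗ[K] U i →ₗ[K] K) (x y : ∀ i, U i) :
    bb i b x y = b (x i) (y i) := rfl

variable [∀ i, FiniteDimensional K (U i)]

/-- The blocks of a direct sum. -/
theorem blk_of (i : ι) {b : U i →ₗ[K] U i →ₗ[K] K} {e : K} (he : e * e = 1)
    (hs : ∀ x y, b x y = e * b y x) (hn : ∀ x, (∀ y, b x y = 0) → x = 0) :
    Blk (PC K U i) (bF (bb i b)) (algebraMap K ℂ e) := by
  refine ⟨PC_idem i, fun x y => ?_, fun x y => ?_, fun z hz => ?_, ?_⟩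
  · refine bF_left (b := bb i b) (b' := bb i b) (P := PP K U i) (fun x y => ?_) x y
    rw [bb_apply, bb_apply, PP_apply, Pi.single_eq_same]
  · exact bF_sym (b := bb i b) (fun x y => hs _ _) x y
  · -- nondegeneracy
    have hinj : Function.Injective b := by
      rw [← LinearMap.ker_eq_bot, eq_bot_iff]
      intro x hx
      rw [LinearMap.mem_ker] at hx
      rw [Submodule.mem_bot]
      exact hn x fun y => by rw [hx, LinearMap.zero_apply]
    let E : U i ≃ₗ[K] Dual K (U i) := LinearEquiv.ofInjectiveOfFinrankEq b hinj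
      Subspace.dual_finrank_eq.symm
    have hE : ∀ v, E v = b v := fun v => rfl
    let s := Module.finBasis K (U i)
    let d : Fin (finrank K (U i)) → U i := fun p => E.symm (e • s.coord p)
    have hd : ∀ p x, b x (d p) = s.repr x p := by
      intro p x
      rw [hs, ← hE, E.apply_symm_apply, LinearMap.smul_apply, smul_eq_mul, ← mul_assoc, he,
        one_mul]
      rfl
    have h1 : PC K U i = ∑ p, ((bF (bb i b)).flip ((1 : ℂ) ⊗ₜ[K] Pi.single i (d p))).smulRight
        ((1 : ℂ) ⊗ₜ[K] (Pi.single i (s p) : ∀ i, U i)) := by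
      refine lin_ext fun x => ?_
      rw [LinearMap.sum_apply]
      have h2 : ∀ p, ((bF (bb i b)).flip ((1 : ℂ) ⊗ₜ[K] Pi.single i (d p))).smulRight
          ((1 : ℂ) ⊗ₜ[K] (Pi.single i (s p) : ∀ i, U i)) ((1 : ℂ) ⊗ₜ[K] x) =
          (1 : ℂ) ⊗ₜ[K] (s.repr (x i) p • (Pi.single i (s p) : ∀ i, U i)) := by
        intro p
        rw [LinearMap.smulRight_apply, LinearMap.flip_apply, bF_one, bb_apply, Pi.single_eq_same,
          hd, algebraMap_smul, tmul_smul]
      rw [Finset.sum_congr rfl fun p _ => h2 p, ← tmul_sum]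
      unfold PC
      rw [LinearMap.baseChange_tmul, PP_apply]
      congr 1
      conv_lhs => rw [← s.sum_repr (x i)]
      funext j
      by_cases hj : j = i
      · subst hj
        rw [Pi.single_eq_same, Finset.sum_apply]
        exact Finset.sum_congr rfl fun p _ => by rw [Pi.smul_apply, Pi.single_eq_same]
      · rw [Pi.single_eq_of_ne hj, Finset.sum_apply]
        exact (Finset.sum_eq_zero fun p _ => by
          rw [Pi.smul_apply, Pi.single_eq_of_ne hj, smul_zero]).symm
    rw [h1, LinearMap.sum_apply]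
    refine Finset.sum_eq_zero fun p _ => ?_
    rw [LinearMap.smulRight_apply, LinearMap.flip_apply, hz, zero_smul]
  · rw [← map_mul, he, map_one]

end sums

end

end Pool.Agent.Helper43y
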