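import Mathlib
import Pool.Agent.R918.Ell
import Pool.Agent.Helper43y.Mot1
import Pool.Agent.Helper43y.Grd

/-!
# Motives with an isolated pair of eigenvalues
-/

set_option autoImplicit false
set_option linter.unusedSectionVars false
set_option linter.unusedVariables false

namespace Pool.Agent.Helper43y

open Module TensorProduct
open Pool.Agent.Y114.RM Pool.Agent.Y114.TF

noncomputable section

section irr

variable {K : Type} [Field K] [Algebra K ℂ] {ι : Type} [Fintype ι] [DecidableEq ι]
  {U : ι → Type} [∀ i, AddCommGroup (U i)] [∀ i, Module K (U i)]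

/-- The action on a summand. -/
def prt (i : ι) : End K (∀ i, U i) →ₗ[K] End K (U i) where
  toFun X := LinearMap.proj i ∘ₗ X ∘ₗ LinearMap.single K U i
  map_add' X Y := by rw [LinearMap.add_comp, LinearMap.comp_add]
  map_smul' c X := by rw [LinearMap.smul_comp, LinearMap.comp_smul, RingHom.id_apply]

theorem prt_apply (i : ι) (X : End K (∀ i, U i)) (v : U i) :
    prt i X v = X (Pi.single i v) i := rfl

/-- The endomorphisms of the summands which commute with `𝔤` are scalars. -/
def EndSc (𝔤 : Submodule K (End K (∀ i, U i))) : Prop :=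
  ∀ (i : ι) (f : End K (U i)), (∀ X ∈ 𝔤, f * prt i X = prt i X * f) → ∃ c : K, f = c • 1

theorem single_prt {𝔤 : Submodule K (End K (∀ i, U i))}
    (hp : ∀ X ∈ 𝔤, ∀ x i, X x i = X (Pi.single i (x i)) i) {X : End K (∀ i, U i)} (hX : X ∈ 𝔤)
    (i : ι) (v : U i) : X (Pi.single i v) = Pi.single i (prt i X v) := by
  funext j
  by_cases hj : j = i
  · subst hj
    rw [Pi.single_eq_same, prt_apply]
  · rw [hp X hX, Pi.single_eq_of_ne hj, Pi.single_zero, map_zero, Pi.zero_apply,
      Pi.single_eq_of_ne hj]

variable [∀ i, FiniteDimensional K (U i)]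

/-- All operators on a summand are generated by `𝔤`. -/
theorem adjoin_top {𝔤 : Submodule K (End K (∀ i, U i))}
    (hp : ∀ X ∈ 𝔤, ∀ x i, X x i = X (Pi.single i (x i)) i)
    (hss : ∀ U', StableUnder 𝔤 U' → ∃ U'', StableUnder 𝔤 U'' ∧ IsCompl U' U'') (hE : EndSc 𝔤)
    (i : ι) (T : End K (U i)) : T ∈ Algebra.adjoin K ((𝔤.map (prt i) : Submodule K _) :
      Set (End K (U i))) := by
  refine Pool.Agent.R918.Ell.mem_adjoin_of_comm ?_ fun P hP => ?_
  · intro W hW
    obtain ⟨W', hW', hc⟩ := hss (W.map (LinearMap.single K U i)) (by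
      rintro X hX _ ⟨u, hu, rfl⟩
      refine ⟨prt i X u, hW _ ⟨X, hX, rfl⟩ u hu, ?_⟩
      exact (single_prt hp hX i u).symm)
    refine ⟨W'.comap (LinearMap.single K U i), ?_, ?_⟩
    · rintro _ ⟨X, hX, rfl⟩ u hu
      change Pi.single i (prt i X u) ∈ W'
      rw [← single_prt hp hX]
      exact hW' X hX _ hu
    · rw [isCompl_iff, disjoint_iff, codisjoint_iff, eq_bot_iff, eq_top_iff]
      constructor
      · rintro u ⟨hu, hu'⟩
        have h1 : (Pi.single i u : ∀ i, U i) ∈ W.map (LinearMap.single K U i) ⊓ W' :=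
          ⟨⟨u, hu, rfl⟩, hu'⟩
        rw [hc.inf_eq_bot, Submodule.mem_bot] at h1
        have h2 := congrFun h1 i
        rw [Pi.single_eq_same] at h2
        exact (Submodule.mem_bot K).2 h2
      · intro u _
        have h1 : (Pi.single i u : ∀ i, U i) ∈ W.map (LinearMap.single K U i) ⊔ W' := by
          rw [hc.sup_eq_top]
          exact Submodule.mem_top
        obtain ⟨_, ⟨a, ha, rfl⟩, b, hb, h2⟩ := Submodule.mem_sup.1 h1
        have h3 : u = a + (u - a) := by abel
        rw [h3]
        refine Submodule.add_mem _ (Submodule.mem_sup_left ha) (Submodule.mem_sup_right ?_)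
        change (LinearMap.single K U i) (u - a) ∈ W'
        have h4 : (LinearMap.single K U i) (u - a) = b := by
          rw [map_sub]
          change (Pi.single i u : ∀ i, U i) - _ = _
          rw [← h2]
          abel
        rw [h4]
        exact hb
  · obtain ⟨c, rfl⟩ := hE i P fun X hX => (hP _ ⟨X, hX, rfl⟩).symm
    rw [mul_smul_comm, smul_mul_assoc, mul_one, one_mul]

/-- Absolute irreducibility of the summands. -/
theorem irrC {𝔤 : Submodule K (End K (∀ i, U i))}
    (hp : ∀ X ∈ 𝔤, ∀ x i, X x i = X (Pi.single i (x i)) i)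
    (hss : ∀ U', StableUnder 𝔤 U' → ∃ U'', StableUnder 𝔤 U'' ∧ IsCompl U' U'') (hE : EndSc 𝔤)
    (i : ι) (W : Submodule ℂ (ℂ ⊗[K] ∀ i, U i)) (hW : W ≤ LinearMap.range (PC K U i))
    (hst : ∀ X ∈ 𝔤, ∀ u ∈ W, X.baseChange ℂ u ∈ W) :
    W = ⊥ ∨ W = LinearMap.range (PC K U i) := by
  set W' := W.comap (emb K U i) with hW'
  have h1 : ∀ T : End K (U i), ∀ z ∈ W', T.baseChange ℂ z ∈ W' := by
    intro T
    have h2 := adjoin_top hp hss hE i T
    refine Algebra.adjoin_induction (p := fun T _ => ∀ z ∈ W', T.baseChange ℂ z ∈ W') ?_ ?_ ?_ ?_ h2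
    · rintro _ ⟨X, hX, rfl⟩ z hz
      change emb K U i _ ∈ W
      rw [← bc_emb (single_prt hp hX i)]
      exact hst X hX _ hz
    · intro c z hz
      have h3 : (algebraMap K (End K (U i)) c).baseChange ℂ = algebraMap K ℂ c • 1 := by
        refine lin_ext fun v => ?_
        rw [LinearMap.baseChange_tmul, Module.algebraMap_end_apply, LinearMap.smul_apply,
          Module.End.one_apply, algebraMap_smul, tmul_smul]
      rw [h3, LinearMap.smul_apply]
      exact W'.smul_mem _ hz
    · intro a b _ _ ha hb z hz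
      rw [LinearMap.baseChange_add, LinearMap.add_apply]
      exact W'.add_mem (ha z hz) (hb z hz)
    · intro a b _ _ ha hb z hz
      rw [LinearMap.baseChange_mul, Module.End.mul_apply]
      exact ha _ (hb z hz)
  by_cases hb : W' = ⊥
  · left
    rw [eq_bot_iff]
    intro u hu
    obtain ⟨v, hv⟩ := hW hu
    have h2 : emb K U i (pro K U i u) = u := by rw [emb_pro, ← hv, PC_idem]
    have h3 : pro K U i u ∈ W' := by
      change emb K U i _ ∈ W
      rw [h2]
      exact hu
    rw [hb, Submodule.mem_bot] at h3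
    rw [Submodule.mem_bot, ← h2, h3, map_zero]
  · right
    obtain ⟨z, hz, hz0⟩ := Submodule.exists_mem_ne_zero_of_ne_bot hb
    let s := Module.finBasis K (U i)
    let S := s.baseChange ℂ
    have h2 : ∃ p, S.repr z p ≠ 0 := by
      by_contra hcon
      push Not at hcon
      apply hz0
      apply S.repr.injective
      rw [map_zero]
      ext p
      rw [hcon p, Finsupp.zero_apply]
    obtain ⟨p, hp'⟩ := h2
    have h3 : ∀ q, (1 : ℂ) ⊗ₜ[K] s q ∈ W' := by
      intro q
      have h4 := h1 ((s.coord p).smulRight (s q)) z hz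
      have h5 : ((s.coord p).smulRight (s q)).baseChange ℂ =
          (S.coord p).smulRight ((1 : ℂ) ⊗ₜ[K] s q) := by
        refine lin_ext fun v => ?_
        rw [LinearMap.baseChange_tmul, LinearMap.smulRight_apply, LinearMap.smulRight_apply,
          Basis.coord_apply, Basis.coord_apply, Basis.baseChange_repr_tmul, tmul_smul, smul_assoc,
          one_smul]
      rw [h5, LinearMap.smulRight_apply, Basis.coord_apply] at h4
      have h6 := W'.smul_mem (S.repr z p)⁻¹ h4
      rwa [smul_smul, inv_mul_cancel₀ hp', one_smul] at h6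
    have h4 : W' = ⊤ := by
      rw [eq_top_iff, ← S.span_eq, Submodule.span_le]
      rintro _ ⟨q, rfl⟩
      change S q ∈ W'
      rw [Basis.baseChange_apply]
      exact h3 q
    refine le_antisymm hW ?_
    rintro _ ⟨v, rfl⟩
    rw [← emb_pro]
    have h5 : pro K U i v ∈ W' := by
      rw [h4]
      trivial
    exact h5

end irr

end

end Pool.Agent.Helper43y
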