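import Mathlib
import Pool.Agent.Helper43y.Mot2

/-!
# Motives with an isolated pair of eigenvalues: the Lie algebra of the Tate tensors is everything
-/

set_option autoImplicit false
set_option linter.unusedSectionVars false
set_option linter.unusedVariables false

namespace Pool.Agent.Helper43y

open Module TensorProduct
open Pool.Agent.Y114.RM Pool.Agent.Y114.TF

noncomputable section

variable {K : Type} [Field K] [Algebra K ℂ] {ι : Type} [Fintype ι] [DecidableEq ι]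
  {U : ι → Type} [∀ i, AddCommGroup (U i)] [∀ i, Module K (U i)]

/-- The skew part. -/
def sL (b : ∀ i, U i →ₗ[K] U i →ₗ[K] K) (M : Submodule ℂ (End ℂ (ℂ ⊗[K] ∀ i, U i))) :
    Submodule ℂ (End ℂ (ℂ ⊗[K] ∀ i, U i)) where
  carrier := {x | x ∈ M ∧ ∀ i, Skw (bF (bb i (b i))) x}
  zero_mem' := ⟨M.zero_mem, fun i u v => by
    rw [LinearMap.zero_apply, LinearMap.zero_apply, map_zero, map_zero, LinearMap.zero_apply,
      add_zero]⟩
  add_mem' := fun {x y} hx hy => ⟨M.add_mem hx.1 hy.1, fun i u v => by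
    have h1 := hx.2 i u v
    have h2 := hy.2 i u v
    rw [LinearMap.add_apply, LinearMap.add_apply, map_add, map_add, LinearMap.add_apply]
    linear_combination h1 + h2⟩
  smul_mem' := fun c x hx => ⟨M.smul_mem c hx.1, fun i u v => by
    have h1 := hx.2 i u v
    rw [LinearMap.smul_apply, LinearMap.smul_apply, map_smul, map_smul, LinearMap.smul_apply,
      smul_eq_mul, smul_eq_mul]
    linear_combination c * h1⟩

theorem mem_sL {b : ∀ i, U i →ₗ[K] U i →ₗ[K] K} {M : Submodule ℂ (End ℂ (ℂ ⊗[K] ∀ i, U i))}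
    {x : End ℂ (ℂ ⊗[K] ∀ i, U i)} : x ∈ sL b M ↔ x ∈ M ∧ ∀ i, Skw (bF (bb i (b i))) x := Iff.rfl

/-- The function with the values `1`, `-1` at two indices and `0` at the other ones. -/
def hh {κ : Type} [DecidableEq κ] (a₀ a₁ a : κ) : ℤ := if a = a₀ then 1 else if a = a₁ then -1 else 0

theorem hp_eq {κ : Type} [DecidableEq κ] {N : ℕ} (f : κ ≃ Fin N) (a₀ a₁ : κ) (j : Fin N) :
    hp (f a₀) (f a₁) j = hh a₀ a₁ (f.symm j) := by
  unfold hp hh
  simp only [Equiv.symm_apply_eq]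

theorem der_bc {b : ∀ i, U i →ₗ[K] U i →ₗ[K] K} {𝔤 : Submodule K (End K (∀ i, U i))}
    {M : Submodule ℂ (End ℂ (ℂ ⊗[K] ∀ i, U i))}
    (hder : ∀ X ∈ 𝔤, ∃ c : K, (c ≠ 0 → (1 : End ℂ (ℂ ⊗[K] ∀ i, U i)) ∈ M) ∧
      ∀ (i : ι) (x y : ∀ i, U i), b i (X x i) (y i) + b i (x i) (X y i) = c * b i (x i) (y i)) :
    ∀ x ∈ bcS ℂ 𝔤, ∃ c : ℂ, (c ≠ 0 → (1 : End ℂ (ℂ ⊗[K] ∀ i, U i)) ∈ M) ∧
      ∀ i u v, bF (bb i (b i)) (x u) v + bF (bb i (b i)) u (x v) = c * bF (bb i (b i)) u v := by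
  intro x hx
  unfold bcS at hx
  induction hx using Submodule.span_induction with
  | mem x hx =>
    obtain ⟨X, hX, rfl⟩ := hx
    obtain ⟨c, h1, h2⟩ := hder X hX
    refine ⟨algebraMap K ℂ c, fun h3 => h1 fun h4 => h3 (by rw [h4, map_zero]), fun i u v => ?_⟩
    exact bF_der (b := bb i (b i)) (X := X) (c := c) (fun x y => h2 i x y) u v
  | zero =>
    refine ⟨0, fun h => absurd rfl h, fun i u v => ?_⟩
    rw [LinearMap.zero_apply, LinearMap.zero_apply, map_zero, map_zero, LinearMap.zero_apply,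
      add_zero, zero_mul]
  | add x y _ _ hx hy =>
    obtain ⟨c, h1, h2⟩ := hx
    obtain ⟨d, h3, h4⟩ := hy
    refine ⟨c + d, fun h5 => ?_, fun i u v => ?_⟩
    · by_cases hc : c = 0
      · apply h3
        rwa [hc, zero_add] at h5
      · exact h1 hc
    · have e1 := h2 i u v
      have e2 := h4 i u v
      rw [LinearMap.add_apply, LinearMap.add_apply, map_add, map_add, LinearMap.add_apply]
      linear_combination e1 + e2
  | smul a x _ hx =>
    obtain ⟨c, h1, h2⟩ := hx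
    refine ⟨a * c, fun h5 => h1 (right_ne_zero_of_mul h5), fun i u v => ?_⟩
    have e1 := h2 i u v
    rw [LinearMap.smul_apply, LinearMap.smul_apply, map_smul, map_smul, LinearMap.smul_apply,
      smul_eq_mul, smul_eq_mul]
    linear_combination a * e1

theorem comm_bc {𝔤 : Submodule K (End K (∀ i, U i))}
    (hp : ∀ X ∈ 𝔤, ∀ x i, X x i = X (Pi.single i (x i)) i) :
    ∀ x ∈ bcS ℂ 𝔤, ∀ i z, x (PC K U i z) = PC K U i (x z) := by
  intro x hx
  unfold bcS at hx
  induction hx using Submodule.span_induction with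
  | mem x hx =>
    obtain ⟨X, hX, rfl⟩ := hx
    intro i z
    have h1 : X.baseChange ℂ ∘ₗ PC K U i = PC K U i ∘ₗ X.baseChange ℂ := by
      refine lin_ext fun v => ?_
      unfold PC
      rw [LinearMap.comp_apply, LinearMap.comp_apply, LinearMap.baseChange_tmul,
        LinearMap.baseChange_tmul, LinearMap.baseChange_tmul, LinearMap.baseChange_tmul]
      congr 1
      rw [PP_apply, PP_apply, single_prt hp hX, prt_apply, ← hp X hX]
    exact LinearMap.congr_fun h1 z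
  | zero => intro i z; rw [LinearMap.zero_apply, LinearMap.zero_apply, map_zero]
  | add x y _ _ hx hy =>
    intro i z
    rw [LinearMap.add_apply, LinearMap.add_apply, hx, hy, map_add]
  | smul a x _ hx =>
    intro i z
    rw [LinearMap.smul_apply, LinearMap.smul_apply, hx, map_smul]

theorem ad_bc {L : Submodule K (End K (∀ i, U i))} {g g' : End K (∀ i, U i)}
    (h : ∀ X ∈ L, g * X * g' ∈ L) :
    ∀ x ∈ bcS ℂ L, g.baseChange ℂ * x * g'.baseChange ℂ ∈ bcS ℂ L := by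
  intro x hx
  unfold bcS at hx
  induction hx using Submodule.span_induction with
  | mem x hx =>
    obtain ⟨X, hX, rfl⟩ := hx
    rw [← LinearMap.baseChange_mul, ← LinearMap.baseChange_mul]
    exact Submodule.subset_span ⟨_, h X hX, rfl⟩
  | zero => rw [mul_zero, zero_mul]; exact Submodule.zero_mem _
  | add x y _ _ hx hy => rw [mul_add, add_mul]; exact Submodule.add_mem _ hx hy
  | smul a x _ hx => rw [mul_smul_comm, smul_mul_assoc]; exact Submodule.smul_mem _ a hx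

variable [∀ i, FiniteDimensional K (U i)]

/-- **Isolated pairs.** The Lie algebra of the Tate tensors is the motivic Lie algebra. -/
theorem full_of_pairs {𝔤 L : Submodule K (End K (∀ i, U i))}
    (hp' : ∀ X ∈ 𝔤, ∀ x i, X x i = X (Pi.single i (x i)) i)
    (hss : ∀ U', StableUnder 𝔤 U' → ∃ U'', StableUnder 𝔤 U'' ∧ IsCompl U' U'') (hE : EndSc 𝔤)
    (hLG : L ≤ 𝔤) (hLie : IsLie (bcS ℂ L))
    (hadj : ∀ x ∈ bcS ℂ 𝔤, x ∈ Algebra.adjoin ℂ (bcS ℂ L : Set (End ℂ (ℂ ⊗[K] ∀ i, U i))))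
    {b : ∀ i, U i →ₗ[K] U i →ₗ[K] K} {e : ι → K} (he : ∀ i, e i * e i = 1)
    (hs : ∀ i x y, b i x y = e i * b i y x) (hn : ∀ i x, (∀ y, b i x y = 0) → x = 0)
    (hder : ∀ X ∈ 𝔤, ∃ c : K, (c ≠ 0 → (1 : End ℂ (ℂ ⊗[K] ∀ i, U i)) ∈ bcS ℂ L) ∧
      ∀ (i : ι) (x y : ∀ i, U i), b i (X x i) (y i) + b i (x i) (X y i) = c * b i (x i) (y i))
    {g g' : End K (∀ i, U i)} (hg1 : g * g' = 1) (hg2 : g' * g = 1)
    (hAd : ∀ X ∈ L, g * X * g' ∈ L)
    {r : ∀ i, End K (U i)} (hr : ∀ i v, g (Pi.single i v) = Pi.single i (r i v))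
    {c : K} (hc : c ≠ 0)
    (hinv : ∀ (i : ι) (x y : ∀ i, U i), b i (g x i) (g y i) = c * b i (x i) (y i))
    {n : ι → ℕ} (s : ∀ i, Basis (Fin (n i)) ℂ (ℂ ⊗[K] U i)) (α : ∀ i, Fin (n i) → ℂˣ)
    (hα : ∀ i p, (r i).baseChange ℂ (s i p) = (α i p : ℂ) • s i p)
    (pairs : ∀ i, ∃ p q : Fin (n i), p ≠ q ∧ ∀ a b c d : Σ i, Fin (n i),
      α a.1 a.2 * α b.1 b.2 = α c.1 c.2 * α d.1 d.2 →
        hh (⟨i, p⟩ : Σ i, Fin (n i)) ⟨i, q⟩ a + hh (⟨i, p⟩ : Σ i, Fin (n i)) ⟨i, q⟩ b =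
          hh (⟨i, p⟩ : Σ i, Fin (n i)) ⟨i, q⟩ c + hh (⟨i, p⟩ : Σ i, Fin (n i)) ⟨i, q⟩ d) :
    bcS ℂ 𝔤 ≤ bcS ℂ L := by
  classical
  have hmono : bcS ℂ L ≤ bcS ℂ 𝔤 := Submodule.span_mono (Set.image_mono hLG)
  have hder' := der_bc hder
  have hcomm := comm_bc hp'
  -- decomposition
  have hdec : ∀ x ∈ bcS ℂ 𝔤, ∃ c : ℂ, (c ≠ 0 → (1 : End ℂ (ℂ ⊗[K] ∀ i, U i)) ∈ bcS ℂ L) ∧
      ∀ i, Skw (bF (bb i (b i))) (x - c • 1) := by
    intro x hx
    obtain ⟨c, h1, h2⟩ := hder' x hx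
    refine ⟨c / 2, fun h3 => h1 fun h4 => h3 (by rw [h4, zero_div]), fun i u v => ?_⟩
    have h3 := h2 i u v
    rw [LinearMap.sub_apply, LinearMap.sub_apply, LinearMap.smul_apply, LinearMap.smul_apply,
      Module.End.one_apply, Module.End.one_apply, map_sub, map_sub, LinearMap.sub_apply, map_smul,
      map_smul, LinearMap.smul_apply, smul_eq_mul]
    linear_combination h3
  have hone : ∀ {c : ℂ}, (c ≠ 0 → (1 : End ℂ (ℂ ⊗[K] ∀ i, U i)) ∈ bcS ℂ L) →
      c • (1 : End ℂ (ℂ ⊗[K] ∀ i, U i)) ∈ bcS ℂ L := by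
    intro c h1
    by_cases h2 : c = 0
    · rw [h2, zero_smul]
      exact Submodule.zero_mem _
    · exact Submodule.smul_mem _ _ (h1 h2)
  have hdecL : ∀ x ∈ bcS ℂ L, ∃ c : ℂ, x - c • 1 ∈ sL b (bcS ℂ L) := by
    intro x hx
    obtain ⟨c, h1, h2⟩ := hdec x (hmono hx)
    exact ⟨c, Submodule.sub_mem _ hx (hone h1), h2⟩
  have hbr : ∀ X ∈ sL b (bcS ℂ L), ∀ Y ∈ sL b (bcS ℂ L), X * Y - Y * X ∈ sL b (bcS ℂ L) := by
    intro X hX Y hY
    refine ⟨hLie X hX.1 Y hY.1, fun i u v => ?_⟩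
    have h1 := hX.2 i (Y u) v
    have h2 := hY.2 i u (X v)
    have h3 := hY.2 i (X u) v
    have h4 := hX.2 i u (Y v)
    rw [LinearMap.sub_apply, LinearMap.sub_apply, Module.End.mul_apply, Module.End.mul_apply,
      Module.End.mul_apply, Module.End.mul_apply, map_sub, map_sub, LinearMap.sub_apply]
    linear_combination h1 - h2 - h3 + h4
  -- conjugation
  have hG1 : ∀ z, g.baseChange ℂ (g'.baseChange ℂ z) = z := by
    intro z
    have h1 : g.baseChange ℂ * g'.baseChange ℂ = 1 := by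
      rw [← LinearMap.baseChange_mul, hg1, LinearMap.baseChange_one]
    exact LinearMap.congr_fun h1 z
  have hG2 : g'.baseChange ℂ * g.baseChange ℂ = 1 := by
    rw [← LinearMap.baseChange_mul, hg2, LinearMap.baseChange_one]
  have hGinv : ∀ i u v, bF (bb i (b i)) (g.baseChange ℂ u) (g.baseChange ℂ v) =
      algebraMap K ℂ c * bF (bb i (b i)) u v := fun i u v =>
    bF_both (b := bb i (b i)) (P := g) (c := c) (fun x y => hinv i x y) u v
  have had : ∀ X ∈ sL b (bcS ℂ L), g.baseChange ℂ * X * g'.baseChange ℂ ∈ sL b (bcS ℂ L) := by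
    intro X hX
    refine ⟨ad_bc hAd X hX.1, fun i u v => ?_⟩
    have h1 := hX.2 i (g'.baseChange ℂ u) (g'.baseChange ℂ v)
    have h2 := hGinv i (X (g'.baseChange ℂ u)) (g'.baseChange ℂ v)
    have h3 := hGinv i (g'.baseChange ℂ u) (X (g'.baseChange ℂ v))
    rw [hG1] at h2 h3
    rw [Module.End.mul_apply, Module.End.mul_apply, Module.End.mul_apply, Module.End.mul_apply, h2,
      h3, ← mul_add, h1, mul_zero]
  -- irreducibility
  have hirr : ∀ i, ∀ W : Submodule ℂ (ℂ ⊗[K] ∀ i, U i), W ≤ LinearMap.range (PC K U i) →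
      (∀ X ∈ sL b (bcS ℂ L), ∀ u ∈ W, X u ∈ W) → W = ⊥ ∨ W = LinearMap.range (PC K U i) := by
    intro i W hW hst
    refine irrC hp' hss hE i W hW fun X hX => ?_
    refine Algebra.adjoin_induction (p := fun T _ => ∀ z ∈ W, T z ∈ W) ?_ ?_ ?_ ?_
      (hadj _ (Submodule.subset_span ⟨X, hX, rfl⟩))
    · intro x hx z hz
      obtain ⟨c, h1⟩ := hdecL x hx
      have h2 : x z = (x - c • 1) z + c • z := by
        rw [LinearMap.sub_apply, LinearMap.smul_apply, Module.End.one_apply, sub_add_cancel]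
      rw [h2]
      exact W.add_mem (hst _ h1 z hz) (W.smul_mem c hz)
    · intro c z hz
      rw [Module.algebraMap_end_apply]
      exact W.smul_mem c hz
    · intro x y _ _ hx hy z hz
      rw [LinearMap.add_apply]
      exact W.add_mem (hx z hz) (hy z hz)
    · intro x y _ _ hx hy z hz
      rw [Module.End.mul_apply]
      exact hx _ (hy z hz)
  -- the basis of eigenvectors
  let f := Fintype.equivFin (Σ i, Fin (n i))
  let w := (bigB s).reindex f
  let β : Fin (Fintype.card (Σ i, Fin (n i))) → ℂˣ := fun j => α (f.symm j).1 (f.symm j).2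
  have hwj : ∀ j, w j = emb K U (f.symm j).1 (s (f.symm j).1 (f.symm j).2) := by
    intro j
    rw [Basis.reindex_apply, bigB_apply]
  have hw : ∀ j, g.baseChange ℂ (w j) = (β j : ℂ) • w j := by
    intro j
    rw [hwj, bc_emb (hr _), hα, map_smul]
  -- the blocks
  have hblock : ∀ i, ∀ Y : End ℂ (ℂ ⊗[K] ∀ i, U i), Skw (bF (bb i (b i))) Y →
      (∀ x, PC K U i (Y x) = Y x) → (∀ x, Y (PC K U i x) = Y x) → Y ∈ sL b (bcS ℂ L) := by
    intro i Y hY hY1 hY2
    obtain ⟨p, q, hpq, hC⟩ := pairs i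
    have hB := blk_of (U := U) i (he i) (hs i) (hn i)
    have hne : f ⟨i, p⟩ ≠ f ⟨i, q⟩ := by
      intro h1
      have h2 := f.injective h1
      rw [Sigma.mk.injEq] at h2
      exact hpq (eq_of_heq h2.2)
    have hfix : ∀ k, PC K U i (w (f ⟨i, k⟩)) = w (f ⟨i, k⟩) := by
      intro k
      rw [hwj, Equiv.symm_apply_apply]
      exact PC_emb i _
    have hC' : ∀ j k l m, β j * β k = β l * β m → hp (f ⟨i, p⟩) (f ⟨i, q⟩) j +
        hp (f ⟨i, p⟩) (f ⟨i, q⟩) k = hp (f ⟨i, p⟩) (f ⟨i, q⟩) l + hp (f ⟨i, p⟩) (f ⟨i, q⟩) m := by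
      intro j k l m h1
      rw [hp_eq, hp_eq, hp_eq, hp_eq]
      exact hC _ _ _ _ h1
    have hbl : ∀ j, PC K U i (w j) = w j ∨ PC K U i (w j) = 0 := by
      intro j
      rw [hwj]
      by_cases h1 : i = (f.symm j).1
      · left
        have h2 : ∀ k (hk : i = k) (z : ℂ ⊗[K] U k), PC K U i (emb K U k z) = emb K U k z := by
          rintro k rfl z
          exact PC_emb i z
        exact h2 _ h1 _
      · exact Or.inr (PC_emb_ne h1 _)
    refine hB.all hbr (fun X hX => hX.2 i) (fun X hX z => hcomm X (hmono hX.1) i z) (hirr i) w hne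
      (hfix p) (hfix q) hbl ?_ ?_ hY hY1 hY2
    · have hcu : ((Units.mk0 (algebraMap K ℂ c)
          (by rw [Ne, map_eq_zero]; exact hc) : ℂˣ) : ℂ) = algebraMap K ℂ c := rfl
      exact hB.hom w β hw (c := Units.mk0 (algebraMap K ℂ c) (by rw [Ne, map_eq_zero]; exact hc))
        (fun x y => by rw [hcu]; exact hGinv i x y) hne (hfix p) (hfix q) hC'
    · intro F X hX
      exact cmp_mem hG2 had w β hw hC' F X hX
  -- conclusion
  intro x hx
  obtain ⟨c, h1, h2⟩ := hdec x hx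
  have h3 : ∀ i, PC K U i * (x - c • 1) ∈ sL b (bcS ℂ L) := by
    intro i
    have hB := blk_of (U := U) i (he i) (hs i) (hn i)
    have h4 : ∀ z, (x - c • 1) (PC K U i z) = PC K U i ((x - c • 1) z) := by
      intro z
      rw [LinearMap.sub_apply, LinearMap.sub_apply, LinearMap.smul_apply, LinearMap.smul_apply,
        Module.End.one_apply, Module.End.one_apply, hcomm x hx, map_sub, map_smul]
    refine hblock i _ (fun u v => ?_) (fun z => ?_) (fun z => ?_)
    · rw [Module.End.mul_apply, Module.End.mul_apply, hB.left, hB.right]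
      exact h2 i u v
    · rw [Module.End.mul_apply, PC_idem]
    · rw [Module.End.mul_apply, Module.End.mul_apply, h4, PC_idem]
  have h4 : x = ∑ i, PC K U i * (x - c • 1) + c • 1 := by
    refine LinearMap.ext fun z => ?_
    rw [LinearMap.add_apply, LinearMap.sum_apply]
    have h5 : ∀ i, (PC K U i * (x - c • 1)) z = PC K U i ((x - c • 1) z) := fun i => rfl
    rw [Finset.sum_congr rfl fun i _ => h5 i, sum_PC, LinearMap.sub_apply, sub_add_cancel]
  rw [h4]
  exact Submodule.add_mem _ (Submodule.sum_mem _ fun i _ => (h3 i).1) (hone h1)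

end

end Pool.Agent.Helper43y
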