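import Mathlib
import Pool.Agent.N183.U5.Glb
import Pool.Agent.N183.U5.Gal

/-!
# Twisted isomorphisms and the eigenvalues of an element of the Galois group
-/

set_option linter.unusedSectionVars false
set_option linter.unusedVariables false

namespace Pool.Agent.Helper43y

open Matrix Module Pool.Agent.W437.HC Pool.Agent.W437.HD Pool.Agent.W548.Odd Pool.Agent.W522.U
open Pool.Agent.H204R3.SP Pool.Agent.H204R3.GP Pool.Agent.Y90 Pool.Agent.Y224.TS
open Pool.Agent.W437.HP (cK cK_mul cK_one)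
open Pool.Agent.R915 (CentM commL_of VE mem_VE VE_cj VE_stab aeval_eig descent_gen)
open Pool.Agent.N183.TS Pool.Agent.N183.U5

noncomputable section

/-- `z` is an eigenvalue of the matrix `R` on the subspace `W`. -/
def EigM {B : Type} [Fintype B] (R : Matrix B B ℂ) (W : Submodule ℂ (B → ℂ)) (z : ℂ) : Prop :=
  ∃ v ∈ W, v ≠ 0 ∧ R *ᵥ v = z • v

variable {G : ℕ} {Z : Matrix (Fin G) (Fin G) ℂ}
  {S : Set (Matrix (Fin G ⊕ Fin G) (Fin G ⊕ Fin G) ℂ)}

/-- The matrix `R` commutes with the commutant of the Lie algebra of the period matrix. -/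
def CC (Z : Matrix (Fin G) (Fin G) ℂ) (R : Matrix (Fin G ⊕ Fin G) (Fin G ⊕ Fin G) ℂ) : Prop :=
  ∀ Q : Matrix (Fin G ⊕ Fin G) (Fin G ⊕ Fin G) ℂ, (∀ X ∈ LZ Z, Q * X = X * Q) → Q * R = R * Q

variable {R R' : Matrix (Fin G ⊕ Fin G) (Fin G ⊕ Fin G) ℂ}

theorem cc_of_rat (h : ∀ Q : Matrix (Fin G ⊕ Fin G) (Fin G ⊕ Fin G) ℚ,
    (∀ X ∈ LZ Z, qm Q * X = X * qm Q) → qm Q * R = R * qm Q) : CC Z R := by
  intro T hT
  obtain ⟨m, c, C, h1, -, h3⟩ := descent_gen (Z := Z) (T := T) hT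
  rw [h3, Finset.sum_mul, Finset.mul_sum]
  refine Finset.sum_congr rfl fun j _ => ?_
  rw [smul_mul_assoc, mul_smul_comm, h (C j) fun X hX => (commL_of (h1 j) X hX).symm]

theorem toMat_mulVec (π : (Fin G ⊕ Fin G → ℂ) →ₗ[ℂ] (Fin G ⊕ Fin G → ℂ))
    (v : Fin G ⊕ Fin G → ℂ) : LinearMap.toMatrix' π *ᵥ v = π v := by
  rw [← Matrix.toLin'_apply, Matrix.toLin'_toMatrix']

/-- Stable subspaces. -/
theorem CC.stab (hR : CC Z R) (h : PM Z) {U : Submodule ℂ (Fin G ⊕ Fin G → ℂ)}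
    (hU : Stab (LZ Z) U) : ∀ u ∈ U, R *ᵥ u ∈ U := by
  obtain ⟨π, h1, h2, h3⟩ := h.cred U hU
  intro u hu
  have h4 := hR (LinearMap.toMatrix' π) fun X hX => (comm_mat π X).1 (h1 X hX)
  have h5 : R *ᵥ u = π (R *ᵥ u) := by
    rw [← toMat_mulVec, mulVec_mulVec, h4, ← mulVec_mulVec, toMat_mulVec, h3 u hu]
  rw [h5]
  exact h2 _

/-- The eigenvalues on an isotypic part are the eigenvalues on an irreducible submodule. -/
theorem eig_iso (h : PM Z) {M : Matrix (Fin G ⊕ Fin G) (Fin G ⊕ Fin G) ℚ} (k : CG Z M)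
    (hR : CC Z R) {U : Submodule ℂ (Fin G ⊕ Fin G → ℂ)} (hU : IrS (LZ Z) U) {θ : ℂ}
    (hθ : U ≤ VE M θ) {z : ℂ} (hz : EigM R (VE M θ) z) : EigM R U z := by
  obtain ⟨v, hv, hv0, hvz⟩ := hz
  obtain ⟨A, hA, hAU, hAv⟩ : ∃ A : Matrix (Fin G ⊕ Fin G) (Fin G ⊕ Fin G) ℂ,
      (∀ X ∈ LZ Z, A * X = X * A) ∧ (∀ w, A *ᵥ w ∈ U) ∧ A *ᵥ v ≠ 0 := by
    by_contra hcon
    push Not at hcon
    let I : Submodule ℂ (Fin G ⊕ Fin G → ℂ) :=
      { carrier := {x | x ∈ VE M θ ∧ ∀ A : Matrix (Fin G ⊕ Fin G) (Fin G ⊕ Fin G) ℂ,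
          (∀ X ∈ LZ Z, A * X = X * A) → (∀ w, A *ᵥ w ∈ U) → A *ᵥ x = 0}
        add_mem' := by
          rintro x y ⟨hx, hx'⟩ ⟨hy, hy'⟩
          refine ⟨(VE M θ).add_mem hx hy, fun A h1 h2 => ?_⟩
          rw [mulVec_add, hx' A h1 h2, hy' A h1 h2, add_zero]
        zero_mem' := ⟨(VE M θ).zero_mem, fun A _ _ => mulVec_zero A⟩
        smul_mem' := by
          rintro c x ⟨hx, hx'⟩
          refine ⟨(VE M θ).smul_mem c hx, fun A h1 h2 => ?_⟩
          rw [mulVec_smul, hx' A h1 h2, smul_zero] }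
    have hIle : I ≤ VE M θ := fun x hx => hx.1
    have hI : Stab (LZ Z) I := by
      rintro X hX x ⟨hx, hx'⟩
      refine ⟨VE_stab k.cent.1 θ X hX x hx, fun A h1 h2 => ?_⟩
      rw [mulVec_mulVec, h1 X hX, ← mulVec_mulVec, hx' A h1 h2, mulVec_zero]
    have hvI : v ∈ I := ⟨hv, fun A h1 h2 => hcon A h1 h2⟩
    have hI0 : I ≠ ⊥ := by
      intro h1
      rw [h1, Submodule.mem_bot] at hvI
      exact hv0 hvI
    obtain ⟨W, hWI, hW⟩ := exists_irS _ I rfl hI0 hI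
    obtain ⟨T, hT, hT0, hTW⟩ := k.iso h hW hU (hWI.trans hIle) hθ
    obtain ⟨π, hπ1, hπ2, hπ3⟩ := h.cred U hU.2.1
    obtain ⟨w, hw, hw0⟩ := Submodule.exists_mem_ne_zero_of_ne_bot hW.1
    have h1 := (hWI hw).2 (LinearMap.toMatrix' (π ∘ₗ T)) (fun X hX => (comm_mat _ X).1 fun y => by
      rw [LinearMap.comp_apply, hT X hX, hπ1 X hX, LinearMap.comp_apply]) (fun y => by
        rw [toMat_mulVec]
        exact hπ2 _)
    have h2 : T w ∈ U := by
      rw [← hTW]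
      exact ⟨w, hw, rfl⟩
    rw [toMat_mulVec, LinearMap.comp_apply, hπ3 _ h2] at h1
    exact hw0 (hT0 w hw h1)
  refine ⟨A *ᵥ v, hAU v, hAv, ?_⟩
  rw [mulVec_mulVec, ← hR A hA, ← mulVec_mulVec, hvz, mulVec_smul]

theorem eig_mono {B : Type} [Fintype B] {R : Matrix B B ℂ} {W W' : Submodule ℂ (B → ℂ)}
    (h : W ≤ W') {z : ℂ} (hz : EigM R W z) : EigM R W' z := by
  obtain ⟨v, hv, h1⟩ := hz
  exact ⟨v, h hv, h1⟩

/-- Operators which commute with a Lie algebra up to scalars. -/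
theorem comm_of_shift {V : Type} [AddCommGroup V] [Module ℂ V] [FiniteDimensional ℂ V]
    [Nontrivial V] {A x : End ℂ V} (hA : Function.Injective A) {d : ℂ}
    (h : A * x = x * A + d • A) : d = 0 := by
  let e : V ≃ₗ[ℂ] V := LinearEquiv.ofInjectiveEndo A hA
  have he : ∀ v, e v = A v := fun v => rfl
  have h1 : e.conj x = x + d • 1 := by
    refine LinearMap.ext fun v => ?_
    rw [LinearEquiv.conj_apply_apply, he]
    have h2 := LinearMap.congr_fun h (e.symm v)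
    rw [Module.End.mul_apply, LinearMap.add_apply, Module.End.mul_apply, LinearMap.smul_apply,
      ← he (e.symm v), e.apply_symm_apply] at h2
    rw [h2]
    rfl
  have h2 := LinearMap.trace_conj' x e
  rw [h1, map_add, map_smul, LinearMap.trace_one, smul_eq_mul] at h2
  have h3 : d * (finrank ℂ V : ℂ) = 0 := by linear_combination h2
  have h4 : (finrank ℂ V : ℂ) ≠ 0 := by
    exact_mod_cast (finrank_pos (R := ℂ) (M := V)).ne'
  exact (mul_eq_zero.1 h3).resolve_right h4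

/-- **Twisted isomorphisms multiply the eigenvalues by a constant.** -/
theorem eig_twist (h : TD Z S) (hZ : PM Z) {U U' : Submodule ℂ (Fin G ⊕ Fin G → ℂ)}
    (hU : IrS (LZ Z) U) (hU' : IrS (LZ Z) U') (hRR : R * R' = 1) (hRR' : R' * R = 1)
    (hN : ∀ X ∈ Y224.TS.LT S, R * X * R' ∈ Y224.TS.LT S) (hR : CC Z R) (hR' : CC Z R')
    {T : (Fin G ⊕ Fin G → ℂ) →ₗ[ℂ] (Fin G ⊕ Fin G → ℂ)}
    (hinj : ∀ u ∈ U, T u = 0 → u = 0) (hmap : U.map T = U')
    (hLT : ∀ X ∈ Y224.TS.LT S, ∃ c : ℂ, ∀ u ∈ U, T (X *ᵥ u) = X *ᵥ T u + c • T u) :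
    ∃ c : ℂ, ∀ z, EigM R U z ↔ EigM R U' (c * z) := by
  have hUT : IrS (Y224.TS.LT S) U := (h.irS hZ).2 hU
  have hTU : ∀ u ∈ U, T u ∈ U' := fun u hu => by
    rw [← hmap]
    exact ⟨u, hu, rfl⟩
  have hRU := hR.stab hZ hU.2.1
  have hRU' := hR'.stab hZ hU'.2.1
  let e0 : U →ₗ[ℂ] U' := T.restrict hTU
  have he0 : Function.Bijective e0 := by
    constructor
    · rw [← LinearMap.ker_eq_bot, eq_bot_iff]
      intro u hu
      rw [LinearMap.mem_ker] at hu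
      rw [Submodule.mem_bot]
      exact Subtype.ext (hinj u u.2 (congrArg Subtype.val hu))
    · rintro ⟨v, hv⟩
      rw [← hmap] at hv
      obtain ⟨u, hu, rfl⟩ := hv
      exact ⟨⟨u, hu⟩, rfl⟩
  let e : U ≃ₗ[ℂ] U' := LinearEquiv.ofBijective e0 he0
  have he : ∀ u : U, ((e u : U') : Fin G ⊕ Fin G → ℂ) = T u := fun u => rfl
  let T1 : U →ₗ[ℂ] U' := ((mulVecLin R').comp (T.comp (mulVecLin R))).restrict fun u hu =>
    hRU' _ (hTU _ (hRU u hu))
  have hT1 : ∀ u : U, ((T1 u : U') : Fin G ⊕ Fin G → ℂ) = R' *ᵥ T (R *ᵥ u) := fun u => rfl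
  let A : End ℂ U := e.symm.toLinearMap ∘ₗ T1
  have hA : ∀ u : U, T ((A u : U) : Fin G ⊕ Fin G → ℂ) = R' *ᵥ T (R *ᵥ u) := by
    intro u
    rw [← he, ← hT1]
    exact congrArg Subtype.val (e.apply_symm_apply (T1 u))
  have hRi : ∀ v, R *ᵥ v = 0 → v = 0 := fun v hv => by
    rw [← one_mulVec v, ← hRR', ← mulVec_mulVec, hv, mulVec_zero]
  have hRi' : ∀ v, R' *ᵥ v = 0 → v = 0 := fun v hv => by
    rw [← one_mulVec v, ← hRR, ← mulVec_mulVec, hv, mulVec_zero]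
  have hAinj : Function.Injective A := by
    rw [← LinearMap.ker_eq_bot, eq_bot_iff]
    intro u hu
    rw [LinearMap.mem_ker] at hu
    rw [Submodule.mem_bot]
    have h1 := hA u
    rw [hu, Submodule.coe_zero, map_zero] at h1
    exact Subtype.ext (hRi _ (hinj _ (hRU u u.2) (hRi' _ h1.symm)))
  obtain ⟨u0, hu0, hu00⟩ := Submodule.exists_mem_ne_zero_of_ne_bot hU.1
  have hnt : Nontrivial U := ⟨⟨⟨u0, hu0⟩, 0, fun h => hu00 (congrArg Subtype.val h)⟩⟩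
  -- the operator `A` commutes with the Lie algebra
  have hcomm : ∀ X (hX : X ∈ Y224.TS.LT S), A * resM X U (hUT.2.1 X hX) =
      resM X U (hUT.2.1 X hX) * A := by
    intro X hX
    obtain ⟨c, hc⟩ := hLT X hX
    obtain ⟨d, hd⟩ := hLT _ (hN X hX)
    have h1 : A * resM X U (hUT.2.1 X hX) = resM X U (hUT.2.1 X hX) * A + (d - c) • A := by
      refine LinearMap.ext fun u => Subtype.ext ?_
      have h2 : T ((A (resM X U (hUT.2.1 X hX) u) : U) : Fin G ⊕ Fin G → ℂ) =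
          T ((resM X U (hUT.2.1 X hX) (A u) + (d - c) • A u : U) : Fin G ⊕ Fin G → ℂ) := by
        rw [hA, resM_coe, Submodule.coe_add, Submodule.coe_smul, map_add, map_smul, resM_coe,
          hc _ (A u).2, hA]
        have h3 : R *ᵥ (X *ᵥ (u : Fin G ⊕ Fin G → ℂ)) = (R * X * R') *ᵥ (R *ᵥ u) := by
          rw [mulVec_mulVec, mulVec_mulVec, mul_assoc (R * X), hRR', mul_one]
        rw [h3, hd _ (hRU u u.2), mulVec_add, mulVec_smul, mulVec_mulVec, ← mul_assoc, ← mul_assoc,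
          hRR', one_mul, ← mulVec_mulVec]
        module
      have h4 := hinj _ (U.sub_mem (A (resM X U (hUT.2.1 X hX) u)).2
        (resM X U (hUT.2.1 X hX) (A u) + (d - c) • A u : U).2) (by rw [map_sub, h2, sub_self])
      exact sub_eq_zero.1 h4
    rw [comm_of_shift hAinj h1, zero_smul, add_zero] at h1
    exact h1
  -- the scalar
  obtain ⟨z, hz⟩ := Module.End.exists_eigenvalue A
  obtain ⟨v, hv⟩ := hz.exists_hasEigenvector
  let W : Submodule ℂ (Fin G ⊕ Fin G → ℂ) := (A.eigenspace z).map U.subtype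
  have hWU : W ≤ U := by
    rintro _ ⟨u, -, rfl⟩
    exact u.2
  have hW : Stab (Y224.TS.LT S) W := by
    rintro X hX _ ⟨u, hu, rfl⟩
    refine ⟨resM X U (hUT.2.1 X hX) u, ?_, rfl⟩
    have h1 := LinearMap.congr_fun (hcomm X hX) u
    rw [SetLike.mem_coe, Module.End.mem_eigenspace_iff] at hu ⊢
    rw [Module.End.mul_apply, Module.End.mul_apply] at h1
    rw [h1, hu, map_smul]
  have hWtop : W = U := by
    rcases hUT.2.2 W hWU hW with h1 | h1
    · exfalso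
      have h2 : ((v : U) : Fin G ⊕ Fin G → ℂ) ∈ W := ⟨v, hv.1, rfl⟩
      rw [h1, Submodule.mem_bot] at h2
      exact hv.2 (Subtype.ext h2)
    · exact h1
  have hAz : ∀ u : U, A u = z • u := by
    intro u
    have h1 : (u : Fin G ⊕ Fin G → ℂ) ∈ W := by
      rw [hWtop]
      exact u.2
    obtain ⟨u', hu', h2⟩ := h1
    have h3 : u' = u := Subtype.ext h2
    rw [SetLike.mem_coe, h3, Module.End.mem_eigenspace_iff] at hu'
    exact hu'
  have hz0 : z ≠ 0 := by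
    intro h1
    have h2 := hAz v
    rw [h1, zero_smul] at h2
    exact hv.2 (hAinj (by rw [h2, map_zero]))
  have hkey : ∀ u ∈ U, T (R *ᵥ u) = z • R *ᵥ T u := by
    intro u hu
    have h1 := hA ⟨u, hu⟩
    rw [hAz, Submodule.coe_smul, map_smul] at h1
    have h2 := congrArg (fun v => R *ᵥ v) h1
    beta_reduce at h2
    rw [mulVec_mulVec, hRR, one_mulVec, mulVec_smul] at h2
    exact h2.symm
  refine ⟨z⁻¹, fun y => ⟨?_, ?_⟩⟩
  · rintro ⟨u, hu, hu1, hu2⟩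
    refine ⟨T u, hTU u hu, fun h1 => hu1 (hinj u hu h1), ?_⟩
    have h1 := hkey u hu
    rw [hu2, map_smul] at h1
    rw [← smul_smul, h1, smul_smul, inv_mul_cancel₀ hz0, one_smul]
  · rintro ⟨u', hu', hu1, hu2⟩
    rw [← hmap] at hu'
    obtain ⟨u, hu, rfl⟩ := hu'
    refine ⟨u, hu, fun h1 => hu1 (by rw [h1, map_zero]), ?_⟩
    have h1 := hkey u hu
    rw [hu2, smul_smul, ← mul_assoc, mul_inv_cancel₀ hz0, one_mul, ← map_smul, ← sub_eq_zero,
      ← map_sub] at h1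
    exact sub_eq_zero.1 (hinj _ (U.sub_mem (hRU u hu) (U.smul_mem y hu)) h1)

end

end Pool.Agent.Helper43y
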