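import Mathlib
import Pool.Agent.N183.U6.Mt
import Pool.Agent.Helper43y.Loc
import Pool.Agent.Helper43y.Sep

/-!
# Tate tensors are combinations of Hodge tensors: one element of the Galois group
-/

set_option linter.unusedSectionVars false
set_option linter.unusedVariables false

namespace Pool.Agent.Helper43y

open Matrix Module Pool.Agent.W437.HC Pool.Agent.W437.HD Pool.Agent.W548.Odd Pool.Agent.W522.U
open Pool.Agent.H204R3.SP Pool.Agent.H204R3.GP Pool.Agent.Y90 Pool.Agent.Y224.TS TensorProduct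
open Pool.Agent.Y224.TS.St (IsHodgeTate IsTateModule)
open Pool.Agent.W437.HP (cK cK_mul cK_one)
open Pool.Agent.R915 (RealMax QuadMult HasCMult IsFactor Sys Unbalanced IsOfType EndQuad VE mem_VE
  aeval_eig)
open Pool.Agent.N183.TS Pool.Agent.N183.U5 Pool.Agent.N183.U6
open Polynomial

noncomputable section

section gd

variable {G : ℕ} {Z : Matrix (Fin G) (Fin G) ℂ}
  {S : Set (Matrix (Fin G ⊕ Fin G) (Fin G ⊕ Fin G) ℂ)}

/-- Labels are roots of the minimal polynomial. -/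
theorem root_of_label {M : Matrix (Fin G ⊕ Fin G) (Fin G ⊕ Fin G) ℚ} {θ : ℂ}
    (h : VE M θ ≠ ⊥) : aeval θ (minpoly ℚ M) = 0 := by
  obtain ⟨v, hv, hv0⟩ := Submodule.exists_mem_ne_zero_of_ne_bot h
  have h4 := aeval_eig (mem_VE.1 hv) (minpoly ℚ M)
  rw [minpoly.aeval] at h4
  have h5 : qm (0 : Matrix (Fin G ⊕ Fin G) (Fin G ⊕ Fin G) ℚ) = 0 := by
    ext i j
    simp [qm]
  rw [h5, zero_mulVec] at h4
  exact (smul_eq_zero.1 h4.symm).resolve_right hv0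

/-- Elements of rank one and no twists. -/
theorem gd_of' (h : TD Z S) (hZ : PM Z) (hs : LTR Z S)
    {M : Matrix (Fin G ⊕ Fin G) (Fin G ⊕ Fin G) ℚ} (k : CG Z M)
    (hsep : ∀ θ θ' : ℂ, aeval θ (minpoly ℚ M) = 0 → aeval θ' (minpoly ℚ M) = 0 → θ ≠ θ' →
      SepP (fun s => pd Z (VE M s)) θ θ' ∨ NPr Z S M θ θ') : Gd Z S := by
  refine ⟨fun _ hU hn => locR h hZ hs hU hn, fun U U' hU hU' hn ψ hT => ?_⟩
  obtain ⟨θ, hθ⟩ := k.label hZ hU
  obtain ⟨θ', hθ'⟩ := k.label hZ hU'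
  have h1 : ∀ {U : Submodule ℂ (Fin G ⊕ Fin G → ℂ)}, IrS (LZ Z) U → ∀ {θ}, U ≤ VE M θ →
      VE M θ ≠ ⊥ := by
    intro U hU θ hθ h2
    rw [h2] at hθ
    exact hU.1 (le_bot_iff.1 hθ)
  by_cases hne : θ = θ'
  · subst hne
    obtain ⟨T, hT1, hT2, hT3⟩ := k.iso hZ hU hU' hθ hθ'
    obtain ⟨u0, hu0, hu00⟩ := Submodule.exists_mem_ne_zero_of_ne_bot hU.1
    have hT4 := (h.eqv T).2 hT1
    exact eqv_gen h hZ hU (T := T) (fun u hu => by
      rw [← hT3]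
      exact ⟨u, hu, rfl⟩) ⟨u0, hu0, fun h2 => hu00 (hT2 u0 hu0 h2)⟩
      fun D hD u _ => hT4 D (LT_gen hD) u
  · exact tw_sep' h hZ k hU hU' hn hθ hθ'
      (hsep θ θ' (root_of_label (h1 hU hθ)) (root_of_label (h1 hU' hθ')) hne) ψ hT

end gd

section av

variable {K : Type} [Field K] [CharZero K] [Algebra K ℂ] {Γ : Type} [Group Γ]

theorem SepPair.sep {n : ℂ → ℕ} {s s' : ℂ} (k : SepPair n s s') : SepP n s s' := by
  intro h1 h2
  obtain ⟨τ, h3, h4⟩ := k h1 h2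
  refine ⟨τ, h3, fun h5 => ?_⟩
  obtain ⟨h6, h7⟩ := h5
  rcases h4 with ⟨h8, h9⟩ | ⟨h8, h9⟩
  · exact h6.elim h8 h9
  · exact h7.elim h8 h9

/-- Eigenvalues in coordinates. -/
theorem eig_coord {G : ℕ} {X : AV} (b : Basis (Fin G ⊕ Fin G) ℚ X.H)
    {ρ : Representation K Γ (K ⊗[ℚ] X.H)} (γ : Γ) (φ : Module.End ℚ X.H) (s z : ℂ) :
    IsEigOn ((ρ γ).baseChange ℂ) (VS K X φ s) z ↔
      EigM (Rm b ρ γ) (VE (LinearMap.toMatrix b b φ) s) z := by
  have h0 : ∀ q : Module.End ℂ (ℂ ⊗[K] (K ⊗[ℚ] X.H)), ∀ x, mt b q *ᵥ eY K b x = eY K b (q x) :=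
    fun q x => mt_mulVec _ _ _
  have h1 : ∀ v, v ∈ VS K X φ s ↔ eY K b v ∈ VE (LinearMap.toMatrix b b φ) s := by
    intro v
    unfold VS
    rw [Module.End.mem_eigenspace_iff, mem_VE]
    have h1 : mt b ((φ.baseChange K).baseChange ℂ) = qm (LinearMap.toMatrix b b φ) := by
      rw [mt_bc2]
    rw [← h1, h0, ← map_smul]
    exact (eY K b).injective.eq_iff.symm
  constructor
  · rintro ⟨v, hv, hv0, hvz⟩
    refine ⟨eY K b v, (h1 v).1 hv, fun h2 => hv0 ((LinearEquiv.map_eq_zero_iff _).1 h2), ?_⟩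
    change mt b ((ρ γ).baseChange ℂ) *ᵥ eY K b v = _
    rw [h0, hvz, map_smul]
  · rintro ⟨v, hv, hv0, hvz⟩
    obtain ⟨v, rfl⟩ := (eY K b).surjective v
    refine ⟨v, (h1 v).2 hv, fun h2 => hv0 (by rw [h2, map_zero]), ?_⟩
    have h2 : mt b ((ρ γ).baseChange ℂ) *ᵥ eY K b v = z • eY K b v := hvz
    rw [h0, ← map_smul] at h2
    exact (eY K b).injective h2

/-- The classes of simple factors. -/
def GoodThree (X : AV) (ρ : Representation K Γ (K ⊗[ℚ] X.H)) (Y : AV) : Prop :=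
  finrank ℚ Y.H ≤ 6 ∨ HasCMult Y ∨ QuadThree Y ∨ RealOdd Y ∨ CopMult Y ∨ FrobTwo X ρ Y

/-- The data for the proof. -/
theorem setup [Algebra.IsAlgebraic K ℂ] (X : AV) {E : X.H → X.H → ℚ}
    (hE : Pool.Agent.Y90.St.IsPolarization X.per E)
    {ρ : Representation K Γ (K ⊗[ℚ] X.H)} {χ : Γ →* K}
    (hX : ∀ Y, IsFactor Y X → GoodThree X ρ Y) {φ : Module.End ℚ X.H} {Ψ : Module.End ℂ X.T}
    (hφ : CentreGen X φ) (hΨ : ∀ v, Ψ (X.per v) = X.per (φ v))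
    (hs : ∀ s s' : ℂ, aeval s (minpoly ℚ φ) = 0 → aeval s' (minpoly ℚ φ) = 0 → s ≠ s' →
      SepPair (fun s => finrank ℂ (Ψ.eigenspace s)) s s' ∨ NotProportional X ρ φ s s')
    (hρ : IsTateModule X.per E ρ χ) :
    ∃ (a : ℕ) (Z : Matrix (Fin a) (Fin a) ℂ) (_ : PM Z) (b : Basis (Fin a ⊕ Fin a) ℚ X.H),
      Cht (X.per.comp b.equivFun.symm.toLinearMap.toAddMonoidHom) (JR Z) ∧
        TD Z (SH X.per ρ χ b) ∧ Gd Z (SH X.per ρ χ b) := by
  classical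
  obtain ⟨a, Z, hZ, b, hC, hb⟩ := exists_ppav' (AV.isAV X) hE
  have hTD : TD Z (SH X.per ρ χ b) := td_of b hb hC hρ
  have hM := hφ.cg hC
  have hpd : ∀ s, pd Z (VE (LinearMap.toMatrix b b φ) s) = finrank ℂ (Ψ.eigenspace s) :=
    fun s => pd_eig hZ hC hφ.1 hΨ s
  have hfn : (fun s => pd Z (VE (LinearMap.toMatrix b b φ) s)) =
      fun s => finrank ℂ (Ψ.eigenspace s) := funext hpd
  have hmp : minpoly ℚ (LinearMap.toMatrix b b φ) = minpoly ℚ φ :=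
    minpoly.algEquiv_eq (LinearMap.toMatrixAlgEquiv b) φ
  refine ⟨a, Z, hZ, b, hC, hTD, gd_of' hTD hZ ?_ hM ?_⟩
  · intro a' Z' E' F' hfac h' hsim ha U hU hn
    have hs := R915.simple_of a' h' hsim ha
    obtain ⟨Ψ₁, h₁⟩ := h'.cht.hom hC (R := E') (by
      rw [DJ_JR, DJ_JR]
      exact hfac.de.symm)
    have hi : IsHom (AVZ h') X (inc h' b E') := ⟨Ψ₁, fun v => h₁ v⟩
    have hfa : IsFactor (AVZ h') X := by
      refine ⟨hs, inc h' b E', hi, ?_⟩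
      intro x y hxy
      have h2 : E' *ᵥ x = E' *ᵥ y := b.equivFun.symm.injective hxy
      have h3 := congrArg (fun v => F' *ᵥ v) h2
      beta_reduce at h3
      rw [mulVec_mulVec, mulVec_mulVec, hfac.fe, one_mulVec, one_mulVec] at h3
      exact h3
    have hT' := tdF hfac hTD hZ h'
    rcases hX _ hfa with k | k | k | k | k | k
    · exact (cls_all h' hT' hs ha (Or.inl k) hU hn).1
    · exact (cls_all h' hT' hs ha (Or.inr (Or.inl k)) hU hn).1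
    · exact (k.cls h' hT' hU hn).1
    · exact (cls_all h' hT' hs ha (Or.inr (Or.inr (Or.inr k))) hU hn).1
    · exact k.cls h' hT' (R915.simple_AVZ h' hs) ha hU hn
    · exact k.cls h' hZ hC hTD hfac (R915.simple_AVZ h' hs) ha hi hU hn
  · intro θ θ' hθ hθ' hne
    rw [hmp] at hθ hθ'
    rcases hs θ θ' hθ hθ' hne with h1 | ⟨γ, hg, h1⟩
    · left
      rw [hfn]
      exact h1.sep
    · right
      refine ⟨Rm b ρ γ, Rm b ρ γ⁻¹, ?_, Rm_inv b γ, fun X hX => Rm_gen b hg hX,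
        cc_of_rat fun Q hQ => Rm_comm b hC hg hQ,
        cc_of_rat fun Q hQ => Rm_comm b hC (comm_inv hg) hQ, fun ⟨c, hc⟩ => h1 ⟨c, fun z => ?_⟩⟩
      · exact Rm_inv' b γ
      · exact (eig_coord b γ φ θ z).trans ((hc z).trans (eig_coord b γ φ θ' (c * z)).symm)

/-- **Tate tensors are combinations of Hodge tensors.** -/
theorem tate_tensor' [Algebra.IsAlgebraic K ℂ] (X : AV)
    {E : X.H → X.H → ℚ} (hE : Pool.Agent.Y90.St.IsPolarization X.per E)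
    {ρ : Representation K Γ (K ⊗[ℚ] X.H)} {χ : Γ →* K}
    (hX : ∀ Y, IsFactor Y X → GoodThree X ρ Y) {φ : Module.End ℚ X.H} {Ψ : Module.End ℂ X.T}
    (hφ : CentreGen X φ) (hΨ : ∀ v, Ψ (X.per v) = X.per (φ v))
    (hs : ∀ s s' : ℂ, aeval s (minpoly ℚ φ) = 0 → aeval s' (minpoly ℚ φ) = 0 → s ≠ s' →
      SepPair (fun s => finrank ℂ (Ψ.eigenspace s)) s s' ∨ NotProportional X ρ φ s s')
    (hρ : IsTateModule X.per E ρ χ) {m : ℕ}
    (t : MultilinearMap K (fun _ : Fin m × Fin 2 => K ⊗[ℚ] X.H) K)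
    (ht : ∃ Δ : Subgroup Γ, Δ.FiniteIndex ∧ ∀ g ∈ Δ, ∀ v : Fin m × Fin 2 → K ⊗[ℚ] X.H,
      t (fun k => ρ g (v k)) = χ g ^ m * t v) :
    ∃ (n : ℕ) (c : Fin n → K) (f : Fin n → MultilinearMap ℚ (fun _ : Fin m × Fin 2 => X.H) ℚ),
      (∀ j, IsHodgeTensor X.per (f j)) ∧
        ∀ v : Fin m × Fin 2 → X.H, t (fun k => (1 : K) ⊗ₜ[ℚ] v k) =
          ∑ j, c j * ((f j v : ℚ) : K) := by
  classical
  obtain ⟨a, Z, hZ, b, hC, hTD, hGd⟩ := setup X hE hX hφ hΨ hs hρ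
  obtain ⟨Ψ₂, h₂⟩ := hC.hom hZ.cht (R := 1) (by rw [cK_one, Matrix.one_mul, Matrix.mul_one])
  have e₂ : ∀ v, Ψ₂ (X.per v) = perOne Z (b.equivFun v) := fun v => by
    have h3 := h₂ (b.equivFun v)
    have h4 : (X.per.comp b.equivFun.symm.toLinearMap.toAddMonoidHom) (b.equivFun v) = X.per v := by
      change X.per (b.equivFun.symm (b.equivFun v)) = X.per v
      rw [LinearEquiv.symm_apply_apply]
    rwa [h4, one_mulVec] at h3
  have h0 := kill_LZ' hTD hZ hGd (FC b t) (FC_kills b t ht)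
  have h1 := expand_ten (F := FC b t) hZ.cht gal_LZ (DJ_JR ▸ DZ_mem)
    (fun X hX => act_of_kills (h0 X hX))
  have h2 : (fun v : Fin m × Fin 2 → Fin a ⊕ Fin a → ℚ => FC b t (fun k => cv (v k))) =
      fun v => algebraMap K ℂ (t (fun k => (1 : K) ⊗ₜ[ℚ] b.equivFun.symm (v k))) := by
    funext v
    exact FC_rat b t v
  rw [h2] at h1
  -- descent
  let S : Set ((Fin m × Fin 2 → Fin a ⊕ Fin a → ℚ) → K) :=
    {s | ∃ r : MultilinearMap ℚ (fun _ : Fin m × Fin 2 => Fin a ⊕ Fin a → ℚ) ℚ,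
      IsHodgeTensor (perOne Z) r ∧ s = fun v => ((r v : ℚ) : K)}
  have h3 : (fun v : Fin m × Fin 2 → Fin a ⊕ Fin a → ℚ =>
      t (fun k => (1 : K) ⊗ₜ[ℚ] b.equivFun.symm (v k))) ∈ Submodule.span K S := by
    refine span_descent_k (Ω := ℂ) S _ ?_
    refine Submodule.span_mono ?_ h1
    rintro g ⟨r, hr, rfl⟩
    refine ⟨_, ⟨r, hr, rfl⟩, ?_⟩
    funext v
    rw [map_ratCast]
  obtain ⟨n, c, s, hs'⟩ := Submodule.mem_span_set'.1 h3
  choose r hr hr' using fun j => (s j).2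
  refine ⟨n, c, fun j => (r j).compLinearMap fun _ => b.equivFun.toLinearMap,
    fun j => isHodgeTensor_comp _ Ψ₂ e₂ (hr j), fun v => ?_⟩
  have h4 := congrFun hs' (fun k => b.equivFun (v k))
  beta_reduce at h4
  have h5 : (fun k => (1 : K) ⊗ₜ[ℚ] b.equivFun.symm (b.equivFun (v k))) =
      fun k => (1 : K) ⊗ₜ[ℚ] v k := by
    funext k
    rw [LinearEquiv.symm_apply_apply]
  rw [h5] at h4
  rw [← h4, Finset.sum_apply]
  refine Finset.sum_congr rfl fun j _ => ?_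
  rw [Pi.smul_apply, smul_eq_mul, hr' j]
  rfl

end av

end

end Pool.Agent.Helper43y
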