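import Mathlib
import Pool.Agent.Helper43y.Stm

/-!
# Examples of isolated pairs of eigenvalues
-/

set_option linter.unusedSectionVars false

namespace Pool.Agent.Helper43y

open Module

noncomputable section

variable {V : Type} [AddCommGroup V] [Module ℂ V] {t : Module.End ℂ V} {W : Submodule ℂ V}
  {n : ℕ}

/-- The values of a homomorphism determine an additive function. -/
theorem add_of_hom (α : Fin n → ℂˣ) {A : Type} [CommGroup A] (v : ℂˣ →* A) {c x : A}
    (f : Fin n → ℤ) (hf : ∀ i, v (α i) = c * x ^ f i) (hb : ∀ i, -1 ≤ f i ∧ f i ≤ 1)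
    (hx : ∀ k : ℕ, 1 ≤ k → k ≤ 4 → x ^ k ≠ 1) (i j k l : Fin n)
    (hij : α i * α j = α k * α l) : f i + f j = f k + f l := by
  have hz : ∀ m : ℤ, -4 ≤ m → m ≤ 4 → x ^ m = 1 → m = 0 := by
    intro m hm1 hm2 hm3
    by_contra hm
    have h3 : x ^ m.natAbs = 1 := by
      rcases Int.natAbs_eq m with h4 | h4
      · rw [h4, zpow_natCast] at hm3
        exact hm3
      · rw [h4, zpow_neg, zpow_natCast, inv_eq_one] at hm3
        exact hm3
    exact hx m.natAbs (by omega) (by omega) h3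
  have h3 := congrArg v hij
  rw [map_mul, map_mul, hf i, hf j, hf k, hf l, mul_mul_mul_comm, mul_mul_mul_comm c _ c] at h3
  have h4 : x ^ f i * x ^ f j = x ^ f k * x ^ f l := mul_left_cancel h3
  have h5 : x ^ (f i + f j - (f k + f l)) = 1 := by
    rw [zpow_sub, zpow_add, zpow_add, h4, mul_inv_cancel]
  have hi := hb i
  have hj := hb j
  have hk := hb k
  have hl := hb l
  have h6 := hz _ (by omega) (by omega) h5
  omega

/-- A homomorphism of the multiplicative group which takes just three values on the eigenvalues. -/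
theorem isolated_of_hom (w : Basis (Fin n) ℂ W) (α : Fin n → ℂˣ)
    (hw : ∀ i, t (w i) = (α i : ℂ) • (w i : V)) {i₀ i₁ : Fin n} (hne : i₀ ≠ i₁)
    {A : Type} [CommGroup A] (v : ℂˣ →* A) {c x : A} (h0 : v (α i₀) = c * x)
    (h1 : v (α i₁) = c * x⁻¹) (h2 : ∀ i, i ≠ i₀ → i ≠ i₁ → v (α i) = c)
    (hx : ∀ k : ℕ, 1 ≤ k → k ≤ 4 → x ^ k ≠ 1) : HasIsolatedPair t W := by
  refine ⟨n, i₀, i₁, hne, w, α, hw, add_of_hom α v (c := c) (x := x) _ (fun i => ?_)
    (fun i => ?_) hx⟩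
  · by_cases e0 : i = i₀
    · rw [if_pos e0, e0, h0, zpow_one]
    · rw [if_neg e0]
      by_cases e1 : i = i₁
      · rw [if_pos e1, e1, h1, zpow_neg, zpow_one]
      · rw [if_neg e1, h2 i e0 e1, zpow_zero, mul_one]
  · split_ifs <;> norm_num

/-- A transposition of two eigenvalues. -/
theorem isolated_of_swap (w : Basis (Fin n) ℂ W) (α : Fin n → ℂˣ)
    (hw : ∀ i, t (w i) = (α i : ℂ) • (w i : V)) {i₀ i₁ : Fin n} (hne : i₀ ≠ i₁)
    (τ : ℂ ≃+* ℂ) (h0 : τ (α i₀) = α i₁) (h1 : τ (α i₁) = α i₀)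
    (h2 : ∀ i, i ≠ i₀ → i ≠ i₁ → τ (α i) = α i)
    (hx : ∀ k : ℕ, 1 ≤ k → k ≤ 4 → α i₀ ^ k ≠ α i₁ ^ k) : HasIsolatedPair t W := by
  refine isolated_of_hom w α hw hne (Units.map (τ : ℂ →* ℂ) / MonoidHom.id ℂˣ) (c := 1)
    (x := α i₁ / α i₀) ?_ ?_ (fun i e0 e1 => ?_) (fun k hk1 hk2 hk => ?_)
  · rw [MonoidHom.div_apply, MonoidHom.id_apply, one_mul]
    congr 1
    exact Units.ext h0
  · rw [MonoidHom.div_apply, MonoidHom.id_apply, one_mul, inv_div]
    congr 1
    exact Units.ext h1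
  · rw [MonoidHom.div_apply, MonoidHom.id_apply, div_eq_one]
    exact Units.ext (h2 i e0 e1)
  · rw [div_pow, div_eq_one] at hk
    exact hx k hk1 hk2 hk.symm

end

end Pool.Agent.Helper43y
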